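import Pool.Agent.Lib.MP_263316_co.EX.Spec

/-!
MP_263316_co, project EX, module XA: splits of the first kind (helper4)
-/

set_option autoImplicit false

namespace Pool.Agent.LOW

open Finset Pool.Agent.SWC

namespace XAaux

/-- the number of the elements of `(a, p]` outside of `G` -/
def N (a : ℕ) (G : Finset ℕ) (p : ℕ) : ℕ := (Ioc a p \ G).card

theorem N_succ_mem (a : ℕ) (G : Finset ℕ) (p : ℕ) (h : p + 1 ∈ G) : N a G (p + 1) = N a G p := by
  unfold N
  congr 1
  ext x
  simp only [mem_sdiff, mem_Ioc]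
  constructor
  · rintro ⟨⟨h1, h2⟩, h3⟩
    refine ⟨⟨h1, ?_⟩, h3⟩
    rcases Nat.lt_or_ge x (p + 1) with h4 | h4
    · omega
    · exact absurd ((Nat.le_antisymm h2 h4) ▸ h) h3
  · rintro ⟨⟨h1, h2⟩, h3⟩
    exact ⟨⟨h1, by omega⟩, h3⟩

theorem N_succ_le (a : ℕ) (G : Finset ℕ) (p : ℕ) : N a G (p + 1) ≤ N a G p + 1 := by
  unfold N
  have : Ioc a (p + 1) \ G ⊆ insert (p + 1) (Ioc a p \ G) := by
    intro x hx
    simp only [mem_sdiff, mem_Ioc, mem_insert] at hx ⊢
    by_cases h : x = p + 1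
    · exact Or.inl h
    · exact Or.inr ⟨⟨hx.1.1, by omega⟩, hx.2⟩
  exact (card_le_card this).trans (card_insert_le _ _)

theorem N_top (a b : ℕ) (G : Finset ℕ) (hab : a < b) (hG : G ⊆ Ico a b) (ha : a ∈ G) :
    N a G (b - 1) + G.card = b - a := by
  unfold N
  have h1 : Ioc a (b - 1) \ G = Ico a b \ G := by
    ext x
    simp only [mem_sdiff, mem_Ioc, mem_Ico]
    constructor
    · rintro ⟨⟨h1, h2⟩, h3⟩
      exact ⟨⟨by omega, by omega⟩, h3⟩
    · rintro ⟨⟨h1, h2⟩, h3⟩
      refine ⟨⟨?_, by omega⟩, h3⟩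
      rcases Nat.lt_or_ge a x with h4 | h4
      · exact h4
      · exact absurd ((Nat.le_antisymm h1 h4) ▸ ha) h3
  rw [h1, card_sdiff_add_card_eq_card hG, Nat.card_Ico]

end XAaux

open XAaux in
theorem tXA : S_XA := by
  classical
  intro hXD m hm a b G H hB hF hW s hs hsG
  obtain ⟨-, hGs, -⟩ := hXD m hm a b G H hB hF hW
  obtain ⟨hab, hb1, hb2⟩ := hB
  obtain ⟨hG, haG, hGv⟩ := hF
  have htop := N_top a b G hab hG haG
  have hex : ∃ p, s ≤ N a G p := ⟨b - 1, by omega⟩
  set p := Nat.find hex with hp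
  have hps : s ≤ N a G p := Nat.find_spec hex
  have hpb : p ≤ b - 1 := Nat.find_min' hex (by omega)
  have hpa : a < p := by
    by_contra h
    have : N a G p = 0 := by
      unfold N
      rw [Ioc_eq_empty (by omega)]
      simp
    omega
  obtain ⟨p', hp'⟩ : ∃ p', p = p' + 1 := ⟨p - 1, by omega⟩
  have hlt : N a G p' < s := by
    have := Nat.find_min hex (m := p') (by rw [← hp]; omega)
    omega
  have hcard : N a G p = s := by
    have := N_succ_le a G p'
    rw [← hp'] at this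
    omega
  refine ⟨Ioc a p \ G, ?_, hcard, ?_, ?_, ?_⟩
  · intro x hx
    simp only [mem_sdiff, mem_Ioc, mem_Ioo] at hx ⊢
    omega
  · rintro v hv ⟨w, hw, hwv⟩
    simp only [mem_sdiff, mem_Ioc] at hv hw
    unfold aL
    rw [card_pos]
    by_cases h1 : v - 1 ∈ G
    · have h2 : v - 2 ∉ G := by
        intro h2
        have := hGs _ h2
        rw [show v - 2 + 1 = v - 1 by omega] at this
        exact this h1
      have h3 : v - 2 ≠ a := by
        intro h3
        rw [h3] at h2
        exact h2 haG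
      have h4 : v - 1 ≠ w := by
        intro h4
        rw [← h4] at hw
        exact hw.2 h1
      refine ⟨v - 2, ?_⟩
      simp only [mem_filter, mem_sdiff, mem_Ioc]
      refine ⟨⟨⟨by omega, by omega⟩, h2⟩, by omega, ?_⟩
      have := hb2 (v - 2) (by omega) (by omega)
      omega
    · refine ⟨v - 1, ?_⟩
      simp only [mem_filter, mem_sdiff, mem_Ioc]
      refine ⟨⟨⟨by omega, by omega⟩, h1⟩, by omega, ?_⟩
      have := hb1 (v - 1) (by omega) (by omega)
      omega
  · rintro v hv ⟨w, hw, hwv⟩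
    simp only [mem_sdiff, mem_Icc] at hv hw
    have h1 := hGv v (by omega) (by omega)
    unfold aL at h1 ⊢
    have h2 : (G.filter (fun u => u < v ∧ v ≤ m u)).Nonempty := by
      rw [← card_pos]; omega
    obtain ⟨g, hg⟩ := h2
    rw [mem_filter] at hg
    rw [card_pos]
    refine ⟨g, ?_⟩
    have h3 := mem_Ico.1 (hG hg.1)
    rw [mem_filter, mem_sdiff, mem_Icc]
    exact ⟨⟨⟨h3.1, by omega⟩, fun h => (mem_sdiff.1 h).2 hg.1⟩, hg.2⟩
  · unfold eCT
    rw [← hcard]
    unfold N
    rw [card_eq_sum_ones]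
    refine sum_le_sum fun t ht => ?_
    simp only [mem_sdiff, mem_Ioc] at ht
    have h1 := hGv t (by omega) (by omega)
    rw [← h1]
    unfold aL
    refine card_le_card fun u hu => ?_
    simp only [mem_filter, mem_sdiff, mem_Icc, mem_Ioc] at hu ⊢
    refine ⟨?_, hu.2⟩
    by_contra h
    rcases Nat.lt_or_ge a u with h4 | h4
    · exact hu.1.2 ⟨⟨h4, by omega⟩, h⟩
    · have : u = a := by omega
      rw [this] at h
      exact h haG

end Pool.Agent.LOW
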