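import Pool.Agent.Lib.MP_263316_co.EX.Spec

/-! # MP_263316_co, project EX: splits of the second kind -/

set_option autoImplicit false

namespace Pool.Agent.LOW

open Finset Pool.Agent.SWC

namespace XB1aux

theorem ini (G : Finset ℕ) : ∀ w ≤ G.card, ∃ C ⊆ G, C.card = w ∧
    ∀ x ∈ C, ∀ y ∈ G, y < x → y ∈ C := by
  intro w
  induction w with
  | zero =>
    intro _
    exact ⟨∅, empty_subset _, rfl, by simp⟩
  | succ w ih =>
    intro hw
    obtain ⟨C, hCG, hCc, hC⟩ := ih (by omega)
    have hne : (G \ C).Nonempty := by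
      rw [← card_pos, card_sdiff_of_subset hCG]
      omega
    have hmin := min'_mem (G \ C) hne
    rw [mem_sdiff] at hmin
    refine ⟨insert ((G \ C).min' hne) C, insert_subset hmin.1 hCG, ?_, ?_⟩
    · rw [card_insert_of_notMem hmin.2, hCc]
    · intro x hx y hy hyx
      rw [mem_insert] at hx ⊢
      rcases hx with rfl | hx
      · by_contra hcon
        push Not at hcon
        have h1 : y ∈ G \ C := mem_sdiff.2 ⟨hy, hcon.2⟩
        have h2 := min'_le (G \ C) y h1
        omega
      · exact Or.inr (hC x hx y hy hyx)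

theorem pos_of {m : ℕ → ℕ} {C : Finset ℕ} {u v : ℕ} (hu : u ∈ C) (h1 : u < v) (h2 : v ≤ m u) :
    0 < aL m C v := by
  unfold aL
  exact card_pos.2 ⟨u, mem_filter.2 ⟨hu, h1, h2⟩⟩

theorem ex_of {m : ℕ → ℕ} {C : Finset ℕ} {v : ℕ} (h : aL m C v = 1) :
    ∃ u ∈ C, u < v ∧ v ≤ m u := by
  unfold aL at h
  have h1 : (C.filter (fun u => u < v ∧ v ≤ m u)).Nonempty := by
    rw [← card_pos]
    omega
  obtain ⟨u, hu⟩ := h1
  rw [mem_filter] at hu
  exact ⟨u, hu.1, hu.2⟩

theorem add_of {m : ℕ → ℕ} {C G : Finset ℕ} (h : C ⊆ G) (v : ℕ) :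
    aL m C v + aL m (G \ C) v = aL m G v := by
  unfold aL
  rw [← card_union_of_disjoint, ← filter_union, union_sdiff_of_subset h]
  exact disjoint_filter_filter (disjoint_sdiff)

end XB1aux

theorem tXB1 : S_XB1 := by
  intro hD m hm a b G H hB hF hW w hw1 hwG
  obtain ⟨-, hsp, -⟩ := hD m hm a b G H hB hF hW
  obtain ⟨hab, hB1, hB2⟩ := hB
  obtain ⟨hGs, haG, hG1⟩ := hF
  obtain ⟨C, hCG, hCc, hC⟩ := XB1aux.ini G w hwG
  have hGb : ∀ x ∈ G, a ≤ x ∧ x < b := fun x hx => by
    have := hGs hx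
    rwa [mem_Ico] at this
  have haC : a ∈ C := by
    have hne : C.Nonempty := by
      rw [← card_pos]
      omega
    obtain ⟨x, hx⟩ := hne
    have h1 := (hGb x (hCG hx)).1
    rcases h1.eq_or_lt with h2 | h2
    · rwa [h2]
    · exact hC x hx a haG h2
  have hCI : C ⊆ Icc a b := fun x hx => by
    have := hGb x (hCG hx)
    rw [mem_Icc]
    omega
  have hSS : Icc a b \ (Icc a b \ C) = C := Finset.sdiff_sdiff_eq_self hCI
  have hnbr : ∀ v ∈ C, a < v → 0 < aL m C v := by
    intro v hv hav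
    obtain ⟨u, hu, h1, h2⟩ := XB1aux.ex_of (hG1 v hav (hGb v (hCG hv)).2.le)
    exact XB1aux.pos_of (hC v hv u hu h1) h1 h2
  have hTI : Icc a b \ C ⊆ Ioc a b := by
    intro x hx
    rw [mem_sdiff, mem_Icc] at hx
    rw [mem_Ioc]
    have : x ≠ a := fun h => hx.2 (h ▸ haC)
    omega
  refine ⟨Icc a b \ C, hTI, ?_, ?_, ?_, ?_, ?_⟩
  · rw [mem_sdiff, mem_Icc]
    refine ⟨⟨hab.le, le_rfl⟩, fun h => ?_⟩
    have := (hGb b (hCG h)).2
    omega
  · rw [card_sdiff_of_subset hCI, Nat.card_Icc, hCc]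
    have h1 := card_le_card hCI
    rw [Nat.card_Icc, hCc] at h1
    omega
  · rintro t ht ⟨t', ht', htt⟩
    have h1 := mem_Ioc.1 (hTI ht)
    have h2 := mem_Ioc.1 (hTI ht')
    by_cases h3 : t - 1 ∈ C
    · have h4 : t - 2 ∉ G := by
        intro h5
        have h6 := hsp _ h5
        have e : t - 2 + 1 = t - 1 := by omega
        rw [e] at h6
        exact h6 (hCG h3)
      have h5 : t - 2 ∈ Icc a b \ C := by
        rw [mem_sdiff, mem_Icc]
        exact ⟨by omega, fun h => h4 (hCG h)⟩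
      refine XB1aux.pos_of h5 (by omega) ?_
      have h6 := hB2 (t - 2) (by omega) (by omega)
      omega
    · have h5 : t - 1 ∈ Icc a b \ C := by
        rw [mem_sdiff, mem_Icc]
        exact ⟨by omega, h3⟩
      refine XB1aux.pos_of h5 (by omega) ?_
      have h6 := hB1 (t - 1) (by omega) (by omega)
      omega
  · rw [hSS]
    rintro v hv ⟨u, hu, huv⟩
    have := (hGb u (hCG hu)).1
    exact hnbr v hv (by omega)
  · rw [hSS]
    unfold eCT
    have hdec : Ioc a b = (Icc a b \ C) ∪ (C.erase a) := by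
      ext x
      simp only [mem_Ioc, mem_union, mem_sdiff, mem_Icc, mem_erase]
      constructor
      · intro hx
        by_cases hxC : x ∈ C
        · exact Or.inr ⟨by omega, hxC⟩
        · exact Or.inl ⟨by omega, hxC⟩
      · rintro (⟨hx, hxC⟩ | ⟨hx, hxC⟩)
        · have : x ≠ a := fun h => hxC (h ▸ haC)
          omega
        · have := hGb x (hCG hxC)
          omega
    have hdis : Disjoint (Icc a b \ C) (C.erase a) := by
      rw [disjoint_left]
      intro x hx hx'
      exact (mem_sdiff.1 hx).2 (mem_of_mem_erase hx')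
    have hs1 : ∑ t ∈ Ioc a b, aL m C t =
        ∑ t ∈ Icc a b \ C, aL m C t + ∑ t ∈ C.erase a, aL m C t := by
      rw [hdec, sum_union hdis]
    have hs2 : w - 1 ≤ ∑ t ∈ C.erase a, aL m C t := by
      have h1 : (C.erase a).card = w - 1 := by rw [card_erase_of_mem haC, hCc]
      rw [← h1, card_eq_sum_ones]
      refine sum_le_sum fun t ht => ?_
      rw [mem_erase] at ht
      have := (hGb t (hCG ht.2)).1
      exact hnbr t ht.2 (by omega)
    have hs3 : ∑ t ∈ Ioc a b, aL m C t + ∑ t ∈ Ioc a b, aL m (G \ C) t = b - a := by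
      rw [← sum_add_distrib, ← Nat.card_Ioc a b, card_eq_sum_ones]
      refine sum_congr rfl fun t ht => ?_
      rw [mem_Ioc] at ht
      rw [XB1aux.add_of hCG, hG1 t ht.1 ht.2]
    have hs4 : (G \ C).card ≤ ∑ t ∈ Ioc a b, aL m (G \ C) t := by
      have h1 : ((G \ C).image (fun x => x + 1)).card = (G \ C).card :=
        card_image_of_injective _ (fun x y h => by simpa using h)
      rw [← h1, card_eq_sum_ones]
      have h2 : (G \ C).image (fun x => x + 1) ⊆ Ioc a b := by
        intro x hx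
        rw [mem_image] at hx
        obtain ⟨y, hy, rfl⟩ := hx
        have := hGb y (mem_sdiff.1 hy).1
        rw [mem_Ioc]
        omega
      refine le_trans (sum_le_sum fun t ht => ?_) (sum_le_sum_of_subset h2)
      rw [mem_image] at ht
      obtain ⟨y, hy, rfl⟩ := ht
      have h3 := hGb y (mem_sdiff.1 hy).1
      exact XB1aux.pos_of hy (by omega) (hB1 y h3.1 h3.2)
    have hs5 : (G \ C).card = G.card - w := by
      rw [card_sdiff_of_subset hCG, hCc]
    omega

end Pool.Agent.LOW
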