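import Pool.Agent.Lib.MP_263316_co.EX.Spec

/-!
MP_263316_co, project EX, task XB2: splits of a block by the last elements of the backward path.
-/

set_option autoImplicit false

namespace Pool.Agent.LOW

open Finset Pool.Agent.SWC

namespace XB2aux

theorem seg : ∀ (n : ℕ) (H : Finset ℕ), H.card = n → ∀ k ≤ n,
    ∃ T ⊆ H, T.card = k ∧ ∀ x ∈ H, x ∉ T → ∀ y ∈ T, x < y := by
  intro n
  induction n with
  | zero =>
    intro H _ k hk
    exact ⟨∅, Finset.empty_subset _, by rw [Finset.card_empty]; omega,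
      fun x _ _ y hy => absurd hy (Finset.notMem_empty y)⟩
  | succ n ih =>
    intro H hH k hk
    rcases Nat.lt_or_ge k (n + 1) with h | h
    · have hne : H.Nonempty := Finset.card_pos.1 (by omega)
      obtain ⟨T, hT, hc, hs⟩ := ih (H.erase (H.min' hne))
        (by rw [Finset.card_erase_of_mem (Finset.min'_mem _ _)]; omega) k (by omega)
      refine ⟨T, hT.trans (Finset.erase_subset _ _), hc, ?_⟩
      intro x hx hxT y hy
      rcases eq_or_ne x (H.min' hne) with he | he
      · have hy' := Finset.mem_erase.1 (hT hy)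
        rw [he]
        exact lt_of_le_of_ne (Finset.min'_le _ _ hy'.2) (Ne.symm hy'.1)
      · exact hs x (Finset.mem_erase.2 ⟨he, hx⟩) hxT y hy
    · exact ⟨H, Finset.Subset.refl _, by omega, fun x hx hxT => absurd hx hxT⟩

end XB2aux

theorem tXB2 : S_XB2 := by
  intro hXD m hm a b G H hB hG hH k hk hkH
  obtain ⟨_, _, hsp⟩ := hXD m hm a b G H hB hG hH
  obtain ⟨hlt, hB1, hB2⟩ := hB
  obtain ⟨hHs, hbH, hH1⟩ := hH
  obtain ⟨T, hT, hTc, hTs⟩ := XB2aux.seg H.card H rfl k hkH
  have hbT : b ∈ T := by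
    by_contra h
    obtain ⟨y, hy⟩ := Finset.card_pos.1 (show 0 < T.card by omega)
    have h1 := hTs b hbH h y hy
    have h2 := (Finset.mem_Ioc.1 (hHs (hT hy))).2
    omega
  have hex : ∀ v, a ≤ v → v < b → ∃ x ∈ H, v < x ∧ x ≤ m v ∧
      ∀ y ∈ H, v < y → y ≤ m v → y = x := by
    intro v hv1 hv2
    have h1 := hH1 v hv1 hv2
    unfold aR at h1
    obtain ⟨z, hz⟩ := Finset.card_eq_one.1 h1
    have h2 : z ∈ H.filter (fun u => v < u ∧ u ≤ m v) := by
      rw [hz]
      exact Finset.mem_singleton_self z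
    obtain ⟨h3, h4, h5⟩ := Finset.mem_filter.1 h2
    refine ⟨z, h3, h4, h5, fun y hy h6 h7 => ?_⟩
    have h8 : y ∈ H.filter (fun u => v < u ∧ u ≤ m v) := Finset.mem_filter.2 ⟨hy, h6, h7⟩
    rw [hz] at h8
    exact Finset.mem_singleton.1 h8
  refine ⟨T, hT.trans hHs, hbT, hTc, ?_, ?_, ?_⟩
  · rintro v hv ⟨w, hw, hwv⟩
    have hne : (T.filter (fun x => x < v)).Nonempty := ⟨w, Finset.mem_filter.2 ⟨hw, hwv⟩⟩
    obtain ⟨hhT, hhv⟩ := Finset.mem_filter.1 (Finset.max'_mem _ hne)
    have hle : ∀ x ∈ T, x < v → x ≤ (T.filter (fun x => x < v)).max' hne := fun x hx hxv =>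
      Finset.le_max' _ x (Finset.mem_filter.2 ⟨hx, hxv⟩)
    generalize (T.filter (fun x => x < v)).max' hne = h at hhT hhv hle
    have hh := Finset.mem_Ioc.1 (hHs (hT hhT))
    have hvb := (Finset.mem_Ioc.1 (hHs (hT hv))).2
    obtain ⟨x, hxH, hx1, hx2, _⟩ := hex h (by omega) (by omega)
    have hxT : x ∈ T := by
      by_contra hc
      have := hTs x hxH hc h hhT
      omega
    have hvx : v ≤ x := by
      by_contra hc
      have := hle x hxT (by omega)
      omega
    unfold aL
    exact Finset.card_pos.2 ⟨h, Finset.mem_filter.2 ⟨hhT, hhv, by omega⟩⟩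
  · rintro v hv ⟨w, hw, hwv⟩
    obtain ⟨hvI, hvT⟩ := Finset.mem_sdiff.1 hv
    have hvI' := Finset.mem_Icc.1 hvI
    have hwI := Finset.mem_Icc.1 (Finset.mem_sdiff.1 hw).1
    unfold aL
    by_cases h1 : v - 1 ∈ T
    · have h2 := Finset.mem_Ioc.1 (hHs (hT h1))
      have h3 : v - 2 ∉ T := by
        intro h4
        have h5 := hsp (v - 2) (hT h4)
        rw [show v - 2 + 1 = v - 1 by omega] at h5
        exact h5 (hT h1)
      have h6 := hB2 (v - 2) (by omega) (by omega)
      exact Finset.card_pos.2 ⟨v - 2, Finset.mem_filter.2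
        ⟨Finset.mem_sdiff.2 ⟨Finset.mem_Icc.2 ⟨by omega, by omega⟩, h3⟩, by omega, by omega⟩⟩
    · have h6 := hB1 (v - 1) (by omega) (by omega)
      exact Finset.card_pos.2 ⟨v - 1, Finset.mem_filter.2
        ⟨Finset.mem_sdiff.2 ⟨Finset.mem_Icc.2 ⟨by omega, by omega⟩, h1⟩, by omega, by omega⟩⟩
  · have e1 : eCT m (Icc a b \ T) T = ∑ c ∈ Icc a b \ T, aR m T c := by
      unfold eCT aL aR
      simp only [Finset.card_filter]
      exact Finset.sum_comm
    have hCab : ∀ c ∈ Icc a b \ T, a ≤ c ∧ c < b := by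
      intro c hc
      obtain ⟨h1, h2⟩ := Finset.mem_sdiff.1 hc
      have h3 := Finset.mem_Icc.1 h1
      exact ⟨h3.1, lt_of_le_of_ne h3.2 (fun h => h2 (h ▸ hbT))⟩
    have hle1 : ∀ c ∈ Icc a b \ T, aR m T c ≤ 1 := by
      intro c hc
      rw [← hH1 c (hCab c hc).1 (hCab c hc).2]
      unfold aR
      exact Finset.card_le_card (Finset.filter_subset_filter _ hT)
    have e2 : ∑ c ∈ Icc a b \ T, aR m T c ≤
        ((Icc a b \ T).filter (fun c => aR m T c ≠ 0)).card := by
      rw [Finset.card_filter]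
      apply Finset.sum_le_sum
      intro c hc
      have h1 := hle1 c hc
      split_ifs with h
      · exact h1
      · omega
    have hI : ((H \ T).image (fun h => h - 1)).card = (H \ T).card := by
      apply Finset.card_image_of_injOn
      intro x hx y hy hxy
      have hx1 := Finset.mem_Ioc.1 (hHs (Finset.mem_sdiff.1 (Finset.mem_coe.1 hx)).1)
      have hy1 := Finset.mem_Ioc.1 (hHs (Finset.mem_sdiff.1 (Finset.mem_coe.1 hy)).1)
      have hxy' : x - 1 = y - 1 := hxy
      omega
    have hd1 : Disjoint ((Icc a b \ T).filter (fun c => aR m T c ≠ 0)) (T.erase b) := by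
      rw [Finset.disjoint_left]
      intro c hc hcT
      exact (Finset.mem_sdiff.1 (Finset.mem_filter.1 hc).1).2 (Finset.mem_erase.1 hcT).2
    have hd2 : Disjoint ((Icc a b \ T).filter (fun c => aR m T c ≠ 0) ∪ T.erase b)
        ((H \ T).image (fun h => h - 1)) := by
      rw [Finset.disjoint_left]
      intro c hc hcI
      obtain ⟨h, hh, hhc⟩ := Finset.mem_image.1 hcI
      have hhc' : h - 1 = c := hhc
      obtain ⟨hhH, hhT⟩ := Finset.mem_sdiff.1 hh
      have hh1 := Finset.mem_Ioc.1 (hHs hhH)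
      rcases Finset.mem_union.1 hc with h2 | h2
      · obtain ⟨hcC, hcn⟩ := Finset.mem_filter.1 h2
        have hcab := hCab c hcC
        unfold aR at hcn
        obtain ⟨t, ht⟩ := Finset.card_pos.1 (Nat.pos_of_ne_zero hcn)
        obtain ⟨htT, ht1, ht2⟩ := Finset.mem_filter.1 ht
        obtain ⟨x, _, _, _, hxu⟩ := hex c hcab.1 hcab.2
        have h3 := hB1 c hcab.1 hcab.2
        have e3 := hxu t (hT htT) ht1 ht2
        have e4 := hxu h hhH (by omega) (by omega)
        exact hhT (by rw [e4, ← e3]; exact htT)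
      · have h3 := hTs h hhH hhT c (Finset.mem_erase.1 h2).2
        omega
    have hsub : ((Icc a b \ T).filter (fun c => aR m T c ≠ 0) ∪ T.erase b) ∪
        (H \ T).image (fun h => h - 1) ⊆ Ico a b := by
      intro c hc
      rcases Finset.mem_union.1 hc with h1 | h1
      · rcases Finset.mem_union.1 h1 with h2 | h2
        · exact Finset.mem_Ico.2 (hCab c (Finset.mem_filter.1 h2).1)
        · obtain ⟨h3, h4⟩ := Finset.mem_erase.1 h2
          have h5 := Finset.mem_Ioc.1 (hHs (hT h4))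
          exact Finset.mem_Ico.2 ⟨by omega, by omega⟩
      · obtain ⟨h, hh, hhc⟩ := Finset.mem_image.1 h1
        have hhc' : h - 1 = c := hhc
        have hh1 := Finset.mem_Ioc.1 (hHs (Finset.mem_sdiff.1 hh).1)
        exact Finset.mem_Ico.2 ⟨by omega, by omega⟩
    have hcard := Finset.card_le_card hsub
    have hHT := Finset.card_sdiff_add_card_eq_card hT
    rw [Finset.card_union_of_disjoint hd2, Finset.card_union_of_disjoint hd1, hI,
      Finset.card_erase_of_mem hbT, Nat.card_Ico] at hcard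
    rw [e1]
    omega

end Pool.Agent.LOW
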