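import Pool.Agent.Lib.MP_263316_co.EX.Spec

/-!
MP_263316_co, project EX, task XBL: the block lemma.
-/

set_option autoImplicit false

namespace Pool.Agent.LOW

open Finset Pool.Agent.SWC

theorem tXBL : S_XG → S_XD → S_XA → S_XB1 → S_XB2 → S_XC1 → S_XC2 → S_XC3 → S_XBL := by
  intro hG hD hA hB1 hB2 hC1 hC2 hC3 m hm a b hb
  have hab : a < b := hb.1
  obtain ⟨⟨G, fG⟩, H, bH⟩ := hG m hm a b hab hb.2.1
  have hGH : G.card = H.card := (hD m hm a b G H hb fG bH).1
  have hGc : G.card ≤ b - a := by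
    have h := Finset.card_le_card fG.1
    rwa [Nat.card_Ico] at h
  refine ⟨b - a + 1 - G.card, fun s hs hsM => ?_, fun q hq hqb => ?_⟩
  · exact hA hD m hm a b G H hb fG bH s hs (by omega)
  · obtain ⟨w, hw⟩ : ∃ w, w = b - a + 1 - q := ⟨_, rfl⟩
    have hw1 : 1 ≤ w := by omega
    rcases Nat.lt_or_ge G.card w with h1 | h1
    · rcases Nat.lt_or_ge H.card q with h2 | h2
      · obtain ⟨p, hp1, hp2, hp3, hp4, hp5⟩ := hC3 hD m hm a b G H hb fG bH w h1 (by omega)
        have e1 := hC1 m hm a b G H hb fG bH p hp1 hp2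
        obtain ⟨c1, c2, c3, c4⟩ := hC2 hD m hm a b G H hb fG bH p hp1 hp2 hp3 hp4
        have hsub : Cp a b G H p ⊆ Icc a b := by
          intro v hv
          unfold Cp at hv
          rw [Finset.mem_union, Finset.mem_inter, Finset.mem_sdiff, Finset.mem_Icc,
            Finset.mem_Icc] at hv
          rw [Finset.mem_Icc]
          omega
        have hcc : Icc a b \ (Icc a b \ Cp a b G H p) = Cp a b G H p :=
          Finset.sdiff_sdiff_eq_self hsub
        refine ⟨Icc a b \ Cp a b G H p, ?_, ?_, ?_, c2, ?_, ?_⟩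
        · intro v hv
          rw [Finset.mem_sdiff, Finset.mem_Icc] at hv
          rw [Finset.mem_Ioc]
          refine ⟨lt_of_le_of_ne hv.1.1 ?_, hv.1.2⟩
          rintro rfl
          exact hv.2 c4
        · rw [Finset.mem_sdiff, Finset.mem_Icc]
          exact ⟨⟨le_of_lt hab, le_rfl⟩, c3⟩
        · rw [Finset.card_sdiff_of_subset hsub, Nat.card_Icc, hp5]
          omega
        · rw [hcc]
          exact c1
        · rw [hcc]
          omega
      · obtain ⟨T, t1, t2, t3, t4, t5, t6⟩ := hB2 hD m hm a b G H hb fG bH q hq h2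
        exact ⟨T, t1, t2, t3, t4, t5, by omega⟩
    · obtain ⟨T, t1, t2, t3, t4, t5, t6⟩ := hB1 hD m hm a b G H hb fG bH w hw1 h1
      exact ⟨T, t1, t2, by omega, t4, t5, by omega⟩

end Pool.Agent.LOW
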