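import Pool.Agent.Lib.MP_263316_co.EX.Spec

/-!
MP_263316_co, project EX: number of edges of the split.
-/

set_option autoImplicit false

namespace Pool.Agent.LOW

open Finset Pool.Agent.SWC

namespace XC1aux

theorem dc (m : ℕ → ℕ) (X Y : Finset ℕ) : ∑ t ∈ X, aL m Y t = ∑ y ∈ Y, aR m X y := by
  unfold aL aR
  simp only [card_filter]
  exact sum_comm

theorem aL_congr {m : ℕ → ℕ} {A B : Finset ℕ} {v : ℕ} (h : ∀ u, u < v → (u ∈ A ↔ u ∈ B)) :
    aL m A v = aL m B v := by
  unfold aL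
  congr 1
  ext u
  rw [mem_filter, mem_filter]
  constructor
  · rintro ⟨h1, h2⟩
    exact ⟨(h u h2.1).1 h1, h2⟩
  · rintro ⟨h1, h2⟩
    exact ⟨(h u h2.1).2 h1, h2⟩

theorem aR_congr {m : ℕ → ℕ} {A B : Finset ℕ} {v : ℕ} (h : ∀ u, v < u → (u ∈ A ↔ u ∈ B)) :
    aR m A v = aR m B v := by
  unfold aR
  congr 1
  ext u
  rw [mem_filter, mem_filter]
  constructor
  · rintro ⟨h1, h2⟩
    exact ⟨(h u h2.1).1 h1, h2⟩
  · rintro ⟨h1, h2⟩
    exact ⟨(h u h2.1).2 h1, h2⟩

theorem aL_union (m : ℕ → ℕ) {A B : Finset ℕ} (h : Disjoint A B) (v : ℕ) :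
    aL m (A ∪ B) v = aL m A v + aL m B v := by
  unfold aL
  rw [filter_union, card_union_of_disjoint (disjoint_filter_filter h)]

end XC1aux

open XC1aux in
theorem tXC1 : S_XC1 := by
  intro m hm a b G H hB hG hH p hap hpb
  obtain ⟨hGs, haG, hG1⟩ := hG
  obtain ⟨hHs, hbH, hH1⟩ := hH
  have hGm : ∀ g ∈ G, a ≤ g ∧ g < b := fun g hg => mem_Ico.1 (hGs hg)
  have hHm : ∀ g ∈ H, a < g ∧ g ≤ b := fun g hg => mem_Ioc.1 (hHs hg)
  have hT : Icc a b \ Cp a b G H p = (Icc a p \ G) ∪ (H ∩ Icc (p + 1) b) := by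
    ext u
    unfold Cp
    simp only [mem_sdiff, mem_union, mem_inter, mem_Icc]
    constructor
    · rintro ⟨h1, h2⟩
      by_cases h3 : u ≤ p
      · left
        exact ⟨⟨h1.1, h3⟩, fun h4 => h2 (Or.inl ⟨h4, h1.1, h3⟩)⟩
      · right
        have h4 : p + 1 ≤ u ∧ u ≤ b := ⟨by omega, h1.2⟩
        refine ⟨?_, h4⟩
        by_contra h5
        exact h2 (Or.inr ⟨h4, h5⟩)
    · rintro (⟨h1, h2⟩ | ⟨h1, h2⟩)
      · refine ⟨⟨h1.1, by omega⟩, ?_⟩
        rintro (⟨h3, _⟩ | ⟨h3, _⟩)
        · exact h2 h3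
        · omega
      · refine ⟨⟨by omega, h2.2⟩, ?_⟩
        rintro (⟨_, h3⟩ | ⟨_, h3⟩)
        · omega
        · exact h3 h1
  have hdT : Disjoint (Icc a p \ G) (H ∩ Icc (p + 1) b) := by
    rw [disjoint_left]
    intro u h1 h2
    have h3 := mem_Icc.1 (mem_sdiff.1 h1).1
    have h4 := mem_Icc.1 (mem_inter.1 h2).2
    omega
  have hdC : Disjoint (G ∩ Icc a p) (Icc (p + 1) b \ H) := by
    rw [disjoint_left]
    intro u h1 h2
    have h3 := mem_Icc.1 (mem_inter.1 h1).2
    have h4 := mem_Icc.1 (mem_sdiff.1 h2).1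
    omega
  have hdG : Disjoint (G ∩ Icc a p) (G ∩ Icc (p + 1) b) := by
    rw [disjoint_left]
    intro u h1 h2
    have h3 := mem_Icc.1 (mem_inter.1 h1).2
    have h4 := mem_Icc.1 (mem_inter.1 h2).2
    omega
  have hGe : G = (G ∩ Icc a p) ∪ (G ∩ Icc (p + 1) b) := by
    ext u
    simp only [mem_union, mem_inter, mem_Icc]
    constructor
    · intro h
      have := hGm u h
      by_cases h3 : u ≤ p
      · exact Or.inl ⟨h, this.1, h3⟩
      · exact Or.inr ⟨h, by omega, by omega⟩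
    · rintro (h | h)
      · exact h.1
      · exact h.1
  -- first part
  have e1 : ∑ t ∈ Icc a p \ G, aL m (Cp a b G H p) t = (Icc a p \ G).card := by
    rw [card_eq_sum_ones]
    apply sum_congr rfl
    intro t ht
    rw [mem_sdiff, mem_Icc] at ht
    have h1 : aL m (Cp a b G H p) t = aL m G t := by
      apply aL_congr
      intro u hu
      unfold Cp
      simp only [mem_sdiff, mem_union, mem_inter, mem_Icc]
      constructor
      · rintro (h | h)
        · exact h.1
        · omega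
      · intro h
        exact Or.inl ⟨h, (hGm u h).1, by omega⟩
    rw [h1]
    apply hG1 t _ (by omega)
    rcases Nat.lt_or_ge a t with h | h
    · exact h
    · have : t = a := by omega
      rw [this] at ht
      exact absurd haG ht.2
  have e2 : ∑ t ∈ H ∩ Icc (p + 1) b, aL m (Icc (p + 1) b \ H) t = (Icc (p + 1) b \ H).card := by
    rw [dc, card_eq_sum_ones]
    apply sum_congr rfl
    intro c hc
    rw [mem_sdiff, mem_Icc] at hc
    have h1 : aR m (H ∩ Icc (p + 1) b) c = aR m H c := by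
      apply aR_congr
      intro u hu
      rw [mem_inter, mem_Icc]
      constructor
      · exact fun h => h.1
      · intro h
        exact ⟨h, by omega, (hHm u h).2⟩
    rw [h1]
    apply hH1 c (by omega)
    rcases Nat.lt_or_ge c b with h | h
    · exact h
    · have : c = b := by omega
      rw [this] at hc
      exact absurd hbH hc.2
  have e3 : ∑ t ∈ H ∩ Icc (p + 1) b, aL m (G ∩ Icc (p + 1) b) t =
      (G ∩ Icc (p + 1) b).card := by
    rw [dc, card_eq_sum_ones]
    apply sum_congr rfl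
    intro c hc
    rw [mem_inter, mem_Icc] at hc
    have h1 : aR m (H ∩ Icc (p + 1) b) c = aR m H c := by
      apply aR_congr
      intro u hu
      rw [mem_inter, mem_Icc]
      constructor
      · exact fun h => h.1
      · intro h
        exact ⟨h, by omega, (hHm u h).2⟩
    rw [h1]
    exact hH1 c (hGm c hc.1).1 (hGm c hc.1).2
  have e4 : ∑ t ∈ H ∩ Icc (p + 1) b, aL m (G ∩ Icc a p) t + (G ∩ Icc (p + 1) b).card =
      (H ∩ Icc (p + 1) b).card := by
    rw [← e3, ← sum_add_distrib, card_eq_sum_ones]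
    apply sum_congr rfl
    intro t ht
    rw [← aL_union m hdG, ← hGe]
    rw [mem_inter] at ht
    exact hG1 t (hHm t ht.1).1 (hHm t ht.1).2
  have e5 : ∑ t ∈ H ∩ Icc (p + 1) b, aL m (Cp a b G H p) t =
      ∑ t ∈ H ∩ Icc (p + 1) b, aL m (G ∩ Icc a p) t + (Icc (p + 1) b \ H).card := by
    rw [← e2, ← sum_add_distrib]
    apply sum_congr rfl
    intro t _
    unfold Cp
    exact aL_union m hdC t
  have c1 : (Icc a p \ G).card + (G ∩ Icc a p).card = p + 1 - a := by
    rw [inter_comm, card_sdiff_add_card_inter, Nat.card_Icc]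
  have c2 : (Icc (p + 1) b \ H).card + (H ∩ Icc (p + 1) b).card = b + 1 - (p + 1) := by
    rw [inter_comm, card_sdiff_add_card_inter, Nat.card_Icc]
  have c3 : G.card = (G ∩ Icc a p).card + (G ∩ Icc (p + 1) b).card := by
    rw [← card_union_of_disjoint hdG, ← hGe]
  unfold eCT
  rw [hT, sum_union hdT, e1, e5]
  omega

end Pool.Agent.LOW
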