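import Pool.Agent.Lib.MP_263316_co.EX.Spec

/-!
MP_263316_co, project EX, module XC2: connectedness of the split.
-/

set_option autoImplicit false

namespace Pool.Agent.LOW

open Finset Pool.Agent.SWC

namespace XC2aux

theorem xcPosL {m : ℕ → ℕ} {C : Finset ℕ} {u v : ℕ} (hu : u ∈ C) (h1 : u < v) (h2 : v ≤ m u) :
    0 < aL m C v :=
  Finset.card_pos.2 ⟨u, Finset.mem_filter.2 ⟨hu, h1, h2⟩⟩

theorem xcNbG {m : ℕ → ℕ} {G : Finset ℕ} {v : ℕ} (h : aL m G v = 1) :
    ∃ g ∈ G, g < v ∧ v ≤ m g := by
  have h1 : 0 < aL m G v := by omega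
  obtain ⟨g, hg⟩ := Finset.card_pos.1 h1
  obtain ⟨h2, h3, h4⟩ := Finset.mem_filter.1 hg
  exact ⟨g, h2, h3, h4⟩

theorem xcNextH {m : ℕ → ℕ} {H : Finset ℕ} {v t : ℕ} (h : aR m H v = 1)
    (hmin : ∀ x ∈ H, v < x → t ≤ x) : t ≤ m v := by
  have h1 : 0 < aR m H v := by omega
  obtain ⟨x, hx⟩ := Finset.card_pos.1 h1
  obtain ⟨h2, h3, h4⟩ := Finset.mem_filter.1 hx
  exact (hmin x h2 h3).trans h4

theorem xcMemC {a b : ℕ} {G H : Finset ℕ} {p v : ℕ} : v ∈ Cp a b G H p ↔
    (v ∈ G ∧ a ≤ v ∧ v ≤ p) ∨ (p + 1 ≤ v ∧ v ≤ b ∧ v ∉ H) := by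
  unfold Cp
  rw [Finset.mem_union, Finset.mem_inter, Finset.mem_sdiff, Finset.mem_Icc, Finset.mem_Icc]
  tauto

end XC2aux

open XC2aux in
theorem tXC2 : S_XC2 := by
  intro hXD m hm a b G H hB hF hW p hap hpb hg1 hg2
  obtain ⟨_, hsG, hsH⟩ := hXD m hm a b G H hB hF hW
  obtain ⟨hab, hB1, hB2⟩ := hB
  obtain ⟨hGs, haG, hG⟩ := hF
  obtain ⟨hHs, hbH, hH⟩ := hW
  refine ⟨?_, ?_, ?_, ?_⟩
  · rintro v hv ⟨w, hw, hwv⟩
    have haw : a ≤ w := by
      rcases xcMemC.1 hw with h | h
      · exact h.2.1
      · omega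
    have hav : a < v := by omega
    have hvb : v ≤ b := by
      rcases xcMemC.1 hv with h | h
      · omega
      · exact h.2.1
    obtain ⟨g, hgG, hgv, hvg⟩ := xcNbG (hG v hav hvb)
    have hga : a ≤ g := (Finset.mem_Ico.1 (hGs hgG)).1
    rcases xcMemC.1 hv with ⟨_, _, h3⟩ | ⟨h1, _, h3⟩
    · exact xcPosL (xcMemC.2 (Or.inl ⟨hgG, hga, by omega⟩)) hgv hvg
    · have hvne : v ≠ b := by
        rintro rfl
        exact h3 hbH
      by_cases e1 : v = p + 1
      · exact xcPosL (xcMemC.2 (Or.inl ⟨hgG, hga, by omega⟩)) hgv hvg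
      · by_cases e2 : v - 1 ∈ H
        · have e3 : v - 2 ∉ H := by
            intro h
            apply hsH _ h
            have : v - 2 + 1 = v - 1 := by omega
            rw [this]
            exact e2
          by_cases e4 : p < v - 2
          · refine xcPosL (u := v - 2) (xcMemC.2 (Or.inr ⟨by omega, by omega, e3⟩)) (by omega) ?_
            have := hB2 (v - 2) (by omega) (by omega)
            omega
          · have e5 : v - 1 = p + 1 := by omega
            rw [e5] at e2
            have e6 : p + 1 ∉ G := by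
              intro h
              rcases hg2 with h7 | h7
              · omega
              · exact h7 ⟨h, e2⟩
            have e7 : g ≠ p + 1 := by
              rintro rfl
              exact e6 hgG
            exact xcPosL (xcMemC.2 (Or.inl ⟨hgG, hga, by omega⟩)) hgv hvg
        · refine xcPosL (u := v - 1) (xcMemC.2 (Or.inr ⟨by omega, by omega, e2⟩)) (by omega) ?_
          have := hB1 (v - 1) (by omega) (by omega)
          omega
  · have memT : ∀ t, t ∈ Icc a b \ Cp a b G H p ↔
        a ≤ t ∧ t ≤ b ∧ ((t ≤ p ∧ t ∉ G) ∨ (p < t ∧ t ∈ H)) := by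
      intro t
      rw [Finset.mem_sdiff, Finset.mem_Icc, xcMemC]
      constructor
      · rintro ⟨⟨h1, h2⟩, h3⟩
        refine ⟨h1, h2, ?_⟩
        rcases le_or_gt t p with h4 | h4
        · exact Or.inl ⟨h4, fun h => h3 (Or.inl ⟨h, h1, h4⟩)⟩
        · refine Or.inr ⟨h4, ?_⟩
          by_contra hc
          exact h3 (Or.inr ⟨h4, h2, hc⟩)
      · rintro ⟨h1, h2, h3⟩
        refine ⟨⟨h1, h2⟩, ?_⟩
        rintro (⟨h4, h5, h6⟩ | ⟨h4, h5, h6⟩)
        · rcases h3 with h3 | h3
          · exact h3.2 h4
          · omega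
        · rcases h3 with h3 | h3
          · omega
          · exact h6 h3.2
    rintro t ht ⟨w, hw, hwt⟩
    obtain ⟨ha, htb, hc⟩ := (memT t).1 ht
    obtain ⟨hwa, hwb, hwc⟩ := (memT w).1 hw
    have hwa' : a < w := by
      rcases hwa.lt_or_eq with h | h
      · exact h
      · rcases hwc with h1 | h1
        · exact absurd (h ▸ haG) h1.2
        · omega
    rcases hc with ⟨htp, htG⟩ | ⟨htp, htH⟩
    · by_cases e2 : t - 1 ∈ G
      · have e3 : t - 2 ∉ G := by
          intro h
          apply hsG _ h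
          have : t - 2 + 1 = t - 1 := by omega
          rw [this]
          exact e2
        refine xcPosL (u := t - 2) ((memT _).2 ⟨by omega, by omega, Or.inl ⟨by omega, e3⟩⟩)
          (by omega) ?_
        have := hB2 (t - 2) (by omega) (by omega)
        omega
      · refine xcPosL (u := t - 1) ((memT _).2 ⟨by omega, by omega, Or.inl ⟨by omega, e2⟩⟩)
          (by omega) ?_
        have := hB1 (t - 1) (by omega) (by omega)
        omega
    · by_cases hex : ∃ h ∈ H, p < h ∧ h < t
      · have hne : (H.filter (fun h => p < h ∧ h < t)).Nonempty := by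
          obtain ⟨h, h1, h2⟩ := hex
          exact ⟨h, Finset.mem_filter.2 ⟨h1, h2⟩⟩
        obtain ⟨h, hmem, hmax⟩ := Finset.exists_max_image _ (fun x : ℕ => x) hne
        obtain ⟨h1, h2, h3⟩ := Finset.mem_filter.1 hmem
        refine xcPosL (u := h) ((memT _).2 ⟨by omega, by omega, Or.inr ⟨h2, h1⟩⟩) h3 ?_
        refine xcNextH (hH h (by omega) (by omega)) ?_
        intro x hx hhx
        by_contra hc
        have := hmax x (Finset.mem_filter.2 ⟨hx, by omega, by omega⟩)
        omega
      · have hno : ∀ x ∈ H, p < x → t ≤ x := by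
          intro x hx hpx
          by_contra hc
          exact hex ⟨x, hx, hpx, by omega⟩
        have hwp : w ≤ p := by
          rcases hwc with h | h
          · exact h.1
          · exact absurd (hno w h.2 h.1) (by omega)
        by_cases hpG : p ∈ G
        · have hpH : p ∉ H := by
            intro h
            rcases hg1 with h7 | h7
            · omega
            · exact h7 ⟨hpG, h⟩
          have e3 : p - 1 ∉ G := by
            intro h
            apply hsG _ h
            have : p - 1 + 1 = p := by omega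
            rw [this]
            exact hpG
          refine xcPosL (u := p - 1) ((memT _).2 ⟨by omega, by omega, Or.inl ⟨by omega, e3⟩⟩)
            (by omega) ?_
          refine xcNextH (hH (p - 1) (by omega) (by omega)) ?_
          intro x hx hpx
          rcases Nat.lt_or_ge p x with h | h
          · exact hno x hx h
          · have : x = p := by omega
            exact absurd (this ▸ hx) hpH
        · refine xcPosL (u := p) ((memT _).2 ⟨hap, by omega, Or.inl ⟨le_refl _, hpG⟩⟩) htp ?_
          exact xcNextH (hH p hap hpb) hno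
  · rw [xcMemC]
    rintro (⟨_, _, h⟩ | ⟨_, _, h⟩)
    · omega
    · exact h hbH
  · exact xcMemC.2 (Or.inl ⟨haG, le_refl _, hap⟩)

end Pool.Agent.LOW
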