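import Pool.Agent.Lib.MP_263316_co.EX.Spec

/-!
MP_263316_co, project EX, module XC3: sizes of the split (helper92).
-/

set_option autoImplicit false

namespace Pool.Agent.LOW

open Finset Pool.Agent.SWC

namespace XC3aux

theorem mem_Cp (a b : ℕ) (G H : Finset ℕ) (p x : ℕ) :
    x ∈ Cp a b G H p ↔ (x ∈ G ∧ a ≤ x ∧ x ≤ p) ∨ (p + 1 ≤ x ∧ x ≤ b ∧ x ∉ H) := by
  unfold Cp
  rw [mem_union, mem_inter, mem_Icc, mem_sdiff, mem_Icc]
  tauto

theorem erase_eq (a b : ℕ) (G H : Finset ℕ) (q : ℕ) :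
    (Cp a b G H q).erase (q + 1) = (Cp a b G H (q + 1)).erase (q + 1) := by
  ext x
  rw [mem_erase, mem_erase, mem_Cp, mem_Cp]
  constructor
  · rintro ⟨h1, h2 | h2⟩
    · exact ⟨h1, Or.inl ⟨h2.1, h2.2.1, by omega⟩⟩
    · exact ⟨h1, Or.inr ⟨by omega, h2.2.1, h2.2.2⟩⟩
  · rintro ⟨h1, h2 | h2⟩
    · exact ⟨h1, Or.inl ⟨h2.1, h2.2.1, by omega⟩⟩
    · exact ⟨h1, Or.inr ⟨by omega, h2.2.1, h2.2.2⟩⟩

theorem step_le (a b : ℕ) (G H : Finset ℕ) (q : ℕ) :
    (Cp a b G H q).card ≤ (Cp a b G H (q + 1)).card + 1 := by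
  have h1 : (Cp a b G H q).card ≤ ((Cp a b G H q).erase (q + 1)).card + 1 := by
    have := Finset.pred_card_le_card_erase (s := Cp a b G H q) (a := q + 1)
    omega
  rw [erase_eq] at h1
  have h2 := Finset.card_le_card (Finset.erase_subset (q + 1) (Cp a b G H (q + 1)))
  omega

/-- a common vertex -/
theorem step_common (a b : ℕ) (G H : Finset ℕ) (q : ℕ) (ha : a ≤ q + 1) (hG : q + 1 ∈ G)
    (hH : q + 1 ∈ H) : (Cp a b G H (q + 1)).card = (Cp a b G H q).card + 1 := by
  have h1 : q + 1 ∉ Cp a b G H q := by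
    rw [mem_Cp]
    rintro (h | h)
    · omega
    · exact h.2.2 hH
  have h2 : q + 1 ∈ Cp a b G H (q + 1) := by
    rw [mem_Cp]
    exact Or.inl ⟨hG, ha, le_rfl⟩
  have h3 := erase_eq a b G H q
  rw [Finset.erase_eq_of_notMem h1] at h3
  have h4 := Finset.card_erase_add_one h2
  rw [← h3] at h4
  omega

/-- a vertex in neither path -/
theorem step_none (a b : ℕ) (G H : Finset ℕ) (q : ℕ) (hb : q + 1 ≤ b) (hG : q + 1 ∉ G)
    (hH : q + 1 ∉ H) : (Cp a b G H q).card = (Cp a b G H (q + 1)).card + 1 := by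
  have h1 : q + 1 ∈ Cp a b G H q := by
    rw [mem_Cp]
    exact Or.inr ⟨le_rfl, hb, hH⟩
  have h2 : q + 1 ∉ Cp a b G H (q + 1) := by
    rw [mem_Cp]
    rintro (h | h)
    · exact hG h.1
    · omega
  have h3 := erase_eq a b G H q
  rw [Finset.erase_eq_of_notMem h2] at h3
  have h4 := Finset.card_erase_add_one h1
  rw [h3] at h4
  omega

end XC3aux

open XC3aux in
theorem tXC3 : S_XC3 := by
  intro hXD m hm a b G H hB hG hH w hw1 hw2
  obtain ⟨hcard, hGG, hHH⟩ := hXD m hm a b G H hB hG hH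
  have hab := hB.1
  -- the end
  have hend : ∀ q, q + 1 = b → (Cp a b G H q).card ≤ G.card := by
    intro q hq
    refine Finset.card_le_card ?_
    intro x hx
    rw [mem_Cp] at hx
    rcases hx with h | h
    · exact h.1
    · exfalso
      have : x = b := by omega
      rw [this] at h
      exact h.2.2 hH.2.1
  -- the beginning
  have hbeg : w ≤ (Cp a b G H a).card := by
    have h1 : insert a (Ioc a b \ H) ⊆ Cp a b G H a := by
      intro x hx
      rw [mem_Cp]
      rcases mem_insert.1 hx with h | h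
      · subst h
        exact Or.inl ⟨hG.2.1, le_rfl, le_rfl⟩
      · rw [mem_sdiff, mem_Ioc] at h
        exact Or.inr ⟨by omega, h.1.2, h.2⟩
    have h2 := Finset.card_le_card h1
    have h3 : a ∉ Ioc a b \ H := by
      rw [mem_sdiff, mem_Ioc]
      omega
    rw [Finset.card_insert_of_notMem h3, Finset.card_sdiff_of_subset hH.1, Nat.card_Ioc] at h2
    omega
  -- induction
  have main : ∀ n q, b - q ≤ n → a ≤ q → q < b → (q = a ∨ ¬ (q ∈ G ∧ q ∈ H)) →
      w ≤ (Cp a b G H q).card →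
      ∃ p, a ≤ p ∧ p < b ∧ (p = a ∨ ¬ (p ∈ G ∧ p ∈ H)) ∧
        (p + 1 = b ∨ ¬ (p + 1 ∈ G ∧ p + 1 ∈ H)) ∧ (Cp a b G H p).card = w := by
    intro n
    induction n with
    | zero =>
      intro q h1 h2 h3
      omega
    | succ n ih =>
      intro q hn haq hqb hq hwq
      by_cases hlast : q + 1 = b
      · have := hend q hlast
        omega
      by_cases hcom : q + 1 ∈ G ∧ q + 1 ∈ H
      · have h1 : q + 1 + 1 ∉ G := hGG _ hcom.1
        have h2 : q + 1 + 1 ∉ H := hHH _ hcom.2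
        have h3 : q + 1 + 1 ≠ b := by
          intro h
          rw [h] at h2
          exact h2 hH.2.1
        have h4 := step_common a b G H q (by omega) hcom.1 hcom.2
        have h5 := step_none a b G H (q + 1) (by omega) h1 h2
        exact ih (q + 1 + 1) (by omega) (by omega) (by omega) (Or.inr fun h => h1 h.1) (by omega)
      · by_cases hv : (Cp a b G H q).card = w
        · exact ⟨q, haq, hqb, hq, Or.inr hcom, hv⟩
        · have h4 := step_le a b G H q
          exact ih (q + 1) (by omega) (by omega) (by omega) (Or.inr hcom) (by omega)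
  exact main (b - a) a le_rfl le_rfl hab (Or.inl rfl) hbeg

end Pool.Agent.LOW
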