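import Pool.Agent.Lib.MP_263316_co.EX.Spec

/-!
MP_263316_co, project EX: the forward and the backward path of a block have the same number of
elements and contain no two consecutive vertices.
-/

set_option autoImplicit false

namespace Pool.Agent.LOW

open Finset Pool.Agent.SWC

private theorem XD_two (S : Finset ℕ) (x y : ℕ) (hx : x ∈ S) (hy : y ∈ S) (hxy : x ≠ y) :
    S.card ≠ 1 := by
  intro h
  obtain ⟨z, hz⟩ := Finset.card_eq_one.1 h
  rw [hz, Finset.mem_singleton] at hx hy
  exact hxy (hx.trans hy.symm)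

theorem tXD : S_XD := by
  intro m _ a b G H hB hF hW
  obtain ⟨_, hB1, hB2⟩ := hB
  obtain ⟨hG, _, hG1⟩ := hF
  obtain ⟨hH, _, hH1⟩ := hW
  refine ⟨?_, ?_, ?_⟩
  · have h1 := Finset.sum_card_bipartiteAbove_eq_sum_card_bipartiteBelow
      (s := G) (t := H) (fun g h : ℕ => g < h ∧ h ≤ m g)
    have h2 : ∑ g ∈ G, (H.bipartiteAbove (fun g h : ℕ => g < h ∧ h ≤ m g) g).card = G.card := by
      rw [Finset.card_eq_sum_ones]
      refine Finset.sum_congr rfl fun g hg => ?_
      have h3 := Finset.mem_Ico.1 (hG hg)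
      exact hH1 g h3.1 h3.2
    have h4 : ∑ h ∈ H, (G.bipartiteBelow (fun g h : ℕ => g < h ∧ h ≤ m g) h).card = H.card := by
      rw [Finset.card_eq_sum_ones H]
      refine Finset.sum_congr rfl fun h hh => ?_
      have h3 := Finset.mem_Ioc.1 (hH hh)
      exact hG1 h h3.1 h3.2
    rw [h2, h4] at h1
    exact h1
  · intro v hv hv1
    have h3 := Finset.mem_Ico.1 (hG hv)
    have h4 := Finset.mem_Ico.1 (hG hv1)
    have h5 := hG1 (v + 2) (by omega) (by omega)
    unfold aL at h5
    refine XD_two _ v (v + 1) ?_ ?_ (by omega) h5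
    · exact Finset.mem_filter.2 ⟨hv, by omega, hB2 v h3.1 (by omega)⟩
    · exact Finset.mem_filter.2 ⟨hv1, by omega, hB1 (v + 1) (by omega) (by omega)⟩
  · intro v hv hv1
    have h3 := Finset.mem_Ioc.1 (hH hv)
    have h4 := Finset.mem_Ioc.1 (hH hv1)
    obtain ⟨w, rfl⟩ : ∃ w, v = w + 1 := ⟨v - 1, by omega⟩
    have h5 := hH1 w (by omega) (by omega)
    unfold aR at h5
    refine XD_two _ (w + 1) (w + 1 + 1) ?_ ?_ (by omega) h5
    · exact Finset.mem_filter.2 ⟨hv, by omega, hB1 w (by omega) (by omega)⟩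
    · exact Finset.mem_filter.2 ⟨hv1, by omega, hB2 w (by omega) (by omega)⟩

end Pool.Agent.LOW
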