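import Pool.Agent.Lib.MP_263316_co.EX.Spec

/-!
MP_263316_co, project EX: the combinatorial lemma for `range n` (task XLN)
-/

set_option autoImplicit false

namespace Pool.Agent.LOW

open Finset Pool.Agent.SWC

namespace XLNaux

theorem aL_le {m : ℕ → ℕ} {A B : Finset ℕ} {t : ℕ}
    (h : ∀ u ∈ A, u < t → t ≤ m u → u ∈ B) : aL m A t ≤ aL m B t := by
  unfold aL
  apply Finset.card_le_card
  intro u hu
  rw [Finset.mem_filter] at hu ⊢
  exact ⟨h u hu.1 hu.2.1 hu.2.2, hu.2⟩

theorem aL_pos {m : ℕ → ℕ} {A : Finset ℕ} {t u : ℕ} (hu : u ∈ A) (h1 : u < t)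
    (h2 : t ≤ m u) : 0 < aL m A t := by
  unfold aL
  exact Finset.card_pos.mpr ⟨u, Finset.mem_filter.mpr ⟨hu, h1, h2⟩⟩

theorem exA (m : ℕ → ℕ) (n s : ℕ) (hs : 1 ≤ s) (hsn : s < n) :
    ∃ a, (a = 0 ∨ m (a - 1) ≤ a) ∧ a + s ≤ n - 1 ∧
      ∀ i, a < i → i + s ≤ n - 1 → ¬ (i = 0 ∨ m (i - 1) ≤ i) := by
  classical
  have hne : ((range n).filter (fun i => (i = 0 ∨ m (i - 1) ≤ i) ∧ i + s ≤ n - 1)).Nonempty :=
    ⟨0, Finset.mem_filter.mpr ⟨Finset.mem_range.mpr (by omega), Or.inl rfl, by omega⟩⟩
  have h := Finset.mem_filter.mp (Finset.max'_mem _ hne)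
  refine ⟨Finset.max' _ hne, h.2.1, h.2.2, ?_⟩
  intro i hi h1 h2
  have h3 := Finset.le_max' _ i (Finset.mem_filter.mpr
    ⟨Finset.mem_range.mpr (by omega), h2, h1⟩ :
      i ∈ (range n).filter (fun i => (i = 0 ∨ m (i - 1) ≤ i) ∧ i + s ≤ n - 1))
  omega

theorem exB (m : ℕ → ℕ) (n a : ℕ) (ha : a < n - 1) :
    ∃ b, a < b ∧ b ≤ n - 1 ∧ (∀ i, a < i → i < b → ¬ (i = 0 ∨ m (i - 1) ≤ i)) ∧
      (b = n - 1 ∨ (b = 0 ∨ m (b - 1) ≤ b)) := by
  classical
  by_cases hex : ∃ i, a < i ∧ i < n - 1 ∧ (i = 0 ∨ m (i - 1) ≤ i)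
  · refine ⟨Nat.find hex, (Nat.find_spec hex).1, (Nat.find_spec hex).2.1.le, ?_,
      Or.inr (Nat.find_spec hex).2.2⟩
    intro i h1 h2 h3
    have h4 := (Nat.find_spec hex).2.1
    exact Nat.find_min hex h2 ⟨h1, by omega, h3⟩
  · refine ⟨n - 1, ha, le_rfl, ?_, Or.inl rfl⟩
    intro i h1 h2 h3
    exact hex ⟨i, h1, h2, h3⟩

end XLNaux

open XLNaux

theorem tXLN : S_XLN := by
  intro hBL m hm n s hc hs hsn
  classical
  obtain ⟨a, haS, hal, hamax⟩ := exA m n s hs hsn
  obtain ⟨b, hab, hbn, hbmin, hbS⟩ := exB m n a (by omega)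
  have hblk : Blk m a b := by
    refine ⟨hab, fun i _ hi => hc i (by omega), fun i h1 h2 => ?_⟩
    have h3 := hbmin (i + 1) (by omega) (by omega)
    by_contra hcon
    apply h3
    right
    rw [Nat.add_sub_cancel]
    omega
  have hnb : n - 1 < b + s := by
    rcases hbS with h | h
    · omega
    · by_contra hcon
      exact hamax b hab (by omega) h
  have hcutA : ∀ u, u < a → m u ≤ a := by
    intro u hu
    rcases haS with h | h
    · omega
    · exact (hm (by omega : u ≤ a - 1)).trans h
  have hcutB : b < n - 1 → ∀ u, u < b → m u ≤ b := by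
    intro hb u hu
    rcases hbS with h | h | h
    · omega
    · omega
    · exact (hm (by omega : u ≤ b - 1)).trans h
  obtain ⟨M, hM1, hM2⟩ := hBL m hm a b hblk
  have hstep : ∀ v, 0 < v → v < n → v ≤ m (v - 1) := by
    intro v h1 h2
    have h3 := hc (v - 1) (by omega)
    omega
  rcases lt_or_ge s M with hsM | hsM
  · obtain ⟨T, hT, hTc, hc1, hc2, he⟩ := hM1 s hs hsM
    have hTm : ∀ t ∈ T, a < t ∧ t < b := fun t ht => Finset.mem_Ioo.mp (hT ht)
    refine ⟨T, ?_, ?_, hTc, hc1, ?_, ?_⟩
    · intro t ht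
      have := hTm t ht
      exact Finset.mem_range.mpr (by omega)
    · intro h0
      have := hTm 0 h0
      omega
    · intro v hv hw
      obtain ⟨w, hw, hwv⟩ := hw
      have hv' := Finset.mem_sdiff.mp hv
      have hvn := Finset.mem_range.mp hv'.1
      by_cases hva : v ≤ a
      · exact aL_pos (u := v - 1) (Finset.mem_sdiff.mpr ⟨Finset.mem_range.mpr (by omega),
          fun h => by have := hTm _ h; omega⟩) (by omega) (hstep v (by omega) hvn)
      · by_cases hvb : v ≤ b
        · have h1 : 0 < aL m (Icc a b \ T) v := by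
            refine hc2 v (Finset.mem_sdiff.mpr ⟨Finset.mem_Icc.mpr ⟨by omega, hvb⟩, hv'.2⟩)
              ⟨a, Finset.mem_sdiff.mpr ⟨Finset.mem_Icc.mpr ⟨le_rfl, hab.le⟩,
                fun h => by have := hTm _ h; omega⟩, by omega⟩
          refine lt_of_lt_of_le h1 (aL_le fun u hu _ _ => ?_)
          have hu' := Finset.mem_sdiff.mp hu
          have hu2 := Finset.mem_Icc.mp hu'.1
          exact Finset.mem_sdiff.mpr ⟨Finset.mem_range.mpr (by omega), hu'.2⟩
        · exact aL_pos (u := v - 1) (Finset.mem_sdiff.mpr ⟨Finset.mem_range.mpr (by omega),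
            fun h => by have := hTm _ h; omega⟩) (by omega) (hstep v (by omega) hvn)
    · refine le_trans ?_ he
      unfold eCT
      refine Finset.sum_le_sum fun t ht => aL_le fun u hu h1 h2 => ?_
      have hu' := Finset.mem_sdiff.mp hu
      have ht' := hTm t ht
      refine Finset.mem_sdiff.mpr ⟨Finset.mem_Icc.mpr ⟨?_, by omega⟩, hu'.2⟩
      by_contra hcon
      have := hcutA u (by omega)
      omega
  · obtain ⟨T0, hT, hbT, hTc, hc1, hc2, he⟩ := hM2 (s - (n - 1 - b)) (by omega) (by omega)
    have hTm : ∀ t ∈ T0, a < t ∧ t ≤ b := fun t ht => Finset.mem_Ioc.mp (hT ht)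
    have hmT : ∀ t, t ∈ T0 ∪ Ioo b n ↔ t ∈ T0 ∨ (b < t ∧ t < n) := by
      intro t
      rw [Finset.mem_union, Finset.mem_Ioo]
    have hdis : Disjoint T0 (Ioo b n) := by
      rw [Finset.disjoint_left]
      intro t h1 h2
      have h3 := hTm t h1
      have h4 := Finset.mem_Ioo.mp h2
      omega
    refine ⟨T0 ∪ Ioo b n, ?_, ?_, ?_, ?_, ?_, ?_⟩
    · intro t ht
      rcases (hmT t).mp ht with h | h
      · have := hTm t h
        exact Finset.mem_range.mpr (by omega)
      · exact Finset.mem_range.mpr h.2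
    · intro h0
      rcases (hmT 0).mp h0 with h | h
      · have := hTm 0 h
        omega
      · omega
    · rw [Finset.card_union_of_disjoint hdis, hTc, Nat.card_Ioo]
      omega
    · intro v hv hw
      obtain ⟨w, hw, hwv⟩ := hw
      by_cases hvb : v ≤ b
      · have hv0 : v ∈ T0 := by
          rcases (hmT v).mp hv with h | h
          · exact h
          · omega
        have hw0 : w ∈ T0 := by
          rcases (hmT w).mp hw with h | h
          · exact h
          · omega
        exact lt_of_lt_of_le (hc1 v hv0 ⟨w, hw0, hwv⟩) (aL_le fun u hu _ _ => (hmT u).mpr (Or.inl hu))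
      · have hvn : v < n := by
          rcases (hmT v).mp hv with h | h
          · have := hTm v h
            omega
          · exact h.2
        refine aL_pos (u := v - 1) ((hmT _).mpr ?_) (by omega) (hstep v (by omega) hvn)
        by_cases h1 : v - 1 = b
        · left
          rw [h1]
          exact hbT
        · right
          omega
    · intro v hv hw
      obtain ⟨w, hw, hwv⟩ := hw
      have hv' := Finset.mem_sdiff.mp hv
      have hvn := Finset.mem_range.mp hv'.1
      have hvb : v ≤ b := by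
        by_contra hcon
        exact hv'.2 ((hmT v).mpr (Or.inr ⟨by omega, hvn⟩))
      by_cases hva : v ≤ a
      · refine aL_pos (u := v - 1) (Finset.mem_sdiff.mpr ⟨Finset.mem_range.mpr (by omega),
          fun h => ?_⟩) (by omega) (hstep v (by omega) hvn)
        rcases (hmT _).mp h with h | h
        · have := hTm _ h
          omega
        · omega
      · have hvT : v ∉ T0 := fun h => hv'.2 ((hmT v).mpr (Or.inl h))
        have h1 : 0 < aL m (Icc a b \ T0) v := by
          refine hc2 v (Finset.mem_sdiff.mpr ⟨Finset.mem_Icc.mpr ⟨by omega, hvb⟩, hvT⟩)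
            ⟨a, Finset.mem_sdiff.mpr ⟨Finset.mem_Icc.mpr ⟨le_rfl, hab.le⟩,
              fun h => by have := hTm _ h; omega⟩, by omega⟩
        refine lt_of_lt_of_le h1 (aL_le fun u hu _ _ => ?_)
        have hu' := Finset.mem_sdiff.mp hu
        have hu2 := Finset.mem_Icc.mp hu'.1
        refine Finset.mem_sdiff.mpr ⟨Finset.mem_range.mpr (by omega), fun h => ?_⟩
        rcases (hmT _).mp h with h | h
        · exact hu'.2 h
        · omega
    · refine le_trans ?_ (he.trans hsM)
      unfold eCT
      rw [Finset.sum_union hdis]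
      have hz : ∑ t ∈ Ioo b n, aL m (range n \ (T0 ∪ Ioo b n)) t = 0 := by
        refine Finset.sum_eq_zero fun t ht => ?_
        have ht' := Finset.mem_Ioo.mp ht
        unfold aL
        rw [Finset.card_eq_zero, Finset.filter_eq_empty_iff]
        intro u hu h
        have hu' := Finset.mem_sdiff.mp hu
        have hun := Finset.mem_range.mp hu'.1
        have hub : u < b := by
          by_contra hcon
          apply hu'.2
          by_cases h1 : u = b
          · rw [h1]
            exact (hmT b).mpr (Or.inl hbT)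
          · exact (hmT u).mpr (Or.inr ⟨by omega, hun⟩)
        have := hcutB (by omega) u hub
        omega
      rw [hz, add_zero]
      refine Finset.sum_le_sum fun t ht => aL_le fun u hu h1 h2 => ?_
      have hu' := Finset.mem_sdiff.mp hu
      have ht' := hTm t ht
      refine Finset.mem_sdiff.mpr ⟨Finset.mem_Icc.mpr ⟨?_, by omega⟩,
        fun h => hu'.2 ((hmT u).mpr (Or.inl h))⟩
      by_contra hcon
      have := hcutA u (by omega)
      omega

end Pool.Agent.LOW
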