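import Pool.Agent.Lib.MP_263316_co.EX.Spec

/-!
MP_263316_co, project EX, task YC: the chain for connected graphs.
-/

set_option autoImplicit false

namespace Pool.Agent.LOW

open Finset Pool.Agent.SWC

namespace YCaux

private theorem uniq {U C R : Finset ℕ} (hC : C ⊆ U) (hR : R ⊆ U) (hcard : C.card = R.card)
    (h1 : ∀ u ∈ U \ C, ∀ v ∈ C, v < u) (h2 : ∀ u ∈ U \ R, ∀ v ∈ R, v < u) : C = R := by
  by_contra hne
  have h3 : ¬ C ⊆ R := fun h => hne (Finset.eq_of_subset_of_card_le h hcard.ge)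
  have h4 : ¬ R ⊆ C := fun h => hne (Finset.eq_of_subset_of_card_le h hcard.le).symm
  obtain ⟨x, hx1, hx2⟩ := Finset.not_subset.mp h3
  obtain ⟨y, hy1, hy2⟩ := Finset.not_subset.mp h4
  have h5 := h1 y (Finset.mem_sdiff.mpr ⟨hR hy1, hy2⟩) x hx1
  have h6 := h2 x (Finset.mem_sdiff.mpr ⟨hC hx1, hx2⟩) y hy1
  omega

end YCaux

open YCaux in
theorem tYC : S_YC := by
  intro hYP hYZ hYN hYQ hYK hYO hYE hXLT hYL m hm N s U hs hN hcn hPM
  apply hYP hYZ m hm N U s hN (by omega)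
  intro hne f hf hf0 j hj
  rw [hcn] at hj
  obtain ⟨r, hr, hrle⟩ : ∃ r ∈ U, ∀ u ∈ U, r ≤ u :=
    ⟨U.min' hne, U.min'_mem hne, fun u hu => U.min'_le u hu⟩
  have hJ : (j + 1) + 2 = len f + s := by omega
  have hrec := All.rc m hm N U r hr hrle hN f
  have hc := congrArg (fun p => Polynomial.coeff p (j + 1)) hrec
  rw [sub_mul, one_mul, Polynomial.coeff_sub, Polynomial.coeff_X_mul,
    Polynomial.finset_sum_coeff] at hc
  have hsplit : ∀ C ∈ U.powerset.filter (fun C => r ∈ C),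
      (wC m U r C * cfd m N (U \ C) f C.card).coeff (j + 1) =
      (Pi m (Polynomial.X : Polynomial ℤ) r C * Polynomial.X ^ ea m U C *
        cfd m N (U \ C) f C.card).coeff (j + 1) -
      (if C.card = s ∧ C ≠ U ∧ ∀ u ∈ U \ C, ∀ v ∈ C, v < u then Lwd m N (U \ C) f s else 0) := by
    intro C hC
    obtain ⟨hC1, hC2⟩ := Finset.mem_filter.mp hC
    have hC3 : C ⊆ U := Finset.mem_powerset.mp hC1
    rw [← hYN m hm N U r s (j + 1) hr hrle hN hcn hs f hf hJ C hC3 hC2, ← Polynomial.coeff_sub]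
    congr 1
    unfold wC
    ring
  rw [Finset.sum_congr rfl hsplit, Finset.sum_sub_distrib] at hc
  have hpos : 0 ≤ ∑ C ∈ U.powerset.filter (fun C => r ∈ C),
      (Pi m (Polynomial.X : Polynomial ℤ) r C * Polynomial.X ^ ea m U C *
        cfd m N (U \ C) f C.card).coeff (j + 1) := by
    apply Finset.sum_nonneg
    intro C hC
    obtain ⟨hC1, hC2⟩ := Finset.mem_filter.mp hC
    exact hYQ m hm N U r s (j + 1) hr hrle hN hcn f hf hJ hPM C (Finset.mem_powerset.mp hC1) hC2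
  by_cases hex : ∃ R ∈ U.powerset.filter (fun C => r ∈ C),
      R.card = s ∧ R ≠ U ∧ ∀ u ∈ U \ R, ∀ v ∈ R, v < u
  · obtain ⟨R, hR, hR1, hR2, hR3⟩ := hex
    obtain ⟨hR4, hR5⟩ := Finset.mem_filter.mp hR
    have hR6 : R ⊆ U := Finset.mem_powerset.mp hR4
    have hK := hYK hYO hYE hXLT hYQ hYL m hm N U R r s (j + 1) hr hrle hN hcn hs f hf hJ hPM hR6
      hR1 hR2 hR3
    have hs1 : ∑ C ∈ U.powerset.filter (fun C => r ∈ C),
        (if C.card = s ∧ C ≠ U ∧ ∀ u ∈ U \ C, ∀ v ∈ C, v < u then Lwd m N (U \ C) f s else 0) =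
        Lwd m N (U \ R) f s := by
      rw [Finset.sum_eq_single R]
      · rw [if_pos ⟨hR1, hR2, hR3⟩]
      · intro C hC hCR
        rw [if_neg]
        rintro ⟨h1, -, h3⟩
        have hC3 : C ⊆ U := Finset.mem_powerset.mp (Finset.mem_filter.mp hC).1
        exact hCR (uniq hC3 hR6 (h1.trans hR1.symm) h3 hR3)
      · intro h
        exact absurd hR h
    rw [hs1] at hc
    linarith
  · have hs1 : ∑ C ∈ U.powerset.filter (fun C => r ∈ C),
        (if C.card = s ∧ C ≠ U ∧ ∀ u ∈ U \ C, ∀ v ∈ C, v < u then Lwd m N (U \ C) f s else 0) =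
        0 := by
      apply Finset.sum_eq_zero
      intro C hC
      rw [if_neg]
      intro h
      exact hex ⟨C, hC, h⟩
    rw [hs1] at hc
    linarith

end Pool.Agent.LOW
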