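import Pool.Agent.Lib.MP_263316_co.EX.Spec

/-!
MP_263316_co, project EX, task YE: one cluster, the main step.
-/

set_option autoImplicit false

namespace Pool.Agent.LOW

open Finset Pool.Agent.SWC

namespace YEaux

theorem conn {m : ℕ → ℕ} {U : Finset ℕ} {r : ℕ} (hr : r ∈ U) (hrm : ∀ u ∈ U, r ≤ u)
    (hc : cn m U = 1) {v : ℕ} (hv : v ∈ U) (hvr : v ≠ r) : 0 < aL m U v := by
  by_contra h
  have h0 : aL m U v = 0 := by omega
  unfold cn at hc
  obtain ⟨a, ha⟩ := card_eq_one.mp hc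
  have h1 : r ∈ U.filter (fun v => aL m U v = 0) :=
    mem_filter.mpr ⟨hr, LWRaux.aL_first m U r hrm⟩
  have h2 : v ∈ U.filter (fun v => aL m U v = 0) := mem_filter.mpr ⟨hv, h0⟩
  rw [ha, mem_singleton] at h1 h2
  exact hvr (h2.trans h1.symm)

theorem aL_pos {m : ℕ → ℕ} {U : Finset ℕ} {v : ℕ} :
    0 < aL m U v ↔ ∃ u ∈ U, u < v ∧ v ≤ m u := by
  unfold aL
  rw [card_pos, filter_nonempty_iff]

theorem co_ge {P A : Polynomial ℤ} {e J : ℕ} (hP : ∀ j, 0 ≤ P.coeff j) (hP0 : P.coeff 0 = 1)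
    (he : e ≤ J) (hA : ∀ j, j ≤ J - e → 0 ≤ A.coeff j) :
    A.coeff (J - e) ≤ (P * Polynomial.X ^ e * A).coeff J := by
  have h1 : P * Polynomial.X ^ e * A = (P * A) * Polynomial.X ^ e := by ring
  rw [h1, Polynomial.coeff_mul_X_pow', if_pos he, Polynomial.coeff_mul]
  have h2 : A.coeff (J - e) =
      (fun x : ℕ × ℕ => P.coeff x.1 * A.coeff x.2) (0, J - e) := by
    simp [hP0]
  rw [h2]
  refine Finset.single_le_sum (f := fun x : ℕ × ℕ => P.coeff x.1 * A.coeff x.2) ?_ ?_
  · intro x hx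
    have hx' := Finset.HasAntidiagonal.mem_antidiagonal.1 hx
    exact mul_nonneg (hP _) (hA _ (by omega))
  · exact Finset.HasAntidiagonal.mem_antidiagonal.2 (by simp)

theorem chain {a : ℕ → ℤ} {d : ℕ} : ∀ k : ℕ,
    (∀ j, d ≤ j → j < d + k → a j ≤ a (j + 1)) → a d ≤ a (d + k) := by
  intro k
  induction k with
  | zero => intro _; exact le_rfl
  | succ k ih =>
    intro h
    exact (ih (fun j h1 h2 => h j h1 (by omega))).trans (h (d + k) (by omega) (by omega))

theorem cfd_eq {m : ℕ → ℕ} {N : ℕ} {V : Finset ℕ} {f : Fin N →₀ ℕ} {i : Fin N} {k : ℕ}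
    (hi : (i : ℕ) + 1 = k) (hf : 0 < f i) :
    cfd m N V f k = cf m N V (f - Finsupp.single i 1) := by
  unfold cfd
  rw [Finset.sum_eq_single i]
  · rw [if_pos ⟨hi, hf⟩]
  · intro b _ hb
    rw [if_neg]
    rintro ⟨h1, _⟩
    exact hb (Fin.ext (by omega))
  · intro h
    exact absurd (Finset.mem_univ i) h

theorem Lwd_eq {m : ℕ → ℕ} {N : ℕ} {V : Finset ℕ} {f : Fin N →₀ ℕ} {i : Fin N} {k : ℕ}
    (hi : (i : ℕ) + 1 = k) (hf : 0 < f i) :
    Lwd m N V f k = Lw m N V (f - Finsupp.single i 1) := by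
  unfold Lwd
  rw [Finset.sum_eq_single i]
  · rw [if_pos ⟨hi, hf⟩]
  · intro b _ hb
    rw [if_neg]
    rintro ⟨h1, _⟩
    exact hb (Fin.ext (by omega))
  · intro h
    exact absurd (Finset.mem_univ i) h

theorem sub_le {N : ℕ} (f : Fin N →₀ ℕ) (i j : Fin N) : (f - Finsupp.single i 1 : Fin N →₀ ℕ) j ≤ f j := by
  rw [Finsupp.tsub_apply]
  exact Nat.sub_le _ _

theorem big_sub {N s : ℕ} {f : Fin N →₀ ℕ} (h : big s f) (i : Fin N) :
    big s (f - Finsupp.single i 1) :=
  fun j hj => h j (lt_of_lt_of_le hj (sub_le f i j))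

end YEaux

open YEaux in
theorem tYE : S_YE := by
  intro hXLT hYQ hYL m hm N U R D r s J hr hrm hN hc hs f hbig hJ hPM hRU hRs hRne hRi hDW hDn
    hDi hOk i hi hfi hne
  obtain ⟨i', hi', hfi'⟩ : ∃ i' : Fin N, (i' : ℕ) + 1 = D.card ∧
      0 < (f - Finsupp.single i 1 : Fin N →₀ ℕ) i' := by
    unfold Lwd at hne
    obtain ⟨i', _, h⟩ := Finset.exists_ne_zero_of_sum_ne_zero hne
    by_cases hcd : (i' : ℕ) + 1 = D.card ∧ 0 < (f - Finsupp.single i 1 : Fin N →₀ ℕ) i'
    · exact ⟨i', hcd⟩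
    · rw [if_neg hcd] at h
      exact absurd rfl h
  have hfi0 : 0 < f i' := lt_of_lt_of_le hfi' (sub_le f i i')
  have hDc : 2 ≤ D.card := by
    have := hbig i' hfi0
    omega
  clear hne
  obtain ⟨P, hP⟩ : ∃ P : Finset ℕ, P = (U \ R) \ D := ⟨_, rfl⟩
  obtain ⟨S, hS⟩ : ∃ S : Finset ℕ, S = R ∪ D := ⟨_, rfl⟩
  have hDU : D ⊆ U := hDW.trans sdiff_subset
  have hSU : S ⊆ U := by rw [hS]; exact union_subset hRU hDU
  have hPU : P ⊆ U := by rw [hP]; exact sdiff_subset.trans sdiff_subset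
  have hdisj : Disjoint R D := by
    rw [disjoint_left]
    intro x hx hx'
    exact (mem_sdiff.mp (hDW hx')).2 hx
  have hScard : S.card = s + D.card := by rw [hS, card_union_of_disjoint hdisj, hRs]
  have hDS : D ⊆ S := by rw [hS]; exact subset_union_right
  have hPS : ∀ u ∈ P, ∀ v ∈ S, v < u := by
    intro u hu v hv
    rw [hP] at hu
    rw [hS] at hv
    rcases mem_union.mp hv with h | h
    · exact hRi u (mem_sdiff.mp hu).1 v h
    · exact hDi u hu v h
  have hUcase : ∀ u ∈ U, u ∈ S ∨ u ∈ P := by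
    intro u hu
    rw [hS, hP]
    by_cases h1 : u ∈ R
    · exact Or.inl (mem_union_left _ h1)
    · by_cases h2 : u ∈ D
      · exact Or.inl (mem_union_right _ h2)
      · exact Or.inr (mem_sdiff.mpr ⟨mem_sdiff.mpr ⟨hu, h1⟩, h2⟩)
  have hrR : r ∈ R := by
    by_contra h
    obtain ⟨v, hv⟩ : R.Nonempty := card_pos.mp (by omega)
    have h1 := hRi r (mem_sdiff.mpr ⟨hr, h⟩) v hv
    have h2 := hrm v (hRU hv)
    omega
  have hrS : r ∈ S := by rw [hS]; exact mem_union_left _ hrR
  have hleft : ∀ v ∈ S, v ≠ r → ∃ u ∈ S, u < v ∧ v ≤ m u := by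
    intro v hv hvr
    obtain ⟨u, hu, h1, h2⟩ := aL_pos.mp (conn hr hrm hc (hSU hv) hvr)
    rcases hUcase u hu with h | h
    · exact ⟨u, h, h1, h2⟩
    · have := hPS u h v hv
      omega
  have hcS : cnc m S := by
    rintro v hv ⟨w, hw, hwv⟩
    have hvr : v ≠ r := by
      rintro rfl
      have := hrm w (hSU hw)
      omega
    exact aL_pos.mpr (hleft v hv hvr)
  obtain ⟨T, hTS, hrT, hTc, hcT, hcC, heT⟩ := hXLT m hm S r s hcS hrS
    (fun u hu => hrm u (hSU hu)) (by omega) (by omega)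
  obtain ⟨C, hC⟩ : ∃ C : Finset ℕ, C = S \ T := ⟨_, rfl⟩
  rw [← hC] at hcC heT
  have hCS : C ⊆ S := by rw [hC]; exact sdiff_subset
  have hCU : C ⊆ U := hCS.trans hSU
  have hrC : r ∈ C := by rw [hC]; exact mem_sdiff.mpr ⟨hrS, hrT⟩
  have hCc : C.card = D.card := by
    have := card_sdiff_add_card_eq_card hTS
    rw [← hC] at this
    omega
  -- the set P
  have hPpos : ∀ p ∈ P, ∀ v ∈ P, p < v → 0 < aL m P v := by
    intro p hp v hv hpv
    have hvr : v ≠ r := by
      have := hPS v hv r hrS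
      omega
    obtain ⟨u, hu, h1, h2⟩ := aL_pos.mp (conn hr hrm hc (hPU hv) hvr)
    rcases hUcase u hu with h | h
    · have h3 := hPS p hp u h
      exact aL_pos.mpr ⟨p, hp, hpv, h2.trans (hm h3.le)⟩
    · exact aL_pos.mpr ⟨u, h, h1, h2⟩
  have hcnP : cn m P ≤ 1 := by
    unfold cn
    rw [card_le_one]
    intro a ha b hb
    rw [mem_filter] at ha hb
    by_contra hab
    rcases lt_or_gt_of_ne hab with h | h
    · have := hPpos a ha.1 b hb.1 h
      omega
    · have := hPpos b hb.1 a ha.1 h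
      omega
  have hsumD : ∑ v ∈ P, aL m D v = cn m P := by
    have := hOk.2
    unfold ea at this
    rw [← hP] at this
    exact this
  have hN1 : ∀ ρ ∈ R, ∀ v ∈ P, m ρ < v := by
    intro ρ hρ v hv
    by_contra hcon
    have h1 : aL m D v = D.card := by
      unfold aL
      rw [filter_true_of_mem]
      intro d hd
      have h2 := hPS v hv d (hDS hd)
      have h3 := hRi d (hDW hd) ρ hρ
      have h4 := hm h3.le
      exact ⟨h2, by omega⟩
    have h2 : aL m D v ≤ ∑ v ∈ P, aL m D v :=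
      single_le_sum (f := fun v => aL m D v) (fun _ _ => Nat.zero_le _) hv
    omega
  have hsumS : ∑ v ∈ P, aL m S v = cn m P := by
    rw [← hsumD]
    refine sum_congr rfl fun v hv => ?_
    rw [CNTaux.aL_split m hDS v]
    have : aL m (S \ D) v = 0 := by
      rw [CNTaux.aL_zero]
      intro u hu h
      rw [mem_sdiff, hS, mem_union] at hu
      rcases hu.1 with h1 | h1
      · have := hN1 u h1 v hv
        omega
      · exact hu.2 h1
    omega
  have hxy : ∑ v ∈ P, aL m C v + ∑ v ∈ P, aL m T v = cn m P := by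
    rw [← hsumS, ← sum_add_distrib]
    refine sum_congr rfl fun v _ => ?_
    rw [CNTaux.aL_split m hTS v, ← hC, add_comm]
  -- the set V
  have hUC : U \ C = T ∪ P := by
    ext u
    rw [mem_sdiff, mem_union, hC, mem_sdiff]
    constructor
    · rintro ⟨h1, h2⟩
      rcases hUcase u h1 with h | h
      · left
        by_contra h3
        exact h2 ⟨h, h3⟩
      · exact Or.inr h
    · rintro (h | h)
      · exact ⟨hSU (hTS h), fun h2 => h2.2 h⟩
      · exact ⟨hPU h, fun h2 => lt_irrefl _ (hPS u h u h2.1)⟩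
  have hTP : Disjoint T P := by
    rw [disjoint_left]
    intro x hx hx'
    exact lt_irrefl _ (hPS x hx' x (hTS hx))
  obtain ⟨V, hV⟩ : ∃ V : Finset ℕ, V = U \ C := ⟨_, rfl⟩
  have hVTP : V = T ∪ P := hV.trans hUC
  have hTV : T ⊆ V := by rw [hVTP]; exact subset_union_left
  have hVU : V ⊆ U := by rw [hV]; exact sdiff_subset
  have hVT : V \ T = P := by
    rw [hVTP, union_sdiff_left, sdiff_eq_self_of_disjoint hTP.symm]
  have hea : ea m U C = eCT m C T + ∑ v ∈ P, aL m C v := by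
    unfold ea eCT
    rw [hUC, sum_union hTP]
  have heV : ea m V T = ∑ v ∈ P, aL m T v := by
    unfold ea
    rw [hVT]
  have hVne : V ≠ U := by
    intro h
    have h1 : r ∈ V := by rw [h]; exact hr
    rw [hV, mem_sdiff] at h1
    exact h1.2 hrC
  have hTn : T.Nonempty := card_pos.mp (by omega)
  obtain ⟨t0, ht0, ht0m⟩ : ∃ t0 ∈ T, ∀ t ∈ T, t0 ≤ t :=
    ⟨T.min' hTn, T.min'_mem hTn, fun t ht => T.min'_le t ht⟩
  have hVmin : ∀ u ∈ V, t0 ≤ u := by
    intro u hu
    rw [hVTP, mem_union] at hu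
    rcases hu with h | h
    · exact ht0m u h
    · exact (hPS u h t0 (hTS ht0)).le
  have hVN : V.card ≤ N := (card_le_card hVU).trans hN
  have hcnt := (tCNT m hm V T t0 (hTV ht0) hVmin hTV ht0).1
  rw [hVT, heV] at hcnt
  have hcnV : cn m V ≤ 1 + ∑ v ∈ P, aL m C v := by
    have h1 : V.filter (fun v => aL m V v = 0) ⊆
        insert t0 (P.filter (fun v => aL m V v = 0)) := by
      intro v hv
      rw [mem_filter] at hv
      rw [mem_insert, mem_filter]
      have hv1 := hv.1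
      rw [hVTP, mem_union] at hv1
      rcases hv1 with h | h
      · left
        by_contra hvt
        have h2 : 0 < aL m T v :=
          hcT v h ⟨t0, ht0, lt_of_le_of_ne (ht0m v h) (Ne.symm hvt)⟩
        obtain ⟨u, hu, h3⟩ := aL_pos.mp h2
        have h4 : 0 < aL m V v := aL_pos.mpr ⟨u, hTV hu, h3⟩
        omega
      · exact Or.inr ⟨h, hv.2⟩
    have h2 : (P.filter (fun v => aL m V v = 0)).card ≤ ∑ v ∈ P, aL m C v := by
      rw [card_filter]
      refine sum_le_sum fun v hv => ?_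
      split_ifs with h
      · have hvr : v ≠ r := by
          have := hPS v hv r hrS
          omega
        have h3 := conn hr hrm hc (hPU hv) hvr
        rw [CNTaux.aL_split m hCU v, ← hV] at h3
        omega
      · exact Nat.zero_le _
    have h3 := card_le_card h1
    have h4 := card_insert_le t0 (P.filter (fun v => aL m V v = 0))
    unfold cn
    omega
  have heC1 : 1 ≤ eCT m C T := by
    have ht0r : t0 ≠ r := by
      rintro rfl
      exact hrT ht0
    obtain ⟨u, hu, h1, h2⟩ := hleft t0 (hTS ht0) ht0r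
    have huC : u ∈ C := by
      rw [hC, mem_sdiff]
      refine ⟨hu, fun h => ?_⟩
      have := ht0m u h
      omega
    have h3 : 0 < aL m C t0 := aL_pos.mpr ⟨u, huC, h1, h2⟩
    have h4 : aL m C t0 ≤ eCT m C T :=
      single_le_sum (f := fun v => aL m C v) (fun _ _ => Nat.zero_le _) ht0
    omega
  -- the coefficients
  have hlen : len f = len (f - Finsupp.single i' 1) + 1 := LWRaux.len_sub f i' hfi0
  have hbig' : big s (f - Finsupp.single i' 1) := big_sub hbig i'
  obtain ⟨hnn, hch⟩ := hPM V hVU hVne (f - Finsupp.single i' 1) hbig'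
  have hVn : V.Nonempty := ⟨t0, hTV ht0⟩
  have hcfd : cfd m N (U \ C) f C.card = cf m N V (f - Finsupp.single i' 1) := by
    rw [← hV, hCc]
    exact cfd_eq hi' hfi0
  have hPi0 : (Pi m (Polynomial.X : Polynomial ℤ) r C).coeff 0 = 1 := by
    rw [LWRaux.Pi_coeff, if_pos]
    intro v hv
    rw [mem_erase] at hv
    refine hcC v hv.2 ⟨r, hrC, ?_⟩
    have := hrm v (hCU hv.2)
    omega
  have hLw : Lw m N V (f - Finsupp.single i' 1) ≤
      (Pi m (Polynomial.X : Polynomial ℤ) r C * Polynomial.X ^ ea m U C *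
        cfd m N (U \ C) f C.card).coeff J := by
    unfold Lw
    split_ifs with h
    · have e1 : J - ea m U C = (len (f - Finsupp.single i' 1) - cn m V) + (s - eCT m C T) := by
        omega
      have e2 : ea m U C ≤ J := by omega
      have h1 : (cf m N V (f - Finsupp.single i' 1)).coeff
          (len (f - Finsupp.single i' 1) - cn m V) ≤
          (cf m N V (f - Finsupp.single i' 1)).coeff (J - ea m U C) := by
        rw [e1]
        refine chain (a := fun j => (cf m N V (f - Finsupp.single i' 1)).coeff j) _ ?_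
        intro j hj1 hj2
        exact hch hVn j (by omega)
      refine h1.trans ?_
      rw [hcfd]
      refine co_ge (INCaux.inc_nn_Pi m r C) hPi0 e2 ?_
      intro j hj
      exact hnn j (by omega)
    · exact hYQ m hm N U r s J hr hrm hN hc f hbig hJ hPM C hCU hrC
  refine ⟨C, hCU, hrC, hCc, ?_⟩
  have hfi2 : 0 < (f - Finsupp.single i' 1 : Fin N →₀ ℕ) i := by
    rw [Finsupp.tsub_apply] at hfi' ⊢
    by_cases hii : i = i'
    · subst hii
      exact hfi'
    · rw [Finsupp.single_eq_of_ne hii]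
      simpa using hfi
  have hYL' := hYL m hm N V T t0 ht0 hTV hVmin hVN hcT (by rw [heV, hVT]; omega)
    (f - Finsupp.single i' 1) (fun j hj => hs.trans (hbig' j hj))
  rw [hVT, hTc, Lwd_eq hi hfi2] at hYL'
  rw [← hP, Lwd_eq hi' hfi', tsub_right_comm]
  exact hYL'.trans hLw

end Pool.Agent.LOW
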