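import Pool.Agent.Lib.MP_263316_co.EX.Spec

/-!
MP_263316_co, project EX (helper30).
-/

set_option autoImplicit false

namespace Pool.Agent.LOW

open Finset Pool.Agent.SWC

theorem tYI : S_YI := by
  intro hYP hYZ hC hU m hm N s U hs hN
  induction hk : U.card using Nat.strong_induction_on generalizing U with
  | _ k ih =>
  rcases Finset.eq_empty_or_nonempty U with rfl | hne
  · exact hYP hYZ m hm N ∅ s hN (by omega) (fun h => absurd h Finset.not_nonempty_empty)
  · rcases tSPLT m hm U hne with h | ⟨A, B, hA, hB, hAB, hAc, hBc, hno⟩
    · refine hC m hm N s U hs hN h fun V hV hVU => ?_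
      have hlt : V.card < U.card := Finset.card_lt_card (Finset.ssubset_iff_subset_ne.mpr ⟨hV, hVU⟩)
      exact ih V.card (by omega) V (by omega) rfl
    · rw [← hAB]
      refine hU m hm N s A B hA hB hno (by rw [hAB]; exact hN) (by omega) ?_ ?_
      · exact ih A.card (by omega) A (by omega) rfl
      · exact ih B.card (by omega) B (by omega) rfl

end Pool.Agent.LOW
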