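import Pool.Agent.Lib.MP_263316_co.EX.Spec

/-!
MP_263316_co, project EX, task YK: sum over the clusters (helper7).
-/

set_option autoImplicit false

namespace Pool.Agent.LOW

open Finset Pool.Agent.SWC

namespace YKaux

theorem eb_init (m : ℕ → ℕ) (U R : Finset ℕ) (hR : ∀ u ∈ U \ R, ∀ v ∈ R, v < u) :
    eb m U R = 0 := by
  unfold eb
  apply Finset.sum_eq_zero
  intro v hv
  unfold aR
  rw [Finset.card_eq_zero, Finset.filter_eq_empty_iff]
  intro u hu h2
  have h3 := hR v hv u hu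
  omega

theorem init_eq (W D1 D2 : Finset ℕ) (h1 : D1 ⊆ W) (h2 : D2 ⊆ W)
    (i1 : ∀ u ∈ W \ D1, ∀ v ∈ D1, v < u) (i2 : ∀ u ∈ W \ D2, ∀ v ∈ D2, v < u)
    (hc : D1.card = D2.card) : D1 = D2 := by
  by_contra hne
  have a1 : ¬ D1 ⊆ D2 := fun h => hne (Finset.eq_of_subset_of_card_le h (le_of_eq hc.symm))
  have a2 : ¬ D2 ⊆ D1 := fun h => hne (Finset.eq_of_subset_of_card_le h (le_of_eq hc)).symm
  rw [Finset.not_subset] at a1 a2
  obtain ⟨x, hx1, hx2⟩ := a1
  obtain ⟨y, hy1, hy2⟩ := a2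
  have b1 := i2 x (Finset.mem_sdiff.mpr ⟨h1 hx1, hx2⟩) y hy1
  have b2 := i1 y (Finset.mem_sdiff.mpr ⟨h2 hy1, hy2⟩) x hx1
  omega

theorem Lwd_one (m : ℕ → ℕ) (N : ℕ) (V : Finset ℕ) (g : Fin N →₀ ℕ) (hg : big 2 g) :
    Lwd m N V g 1 = 0 := by
  unfold Lwd
  apply Finset.sum_eq_zero
  intro i _
  rw [if_neg]
  rintro ⟨h1, h2⟩
  have h3 := hg i h2
  omega

theorem Lw_single (m : ℕ → ℕ) (hm : Monotone m) (N : ℕ) (hN : 0 < N) (w : ℕ) (g : Fin N →₀ ℕ)
    (hg : big 2 g) : Lw m N {w} g = 0 := by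
  have h1 : cf m N {w} g = 0 := by
    unfold cf
    rw [All.phi.2.2.2.2 m hm N hN w, MvPolynomial.coeff_X', if_neg]
    intro h
    have h2 : g ⟨0, hN⟩ = 1 := by
      rw [← h, Finsupp.single_eq_same]
    have h3 := hg ⟨0, hN⟩ (by omega)
    have h4 : ((⟨0, hN⟩ : Fin N) : ℕ) = 0 := rfl
    omega
  unfold Lw
  rw [h1]
  simp

theorem Lwd_part (m : ℕ → ℕ) (N : ℕ) (V : Finset ℕ) (f : Fin N →₀ ℕ) (s : ℕ) (i : Fin N)
    (hi : (i : ℕ) + 1 = s) (hf : 0 < f i) :
    Lwd m N V f s = Lw m N V (f - Finsupp.single i 1) := by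
  unfold Lwd
  rw [Finset.sum_eq_single i]
  · rw [if_pos ⟨hi, hf⟩]
  · intro b _ hb
    rw [if_neg]
    rintro ⟨h1, _⟩
    apply hb
    ext
    omega
  · intro h
    exact absurd (Finset.mem_univ i) h

end YKaux

open YKaux in
theorem tYK : S_YK := by
  intro hYO hYE hXLT hYQ hYL m hm N U R r s J hrU hr hUN hcn hs f hf hJ hPM hRU hRs hRne hRi
  have hpos : ∀ C ∈ U.powerset.filter (fun C => r ∈ C),
      0 ≤ (Pi m (Polynomial.X : Polynomial ℤ) r C * Polynomial.X ^ ea m U C *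
        cfd m N (U \ C) f C.card).coeff J := by
    intro C hC
    rw [Finset.mem_filter, Finset.mem_powerset] at hC
    exact hYQ m hm N U r s J hrU hr hUN hcn f hf hJ hPM C hC.1 hC.2
  by_cases hpart : ∃ i : Fin N, (i : ℕ) + 1 = s ∧ 0 < f i
  swap
  · have h0 : Lwd m N (U \ R) f s = 0 := by
      unfold Lwd
      apply Finset.sum_eq_zero
      intro i _
      rw [if_neg]
      intro h
      exact hpart ⟨i, h⟩
    rw [h0]
    exact Finset.sum_nonneg hpos
  obtain ⟨i, hi, hfi⟩ := hpart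
  rw [Lwd_part m N (U \ R) f s i hi hfi]
  obtain ⟨g, hg⟩ : ∃ g, g = f - Finsupp.single i 1 := ⟨_, rfl⟩
  rw [← hg]
  have hg2 : big 2 g := by
    intro j hj
    have h1 : g j ≤ f j := by
      rw [hg, Finsupp.tsub_apply]
      exact Nat.sub_le _ _
    have h2 := hf j (lt_of_lt_of_le hj h1)
    omega
  obtain ⟨W, hW⟩ : ∃ W, W = U \ R := ⟨_, rfl⟩
  have hWne : W.Nonempty := by
    rw [hW, Finset.nonempty_iff_ne_empty]
    intro h
    rw [Finset.sdiff_eq_empty_iff_subset] at h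
    exact hRne (Finset.Subset.antisymm hRU h)
  have hWU : W ⊆ U := by
    rw [hW]
    exact Finset.sdiff_subset
  have hWN : W.card ≤ N := (Finset.card_le_card hWU).trans hUN
  have hrR : r ∈ R := by
    by_contra h
    have h1 : R.Nonempty := by
      rw [← Finset.card_pos]
      omega
    obtain ⟨v, hv⟩ := h1
    have h2 := hRi r (Finset.mem_sdiff.mpr ⟨hrU, h⟩) v hv
    have h3 := hr v (hRU hv)
    omega
  have hcW : cn m W = 1 := by
    have h1 := (tCNT m hm U R r hrU hr hRU hrR).2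
    rw [eb_init m U R hRi, hcn, ← hW] at h1
    have h2 := LWRaux.cn_pos m W hWne
    omega
  rw [← hW]
  have hN0 : 0 < N := by
    have : 0 < U.card := Finset.card_pos.mpr ⟨r, hrU⟩
    omega
  rcases Nat.lt_or_ge W.card 2 with hW2 | hW2
  · have h1 : W.card = 1 := by
      have := Finset.card_pos.mpr hWne
      omega
    obtain ⟨w, hw⟩ := Finset.card_eq_one.mp h1
    rw [hw, Lw_single m hm N hN0 w g hg2]
    exact Finset.sum_nonneg hpos
  · obtain ⟨w1, hw1⟩ : ∃ w1, w1 = W.min' hWne := ⟨_, rfl⟩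
    have hw1W : w1 ∈ W := by
      rw [hw1]
      exact W.min'_mem hWne
    have hw1m : ∀ u ∈ W, w1 ≤ u := by
      intro u hu
      rw [hw1]
      exact W.min'_le u hu
    rw [tLWR All.rc tCNT All.ord m hm N W w1 hw1W hw1m hWN hW2 hcW g, Lwd_one m N _ g hg2,
      sub_zero, ← Finset.sum_filter_ne_zero]
    have hD : ∀ D ∈ (W.powerset.filter (fun C => w1 ∈ C ∧ Ok m W C)).filter
        (fun D => Lwd m N (W \ D) g D.card ≠ 0), D ⊆ W ∧ (∀ u ∈ W \ D, ∀ v ∈ D, v < u) ∧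
        ∃ C ⊆ U, r ∈ C ∧ C.card = D.card ∧ Lwd m N (W \ D) g D.card ≤
          (Pi m (Polynomial.X : Polynomial ℤ) r C * Polynomial.X ^ ea m U C *
            cfd m N (U \ C) f C.card).coeff J := by
      intro D hD
      rw [Finset.mem_filter, Finset.mem_filter, Finset.mem_powerset] at hD
      obtain ⟨⟨hDW, hwD, hOk⟩, hne⟩ := hD
      have hin := hYO m hm N W D w1 hwD hDW hw1m hWN hcW hOk g hg2 hne
      refine ⟨hDW, hin, ?_⟩
      rw [hW] at hDW hin hOk
      rw [hg, hW] at hne ⊢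
      exact hYE hXLT hYQ hYL m hm N U R D r s J hrU hr hUN hcn hs f hf hJ hPM hRU hRs hRne hRi
        hDW ⟨w1, hwD⟩ hin hOk i hi hfi hne
    choose! F hF using fun D hD' => (hD D hD').2.2
    have hinj : Set.InjOn F ((W.powerset.filter (fun C => w1 ∈ C ∧ Ok m W C)).filter
        (fun D => Lwd m N (W \ D) g D.card ≠ 0) : Finset (Finset ℕ)) := by
      intro D1 h1 D2 h2 h12
      rw [Finset.mem_coe] at h1 h2
      have c1 := (hF D1 h1).2.2.1
      have c2 := (hF D2 h2).2.2.1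
      refine init_eq W D1 D2 (hD D1 h1).1 (hD D2 h2).1 (hD D1 h1).2.1 (hD D2 h2).2.1 ?_
      rw [← c1, ← c2, h12]
    have e := Finset.sum_image (f := fun C => (Pi m (Polynomial.X : Polynomial ℤ) r C *
      Polynomial.X ^ ea m U C * cfd m N (U \ C) f C.card).coeff J) hinj
    refine (Finset.sum_le_sum (fun D hD' => (hF D hD').2.2.2)).trans ?_
    refine (le_of_eq e.symm).trans ?_
    apply Finset.sum_le_sum_of_subset_of_nonneg
    · intro C hC
      rw [Finset.mem_image] at hC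
      obtain ⟨D, hD', rfl⟩ := hC
      rw [Finset.mem_filter, Finset.mem_powerset]
      exact ⟨(hF D hD').1, (hF D hD').2.1⟩
    · intro C hC _
      exact hpos C hC

end Pool.Agent.LOW
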