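import Pool.Agent.Lib.MP_263316_co.EX.Spec

/-!
MP_263316_co, project EX, task YL: lower bound by one cluster.
-/

set_option autoImplicit false

namespace Pool.Agent.LOW

open Finset Pool.Agent.SWC

namespace YLaux

theorem coeff_nonneg {P A : Polynomial ℤ} {e c j L : ℕ} (hP : ∀ j, 0 ≤ P.coeff j)
    (hA0 : ∀ i, i + c < L → A.coeff i = 0) (hA1 : c ≤ L → 0 ≤ A.coeff (L - c))
    (hj : j + c ≤ L + e) : 0 ≤ (P * Polynomial.X ^ e * A).coeff j := by
  rw [mul_assoc]
  refine INCaux.inc_pos hP ?_
  intro i hi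
  by_cases h : i + c < L
  · rw [hA0 i h]
  · have h1 : c ≤ L ∨ L < c := le_or_gt c L
    rcases h1 with h1 | h1
    · have h2 : i = L - c := by omega
      rw [h2]
      exact hA1 h1
    · omega

theorem co_ge {P A : Polynomial ℤ} {e J : ℕ} (hP : ∀ j, 0 ≤ P.coeff j) (hP0 : P.coeff 0 = 1)
    (he : e ≤ J) (hA : ∀ j, j ≤ J - e → 0 ≤ A.coeff j) :
    A.coeff (J - e) ≤ (P * Polynomial.X ^ e * A).coeff J := by
  have h1 : P * Polynomial.X ^ e * A = (P * A) * Polynomial.X ^ e := by ring
  rw [h1, Polynomial.coeff_mul_X_pow', if_pos he, Polynomial.coeff_mul]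
  have h2 : A.coeff (J - e) =
      (fun x : ℕ × ℕ => P.coeff x.1 * A.coeff x.2) (0, J - e) := by
    simp [hP0]
  rw [h2]
  refine Finset.single_le_sum (f := fun x : ℕ × ℕ => P.coeff x.1 * A.coeff x.2) ?_ ?_
  · intro x hx
    have hx' := Finset.HasAntidiagonal.mem_antidiagonal.1 hx
    exact mul_nonneg (hP _) (hA _ (by omega))
  · exact Finset.HasAntidiagonal.mem_antidiagonal.2 (by simp)

theorem cfd_cases (m : ℕ → ℕ) (N : ℕ) (V : Finset ℕ) (g : Fin N →₀ ℕ) (k : ℕ) :
    (cfd m N V g k = 0 ∧ Lwd m N V g k = 0) ∨ ∃ i : Fin N, (i : ℕ) + 1 = k ∧ 0 < g i ∧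
      cfd m N V g k = cf m N V (g - Finsupp.single i 1) ∧
      Lwd m N V g k = Lw m N V (g - Finsupp.single i 1) := by
  by_cases h : ∃ i : Fin N, (i : ℕ) + 1 = k ∧ 0 < g i
  · obtain ⟨i, hi, hg⟩ := h
    right
    refine ⟨i, hi, hg, ?_, ?_⟩
    · unfold cfd
      rw [Finset.sum_eq_single i]
      · rw [if_pos ⟨hi, hg⟩]
      · intro b _ hb
        rw [if_neg]
        rintro ⟨h1, _⟩
        exact hb (Fin.ext (by omega))
      · intro h
        exact absurd (Finset.mem_univ i) h
    · unfold Lwd
      rw [Finset.sum_eq_single i]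
      · rw [if_pos ⟨hi, hg⟩]
      · intro b _ hb
        rw [if_neg]
        rintro ⟨h1, _⟩
        exact hb (Fin.ext (by omega))
      · intro h
        exact absurd (Finset.mem_univ i) h
  · left
    constructor
    · unfold cfd
      refine Finset.sum_eq_zero fun i _ => if_neg fun hc => h ⟨i, hc⟩
    · unfold Lwd
      refine Finset.sum_eq_zero fun i _ => if_neg fun hc => h ⟨i, hc⟩

end YLaux

open YLaux in
theorem tYL : S_YL := by
  intro m hm N V T r hrT hTV hrm hN hcT he g hg
  have hrV : r ∈ V := hTV hrT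
  rcases cfd_cases m N (V \ T) g T.card with ⟨_, hz⟩ | ⟨i, hi, hgi, hci, hLi⟩
  · rw [hz]
    unfold Lw
    split_ifs with h
    · have := All.nng m hm N V hN g
      unfold Lw at this
      rw [if_pos h] at this
      exact this
    · exact le_rfl
  have hlen := LWRaux.len_sub g i hgi
  by_cases hd : cn m V ≤ len g
  swap
  · have h1 : Lw m N V g = 0 := by unfold Lw; rw [if_neg hd]
    have h2 : Lw m N (V \ T) (g - Finsupp.single i 1) = 0 := by
      unfold Lw
      rw [if_neg (by omega)]
    rw [h1, hLi, h2]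
  obtain ⟨d, hdd⟩ : ∃ d, d + cn m V = len g := ⟨len g - cn m V, by omega⟩
  have hrec := congrArg (fun p => Polynomial.coeff p d) (All.rc m hm N V r hrV hrm hN g)
  have hl : ((1 - Polynomial.X) * cf m N V g).coeff d = Lw m N V g := by
    unfold Lw
    rw [if_pos hd, show len g - cn m V = d by omega]
    rcases d with _ | d
    · rw [INCaux.inc_co0]
    · rw [INCaux.inc_co1, All.ord m hm N V hN g d (by omega), sub_zero]
  have hrec : ((1 - Polynomial.X) * cf m N V g).coeff d = (∑ C ∈ V.powerset.filter (fun C => r ∈ C),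
      wC m V r C * cfd m N (V \ C) g C.card).coeff d := hrec
  rw [hl, Polynomial.finsetSum_coeff] at hrec
  -- every term is the positive one
  have hterm : ∀ C ∈ V.powerset.filter (fun C => r ∈ C),
      (wC m V r C * cfd m N (V \ C) g C.card).coeff d =
      (Pi m (Polynomial.X : Polynomial ℤ) r C * Polynomial.X ^ ea m V C *
        cfd m N (V \ C) g C.card).coeff d ∧
      0 ≤ (Pi m (Polynomial.X : Polynomial ℤ) r C * Polynomial.X ^ ea m V C *
        cfd m N (V \ C) g C.card).coeff d := by
    intro C hC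
    rw [Finset.mem_filter, Finset.mem_powerset] at hC
    have hcnt := tCNT m hm V C r hrV hrm hC.1 hC.2
    have hVC : (V \ C).card ≤ N := le_trans (Finset.card_le_card Finset.sdiff_subset) hN
    rcases cfd_cases m N (V \ C) g C.card with ⟨hz, _⟩ | ⟨k, hk, hgk, hck, _⟩
    · rw [hz]
      simp
    · rw [hck]
      have hlk := LWRaux.len_sub g k hgk
      have hk2 := hg k hgk
      have hA0 : ∀ j, j + cn m (V \ C) < len (g - Finsupp.single k 1) →
          (cf m N (V \ C) (g - Finsupp.single k 1)).coeff j = 0 :=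
        fun j hj => All.ord m hm N (V \ C) hVC _ j hj
      constructor
      · have e1 : wC m V r C * cf m N (V \ C) (g - Finsupp.single k 1) =
            Pi m (Polynomial.X : Polynomial ℤ) r C * Polynomial.X ^ ea m V C *
              cf m N (V \ C) (g - Finsupp.single k 1) -
            Pi m (Polynomial.X : Polynomial ℤ) r C * (Polynomial.X ^ (C.card + eb m V C) *
              cf m N (V \ C) (g - Finsupp.single k 1)) := by
          unfold wC
          ring
        rw [e1, Polynomial.coeff_sub, INCaux.inc_low hA0 (by omega), sub_zero]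
      · refine coeff_nonneg (INCaux.inc_nn_Pi m r C) hA0 ?_ (by omega)
        intro hcl
        have := All.nng m hm N (V \ C) hVC (g - Finsupp.single k 1)
        unfold Lw at this
        rw [if_pos hcl] at this
        exact this
  rw [hrec, Finset.sum_congr rfl (fun C hC => (hterm C hC).1)]
  have hTm : T ∈ V.powerset.filter (fun C => r ∈ C) :=
    Finset.mem_filter.mpr ⟨Finset.mem_powerset.mpr hTV, hrT⟩
  refine le_trans ?_ (Finset.single_le_sum
    (f := fun C => (Pi m (Polynomial.X : Polynomial ℤ) r C * Polynomial.X ^ ea m V C *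
        cfd m N (V \ C) g C.card).coeff d) (fun C hC => (hterm C hC).2) hTm)
  have hnn := (hterm T hTm).2
  by_cases hcl : cn m (V \ T) ≤ len (g - Finsupp.single i 1)
  · have hPi0 : (Pi m (Polynomial.X : Polynomial ℤ) r T).coeff 0 = 1 := by
      rw [LWRaux.Pi_coeff, if_pos]
      intro v hv
      rw [mem_erase] at hv
      refine hcT v hv.2 ⟨r, hrT, ?_⟩
      have := hrm v (hTV hv.2)
      omega
    have hVT : (V \ T).card ≤ N := le_trans (Finset.card_le_card Finset.sdiff_subset) hN
    have hLw : Lw m N (V \ T) (g - Finsupp.single i 1) =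
        (cf m N (V \ T) (g - Finsupp.single i 1)).coeff (d - ea m V T) := by
      unfold Lw
      rw [if_pos hcl]
      congr 1
      omega
    rw [hLi, hLw, hci]
    refine co_ge (INCaux.inc_nn_Pi m r T) hPi0 (by omega) ?_
    intro j hj
    by_cases h1 : j + cn m (V \ T) < len (g - Finsupp.single i 1)
    · rw [All.ord m hm N (V \ T) hVT _ j h1]
    · have h2 := All.nng m hm N (V \ T) hVT (g - Finsupp.single i 1)
      rw [hLw] at h2
      have h3 : j = d - ea m V T := by omega
      rw [h3]
      exact h2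
  · have h2 : Lw m N (V \ T) (g - Finsupp.single i 1) = 0 := by
      unfold Lw
      rw [if_neg hcl]
    rw [hLi, h2]
    exact hnn

end Pool.Agent.LOW
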