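import Pool.Agent.Lib.MP_263316_co.EX.Spec

/-!
MP_263316_co, project EX, task YN: the negative terms.
-/

set_option autoImplicit false

namespace Pool.Agent.LOW

open Finset Pool.Agent.SWC

namespace YNaux

theorem conn_pos {m : ℕ → ℕ} {U : Finset ℕ} {r : ℕ} (hrU : r ∈ U) (hr : ∀ u ∈ U, r ≤ u)
    (hc : cn m U = 1) : ∀ v ∈ U, v ≠ r → 0 < aL m U v := by
  intro v hv hne
  by_contra h
  have h0 : aL m U v = 0 := by omega
  have h1 : r ∈ U.filter (fun v => aL m U v = 0) :=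
    mem_filter.mpr ⟨hrU, LWRaux.aL_first m U r hr⟩
  have h2 : v ∈ U.filter (fun v => aL m U v = 0) := mem_filter.mpr ⟨hv, h0⟩
  unfold cn at hc
  obtain ⟨a, ha⟩ := card_eq_one.mp hc
  rw [ha, mem_singleton] at h1 h2
  exact hne (h2.trans h1.symm)

theorem ex_left {m : ℕ → ℕ} {V : Finset ℕ} {v : ℕ} (h : 0 < aL m V v) :
    ∃ w ∈ V, w < v ∧ v ≤ m w := by
  unfold aL at h
  obtain ⟨w, hw⟩ := card_pos.mp h
  rw [mem_filter] at hw
  exact ⟨w, hw.1, hw.2⟩

theorem pos_right {m : ℕ → ℕ} {V : Finset ℕ} {u w : ℕ} (hw : w ∈ V) (h1 : u < w)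
    (h2 : w ≤ m u) : 0 < aR m V u := by
  unfold aR
  exact card_pos.mpr ⟨w, mem_filter.mpr ⟨hw, h1, h2⟩⟩

/-- the next element of a connected set is adjacent -/
theorem next {m : ℕ → ℕ} (hm : Monotone m) {V : Finset ℕ} {r u : ℕ}
    (hV : ∀ v ∈ V, v ≠ r → 0 < aL m V v) (hru : r ≤ u) (hx : ∃ w ∈ V, u < w) :
    ∃ w ∈ V, u < w ∧ w ≤ m u := by
  obtain ⟨w0, hw0, hw1⟩ := hx
  have hne : (V.filter (fun w => u < w)).Nonempty := ⟨w0, mem_filter.mpr ⟨hw0, hw1⟩⟩
  obtain ⟨c, hcd⟩ : ∃ c, c = (V.filter (fun w => u < w)).min' hne := ⟨_, rfl⟩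
  have hc1 : c ∈ V.filter (fun w => u < w) := by
    rw [hcd]
    exact min'_mem _ hne
  rw [mem_filter] at hc1
  have hcr : c ≠ r := by omega
  obtain ⟨w, hw, hwc, hcm⟩ := ex_left (hV c hc1.1 hcr)
  refine ⟨c, hc1.1, hc1.2, ?_⟩
  have hwu : w ≤ u := by
    by_contra h
    have h3 : c ≤ w := by
      rw [hcd]
      exact min'_le _ w (mem_filter.mpr ⟨hw, by omega⟩)
    omega
  exact hcm.trans (hm hwu)

theorem iso {m : ℕ → ℕ} (hm : Monotone m) {U C : Finset ℕ} {r : ℕ} (hrU : r ∈ U)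
    (hr : ∀ u ∈ U, r ≤ u) (hc : cn m U = 1) (hC : C ⊆ U) (hrC : r ∈ C)
    (hconn : ∀ v ∈ C.erase r, 0 < aL m C v) (hcb : cn m (U \ C) = eb m U C + 1)
    (hK : ∃ u ∈ U \ C, ∃ v ∈ C, u ≤ v) :
    ∃ (v : ℕ) (V : Finset ℕ), U \ C = insert v V ∧ ∀ u ∈ V, v < u ∧ m v < u := by
  obtain ⟨W, hW⟩ : ∃ W, W = U \ C := ⟨_, rfl⟩
  obtain ⟨u0, hu0, v0, hv0, huv⟩ := hK
  rw [← hW] at hu0 hcb ⊢
  have hWU : ∀ w ∈ W, w ∈ U ∧ w ∉ C := fun w hw => by
    rw [hW, mem_sdiff] at hw
    exact hw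
  have hWn : W.Nonempty := ⟨u0, hu0⟩
  obtain ⟨v, hvd⟩ : ∃ v, v = W.min' hWn := ⟨_, rfl⟩
  have hvW : v ∈ W := by
    rw [hvd]
    exact min'_mem _ _
  have hvmin : ∀ u ∈ W, v ≤ u := fun u hu => by
    rw [hvd]
    exact min'_le _ _ hu
  have hCn : C.Nonempty := ⟨r, hrC⟩
  obtain ⟨x, hxd⟩ : ∃ x, x = C.max' hCn := ⟨_, rfl⟩
  have hxC : x ∈ C := by
    rw [hxd]
    exact max'_mem _ _
  have hxmax : ∀ c ∈ C, c ≤ x := fun c hc => by
    rw [hxd]
    exact le_max' _ _ hc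
  have hUn : U.Nonempty := ⟨r, hrU⟩
  obtain ⟨y, hyd⟩ : ∃ y, y = U.max' hUn := ⟨_, rfl⟩
  have hyU : y ∈ U := by
    rw [hyd]
    exact max'_mem _ _
  have hymax : ∀ c ∈ U, c ≤ y := fun c hc => by
    rw [hyd]
    exact le_max' _ _ hc
  have hu0x : u0 < x := by
    have h1 := hxmax v0 hv0
    have h2 : u0 ≠ v0 := fun h => (hWU u0 hu0).2 (h ▸ hv0)
    omega
  have hCc : ∀ w ∈ C, w ≠ r → 0 < aL m C w := fun w hw hne =>
    hconn w (mem_erase.mpr ⟨hne, hw⟩)
  have hvx : v < x := lt_of_le_of_lt (hvmin u0 hu0) hu0x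
  have haR : aR m W v = 0 := by
    by_contra hne0
    have hK1 : (W.filter (fun w => w < x)).card ≤ eb m U C := by
      have e1 : eb m U C = ∑ w ∈ W, aR m C w := by
        unfold eb
        rw [hW]
      rw [e1]
      calc (W.filter (fun w => w < x)).card = ∑ _w ∈ W.filter (fun w => w < x), 1 := by simp
        _ ≤ ∑ w ∈ W.filter (fun w => w < x), aR m C w := by
            refine sum_le_sum fun w hw => ?_
            rw [mem_filter] at hw
            obtain ⟨w', hw', h1, h2⟩ := next hm hCc (hr w (hWU w hw.1).1) ⟨x, hxC, hw.2⟩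
            exact pos_right hw' h1 h2
        _ ≤ ∑ w ∈ W, aR m C w := sum_le_sum_of_subset (filter_subset _ _)
    have hF : W.filter (fun w => aR m W w = 0) ⊆
        insert y ((W.filter (fun w => w < x)).erase v) := by
      intro u hu
      rw [mem_filter] at hu
      rw [mem_insert, mem_erase, mem_filter]
      by_cases hux : u < x
      · right
        refine ⟨?_, hu.1, hux⟩
        rintro rfl
        exact hne0 hu.2
      · left
        have hxu : x < u := by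
          have : u ≠ x := fun h => (hWU u hu.1).2 (h ▸ hxC)
          omega
        by_contra hy
        have huy : u < y := by
          have := hymax u (hWU u hu.1).1
          omega
        obtain ⟨w, hw, h1, h2⟩ := next hm (conn_pos hrU hr hc) (hr u (hWU u hu.1).1) ⟨y, hyU, huy⟩
        have hwW : w ∈ W := by
          rw [hW, mem_sdiff]
          refine ⟨hw, fun h => ?_⟩
          have := hxmax w h
          omega
        have h3 := pos_right hwW h1 h2
        omega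
    have h5 := card_le_card hF
    have h6 := card_insert_le y ((W.filter (fun w => w < x)).erase v)
    have hvK : v ∈ W.filter (fun w => w < x) := mem_filter.mpr ⟨hvW, hvx⟩
    have h7 := card_erase_of_mem hvK
    have h8 := card_pos.mpr ⟨v, hvK⟩
    have h9 := CNTaux.cnR m hm W
    omega
  refine ⟨v, W.erase v, (insert_erase hvW).symm, ?_⟩
  intro u hu
  rw [mem_erase] at hu
  have h1 := hvmin u hu.2
  have h2 : v < u := lt_of_le_of_ne h1 (Ne.symm hu.1)
  refine ⟨h2, ?_⟩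
  by_contra h3
  exact (CNTaux.aR_zero.mp haR) u hu.2 ⟨h2, by omega⟩

theorem init {m : ℕ → ℕ} (hm : Monotone m) {U C : Finset ℕ} {r : ℕ} (hrU : r ∈ U)
    (hr : ∀ u ∈ U, r ≤ u) (hc : cn m U = 1) (hC : C ⊆ U) (hrC : r ∈ C) (hCU : C ≠ U)
    (hi : ∀ u ∈ U \ C, ∀ v ∈ C, v < u) :
    (∀ v ∈ C.erase r, 0 < aL m C v) ∧ eb m U C = 0 ∧ cn m (U \ C) = 1 := by
  have heb : eb m U C = 0 := by
    unfold eb
    refine sum_eq_zero fun v hv => ?_
    rw [CNTaux.aR_zero]
    rintro u hu ⟨h1, _⟩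
    have := hi v hv u hu
    omega
  refine ⟨?_, heb, ?_⟩
  · intro v hv
    rw [mem_erase] at hv
    obtain ⟨w, hw, h1, h2⟩ := ex_left (conn_pos hrU hr hc v (hC hv.2) hv.1)
    have hwC : w ∈ C := by
      by_contra h
      have := hi w (mem_sdiff.mpr ⟨hw, h⟩) v hv.2
      omega
    unfold aL
    exact card_pos.mpr ⟨w, mem_filter.mpr ⟨hwC, h1, h2⟩⟩
  · have h1 := (tCNT m hm U C r hrU hr hC hrC).2
    have h2 : (U \ C).Nonempty := by
      rw [nonempty_iff_ne_empty]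
      intro h
      rw [sdiff_eq_empty_iff_subset] at h
      exact hCU (subset_antisymm hC h)
    have h3 := LWRaux.cn_pos m _ h2
    omega

theorem key (m : ℕ → ℕ) (hm : Monotone m) (N : ℕ) (U : Finset ℕ) (r s J : ℕ) (hrU : r ∈ U)
    (hr : ∀ u ∈ U, r ≤ u) (hN : U.card ≤ N) (hc : cn m U = 1) (hs : 2 ≤ s) (f : Fin N →₀ ℕ)
    (hf : big s f) (hJ : J + 2 = len f + s) (C : Finset ℕ) (hC : C ⊆ U) (hrC : r ∈ C)
    (i : Fin N) (hi : (i : ℕ) + 1 = C.card ∧ 0 < f i) :
    (Pi m (Polynomial.X : Polynomial ℤ) r C * Polynomial.X ^ (C.card + eb m U C) *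
      cf m N (U \ C) (f - Finsupp.single i 1)).coeff J =
    if C.card = s ∧ C ≠ U ∧ ∀ u ∈ U \ C, ∀ v ∈ C, v < u then
      Lw m N (U \ C) (f - Finsupp.single i 1) else 0 := by
  have hlen := LWRaux.len_sub f i hi.2
  obtain ⟨g, hg⟩ : ∃ g, g = f - Finsupp.single i 1 := ⟨_, rfl⟩
  rw [← hg] at hlen ⊢
  have hsC : s ≤ C.card := by
    have := hf i hi.2
    omega
  have hcnt := (tCNT m hm U C r hrU hr hC hrC).2
  rw [hc] at hcnt
  have hV : (U \ C).card ≤ N := le_trans (card_le_card sdiff_subset) hN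
  have hA : ∀ i', i' + (cn m (U \ C) + (s - 1)) < J → (cf m N (U \ C) g).coeff i' = 0 :=
    fun i' h => All.ord m hm N (U \ C) hV g i' (by omega)
  rw [LWRaux.low_coeff _ _ _ _ _ hA (by omega)]
  have hL : Lw m N (U \ C) g = if cn m (U \ C) + (s - 1) ≤ J then
      (cf m N (U \ C) g).coeff (J - (cn m (U \ C) + (s - 1))) else 0 := by
    unfold Lw
    by_cases h : cn m (U \ C) ≤ len g
    · rw [if_pos h, if_pos (by omega)]
      congr 1
      omega
    · rw [if_neg h, if_neg (by omega)]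
  have hPL : (if cn m (U \ C) + (s - 1) ≤ J then
      (Pi m (Polynomial.X : Polynomial ℤ) r C).coeff 0 *
        (cf m N (U \ C) g).coeff (J - (cn m (U \ C) + (s - 1))) else 0) =
      (Pi m (Polynomial.X : Polynomial ℤ) r C).coeff 0 * Lw m N (U \ C) g := by
    rw [hL]
    split_ifs <;> simp
  rw [hPL, LWRaux.Pi_coeff]
  by_cases hE : C.card + eb m U C = cn m (U \ C) + (s - 1)
  · rw [if_pos hE]
    have hCs : C.card = s := by omega
    have hcb : cn m (U \ C) = eb m U C + 1 := by omega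
    by_cases hconn : ∀ v ∈ C.erase r, 0 < aL m C v
    · rw [if_pos hconn, one_mul]
      by_cases hK : ∃ u ∈ U \ C, ∃ v ∈ C, u ≤ v
      · obtain ⟨v, V, hins, hV'⟩ := iso hm hrU hr hc hC hrC hconn hcb hK
        have hN0 : 0 < N := lt_of_lt_of_le (card_pos.mpr ⟨r, hrU⟩) hN
        have h0 : Lw m N (U \ C) g = 0 := by
          rw [hins, ((tISO All.phi) m hm N hN0 V v hV' g).1, if_neg]
          intro h
          have h1 : g ⟨0, hN0⟩ ≤ f ⟨0, hN0⟩ := by
            rw [hg, Finsupp.tsub_apply]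
            exact Nat.sub_le _ _
          have h2 := hf ⟨0, hN0⟩ (lt_of_lt_of_le h h1)
          simp only at h2
          omega
        rw [h0, if_neg]
        rintro ⟨_, _, h3⟩
        obtain ⟨u, hu, v, hv, huv⟩ := hK
        have := h3 u hu v hv
        omega
      · have hinit : ∀ u ∈ U \ C, ∀ v ∈ C, v < u := by
          intro u hu v hv
          by_contra h
          exact hK ⟨u, hu, v, hv, by omega⟩
        have hne : C ≠ U := by
          rintro rfl
          rw [sdiff_self] at hcb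
          have : cn m (∅ : Finset ℕ) = 0 := by simp [cn]
          change cn m (∅ : Finset ℕ) = _ at hcb
          omega
        rw [if_pos ⟨hCs, hne, hinit⟩]
    · rw [if_neg hconn, zero_mul, if_neg]
      rintro ⟨_, h2, h3⟩
      exact hconn (init hm hrU hr hc hC hrC h2 h3).1
  · rw [if_neg hE, if_neg]
    rintro ⟨h1, h2, h3⟩
    obtain ⟨_, h4, h5⟩ := init hm hrU hr hc hC hrC h2 h3
    apply hE
    omega

end YNaux

theorem tYN : S_YN := by
  intro m hm N U r s J hrU hr hN hc hs f hf hJ C hC hrC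
  have e1 : (Pi m (Polynomial.X : Polynomial ℤ) r C * Polynomial.X ^ (C.card + eb m U C) *
      cfd m N (U \ C) f C.card).coeff J =
      ∑ i : Fin N, if (i : ℕ) + 1 = C.card ∧ 0 < f i then
        (if C.card = s ∧ C ≠ U ∧ ∀ u ∈ U \ C, ∀ v ∈ C, v < u then
          Lw m N (U \ C) (f - Finsupp.single i 1) else 0) else 0 := by
    unfold cfd
    rw [mul_sum, Polynomial.finsetSum_coeff]
    refine sum_congr rfl fun i _ => ?_
    by_cases hi : (i : ℕ) + 1 = C.card ∧ 0 < f i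
    · rw [if_pos hi, if_pos hi]
      exact YNaux.key m hm N U r s J hrU hr hN hc hs f hf hJ C hC hrC i hi
    · rw [if_neg hi, if_neg hi, mul_zero, Polynomial.coeff_zero]
  rw [e1]
  by_cases hD : C.card = s ∧ C ≠ U ∧ ∀ u ∈ U \ C, ∀ v ∈ C, v < u
  · rw [if_pos hD]
    unfold Lwd
    refine sum_congr rfl fun i _ => ?_
    rw [if_pos hD, hD.1]
  · rw [if_neg hD]
    refine sum_eq_zero fun i _ => ?_
    rw [if_neg hD]
    split_ifs <;> rfl

end Pool.Agent.LOW
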