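import Pool.Agent.Lib.MP_263316_co.EX.Spec

/-!
MP_263316_co, project EX, task YO: lowest coefficient without a part 1, initial clusters.
-/

set_option autoImplicit false

namespace Pool.Agent.LOW

open Finset Pool.Agent.SWC

private theorem YO_pos (m : ℕ → ℕ) (A : Finset ℕ) (v : ℕ) :
    0 < aL m A v ↔ ∃ u ∈ A, u < v ∧ v ≤ m u := by
  unfold aL
  rw [Finset.card_pos]
  constructor
  · rintro ⟨u, hu⟩
    rw [Finset.mem_filter] at hu
    exact ⟨u, hu.1, hu.2⟩
  · rintro ⟨u, hu, h⟩
    exact ⟨u, Finset.mem_filter.2 ⟨hu, h⟩⟩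

private theorem YO_conn (m : ℕ → ℕ) (U : Finset ℕ) (r : ℕ) (hrU : r ∈ U) (hr : ∀ u ∈ U, r ≤ u)
    (hc : cn m U = 1) : ∀ v ∈ U, v ≠ r → 0 < aL m U v := by
  intro v hv hvr
  by_contra h0
  have h1 : aL m U v = 0 := by omega
  have h2 : aL m U r = 0 := LWRaux.aL_first m U r hr
  have h3 : (U.filter (fun v => aL m U v = 0)).card ≤ 1 := by
    unfold cn at hc
    omega
  exact hvr (Finset.card_le_one.1 h3 v (Finset.mem_filter.2 ⟨hv, h1⟩) r
    (Finset.mem_filter.2 ⟨hrU, h2⟩))

private theorem YO_least (A : Finset ℕ) (v x : ℕ) (hx : x ∈ A) (hvx : v < x) :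
    ∃ w ∈ A, v < w ∧ ∀ u ∈ A, v < u → w ≤ u := by
  have hne : (A.filter (fun u => v < u)).Nonempty := ⟨x, Finset.mem_filter.2 ⟨hx, hvx⟩⟩
  have h1 := Finset.min'_mem _ hne
  rw [Finset.mem_filter] at h1
  exact ⟨_, h1.1, h1.2, fun u hu huv => Finset.min'_le _ _ (Finset.mem_filter.2 ⟨hu, huv⟩)⟩

/-- an isolated vertex -/
private theorem YO_cf (m : ℕ → ℕ) (hm : Monotone m) (N : ℕ) (hN0 : 0 < N) (V : Finset ℕ) (v : ℕ)
    (hv : v ∈ V) (h1 : ∀ w ∈ V, w < v → m w < v) (h2 : ∀ w ∈ V, v < w → m v < w)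
    (g : Fin N →₀ ℕ) (hg : g ⟨0, hN0⟩ = 0) : cf m N V g = 0 := by
  have e1 : V = V.filter (fun w => w < v) ∪ ({v} ∪ V.filter (fun w => v < w)) := by
    ext w
    rw [Finset.mem_union, Finset.mem_union, Finset.mem_filter, Finset.mem_filter,
      Finset.mem_singleton]
    constructor
    · intro hw
      rcases lt_trichotomy w v with h | h | h
      · exact Or.inl ⟨hw, h⟩
      · exact Or.inr (Or.inl h)
      · exact Or.inr (Or.inr ⟨hw, h⟩)
    · rintro (h | h | h)
      · exact h.1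
      · rw [h]
        exact hv
      · exact h.1
  have e2 : Ph m N V = Ph m N (V.filter (fun w => w < v)) *
      (MvPolynomial.X (⟨0, hN0⟩ : Fin N) * Ph m N (V.filter (fun w => v < w))) := by
    conv_lhs => rw [e1]
    rw [All.phi.2.2.2.1 m hm N, All.phi.2.2.2.1 m hm N, All.phi.2.2.2.2 m hm N hN0 v]
    · intro u hu w hw
      rw [Finset.mem_singleton] at hu
      rw [Finset.mem_filter] at hw
      rw [hu]
      exact ⟨hw.2, h2 w hw.1 hw.2⟩
    · intro u hu w hw
      rw [Finset.mem_filter] at hu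
      have h3 := h1 u hu.1 hu.2
      rw [Finset.mem_union, Finset.mem_singleton, Finset.mem_filter] at hw
      rcases hw with h | h
      · rw [h]
        exact ⟨hu.2, h3⟩
      · have := hu.2
        have := h.2
        constructor <;> omega
  have e3 : Ph m N V = MvPolynomial.X (⟨0, hN0⟩ : Fin N) *
      (Ph m N (V.filter (fun w => w < v)) * Ph m N (V.filter (fun w => v < w))) := by
    rw [e2]
    ring
  unfold cf
  rw [e3, MvPolynomial.coeff_X_mul', if_neg]
  rw [Finsupp.mem_support_iff, not_not]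
  exact hg

theorem tYO : S_YO := by
  intro m hm N W D r hrD hDW hr hN hc hOk g hg hne
  by_contra hcon
  obtain ⟨v, hv, d0, hd0, hvd⟩ : ∃ v ∈ W \ D, ∃ d0 ∈ D, v ≤ d0 := by
    by_contra h
    refine hcon fun u hu v hv => ?_
    by_contra h2
    exact h ⟨u, hu, v, hv, by omega⟩
  apply hne
  have hrW : r ∈ W := hDW hrD
  have hN0 : 0 < N := lt_of_lt_of_le (Finset.card_pos.2 ⟨r, hrW⟩) hN
  set V : Finset ℕ := W \ D with hVdef
  have hmV : ∀ v, v ∈ V ↔ v ∈ W ∧ v ∉ D := fun v => by rw [hVdef, Finset.mem_sdiff]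
  have hsum : ∑ v ∈ V, aL m D v = cn m V := hOk.2
  have hspl : ∀ v, aL m W v = aL m D v + aL m V v := CNTaux.aL_split m hDW
  clear_value V
  have hM : ∀ v ∈ V, aL m D v = if aL m V v = 0 then 1 else 0 := by
    have h1 : ∀ v ∈ V, (if aL m V v = 0 then 1 else 0) ≤ aL m D v := by
      intro v hv
      split_ifs with h0
      · have hvr : v ≠ r := by
          rintro rfl
          exact ((hmV v).1 hv).2 hrD
        have := YO_conn m W r hrW hr hc v ((hmV v).1 hv).1 hvr
        have := hspl v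
        omega
      · exact Nat.zero_le _
    have h2 : ∑ v ∈ V, (if aL m V v = 0 then 1 else 0) = ∑ v ∈ V, aL m D v := by
      rw [hsum]
      unfold cn
      rw [Finset.card_filter]
    intro v hv
    exact ((Finset.sum_eq_sum_iff_of_le h1).1 h2 v hv).symm
  have hvD : v ∉ D := ((hmV v).1 hv).2
  have hvd' : v < d0 := by
    have : v ≠ d0 := by
      rintro rfl
      exact hvD hd0
    omega
  obtain ⟨d', hd'D, hvd1, hleast⟩ := YO_least D v d0 hd0 hvd'
  have hrv : r ≤ v := hr v ((hmV v).1 hv).1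
  obtain ⟨u, huD, h1, h2⟩ := (YO_pos m D d').1 (hOk.1 d' hd'D ⟨r, hrD, by omega⟩)
  have huv : u < v := by
    by_contra h
    have h3 : u ≠ v := by
      rintro rfl
      exact hvD huD
    have := hleast u huD (by omega)
    omega
  have h3 : aL m V v = 0 := by
    have h4 := (YO_pos m D v).2 ⟨u, huD, huv, by omega⟩
    have h5 := hM v hv
    split_ifs at h5 with h6
    · exact h6
    · omega
  have hleft : ∀ w ∈ V, w < v → m w < v := by
    intro w hw hwv
    by_contra h
    have := (YO_pos m V v).2 ⟨w, hw, hwv, by omega⟩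
    omega
  have hright : ∀ w ∈ V, v < w → m v < w := by
    intro w hw hvw
    by_contra h
    have h4 := (YO_pos m V w).2 ⟨v, hv, hvw, by omega⟩
    have h5 := hM w hw
    rw [if_neg (by omega)] at h5
    have hwd : w ≠ d' := by
      rintro rfl
      exact ((hmV w).1 hw).2 hd'D
    rcases lt_or_gt_of_ne hwd with h6 | h6
    · have := (YO_pos m D w).2 ⟨u, huD, by omega, by omega⟩
      omega
    · have h7 : m v ≤ m d' := hm hvd1.le
      have := (YO_pos m D w).2 ⟨d', hd'D, h6, by omega⟩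
      omega
  unfold Lwd
  refine Finset.sum_eq_zero fun i _ => ?_
  split_ifs with hi
  · have h0 : (g - Finsupp.single i 1 : Fin N →₀ ℕ) ⟨0, hN0⟩ = 0 := by
      rw [Finsupp.tsub_apply]
      have h4 : g ⟨0, hN0⟩ = 0 := by
        by_contra h5
        have := hg ⟨0, hN0⟩ (Nat.pos_of_ne_zero h5)
        simp only at this
        omega
      omega
    unfold Lw
    rw [YO_cf m hm N hN0 V v hv hleft hright _ h0, Polynomial.coeff_zero, ite_self]
  · rfl

end Pool.Agent.LOW
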