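import Pool.Agent.Lib.MP_263316_co.EX.Spec

set_option autoImplicit false

namespace Pool.Agent.LOW

open Finset Pool.Agent.SWC

private theorem YP_cn_pos (m : ℕ → ℕ) (U : Finset ℕ) (hU : U.Nonempty) : 0 < cn m U := by
  have hr0 : aL m U (U.min' hU) = 0 := by
    unfold aL
    rw [Finset.card_eq_zero, Finset.filter_eq_empty_iff]
    intro u hu h
    have := U.min'_le u hu
    omega
  have hrZ : U.min' hU ∈ U.filter (fun v => aL m U v = 0) :=
    Finset.mem_filter.2 ⟨U.min'_mem hU, hr0⟩
  exact Finset.card_pos.2 ⟨_, hrZ⟩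

theorem tYP : S_YP := by
  intro hYZ m hm N U s hU hs htop f hf
  obtain ⟨inc1, inc2⟩ := All.inc m hm N U hU f s hf
  have hzero : U.Nonempty → f = 0 → cf m N U f = 0 := by
    intro hne f0
    apply hYZ m hm N U hU f
    have h1 := YP_cn_pos m U hne
    have h2 : len f = 0 := by
      rw [f0]
      unfold len
      simp
    omega
  have h2 : U.Nonempty → ∀ j : ℕ, j + cn m U + 2 ≤ len f + s →
      (cf m N U f).coeff j ≤ (cf m N U f).coeff (j + 1) := by
    intro hne j hj
    by_cases f0 : f = 0
    · rw [hzero hne f0]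
      simp
    · rcases Nat.lt_or_ge (j + cn m U + 2) (len f + s) with h | h
      · exact inc2 f0 j (by omega)
      · exact htop hne f hf f0 j (by omega)
  refine ⟨?_, h2⟩
  intro j hj
  rcases Nat.lt_or_ge (j + cn m U + 1) (len f + s) with h | h
  · exact inc1 j h
  · rcases Finset.eq_empty_or_nonempty U with hE | hne
    · subst hE
      unfold cf
      rw [All.phi.2.2.1 m hm N, MvPolynomial.coeff_one]
      split_ifs
      · rw [Polynomial.coeff_one]
        split_ifs <;> simp
      · simp
    · rcases Nat.eq_zero_or_pos j with h0 | h0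
      · subst h0
        exact (All.three m hm N U hU f).1 0 (by norm_num)
      · obtain ⟨i, rfl⟩ : ∃ i, j = i + 1 := ⟨j - 1, by omega⟩
        exact le_trans (inc1 i (by omega)) (h2 hne i (by omega))

end Pool.Agent.LOW
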