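import Pool.Agent.Lib.MP_263316_co.EX.Spec

/-!
MP_263316_co, project EX, module YQ: the positive terms are nonnegative.
-/

set_option autoImplicit false

namespace Pool.Agent.LOW

open Finset Pool.Agent.SWC

open INCaux

theorem tYQ : S_YQ := by
  intro m hm N U r s J hr hmin hN hcn f hbig hJ hPM C hCU hrC
  have hc := (tCNT m hm U C r hr hmin hCU hrC).1
  rw [hcn] at hc
  have hne : U \ C ≠ U := fun h => by
    have h1 : r ∈ U \ C := by
      rw [h]
      exact hr
    exact (Finset.mem_sdiff.1 h1).2 hrC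
  have hV := hPM (U \ C) Finset.sdiff_subset hne
  unfold cfd
  rw [Finset.mul_sum, Polynomial.finsetSum_coeff]
  refine Finset.sum_nonneg fun i _ => ?_
  split_ifs with hi
  · obtain ⟨hi1, hi2⟩ := hi
    have hlen := inc_len_sub f i hi2
    rw [mul_assoc]
    refine inc_pos (inc_nn_Pi _ _ _) fun j' hj' => ?_
    refine (hV (f - Finsupp.single i 1) ?_).1 j' (by omega)
    intro k hk
    refine hbig k (lt_of_lt_of_le hk ?_)
    rw [Finsupp.tsub_apply]
    exact Nat.sub_le _ _
  · rw [mul_zero, Polynomial.coeff_zero]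

end Pool.Agent.LOW
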