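import Pool.Agent.Lib.MP_263316_co.EX.Spec

/-!
MP_263316_co, project EX, task YU: the chain for disjoint unions.
-/

set_option autoImplicit false

namespace Pool.Agent.LOW

open Finset Pool.Agent.SWC

namespace YUaux

theorem aL_left (m : ℕ → ℕ) (A B : Finset ℕ) (h : ∀ u ∈ A, ∀ v ∈ B, u < v ∧ m u < v)
    (v : ℕ) (hv : v ∈ A) : aL m (A ∪ B) v = aL m A v := by
  unfold aL
  apply congrArg
  ext u
  simp only [Finset.mem_filter, Finset.mem_union]
  constructor
  · rintro ⟨hu, h1, h2⟩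
    refine ⟨?_, h1, h2⟩
    rcases hu with hu | hu
    · exact hu
    · have := (h v hv u hu).1
      omega
  · rintro ⟨hu, h1, h2⟩
    exact ⟨Or.inl hu, h1, h2⟩

theorem aL_right (m : ℕ → ℕ) (A B : Finset ℕ) (h : ∀ u ∈ A, ∀ v ∈ B, u < v ∧ m u < v)
    (v : ℕ) (hv : v ∈ B) : aL m (A ∪ B) v = aL m B v := by
  unfold aL
  apply congrArg
  ext u
  simp only [Finset.mem_filter, Finset.mem_union]
  constructor
  · rintro ⟨hu, h1, h2⟩
    refine ⟨?_, h1, h2⟩
    rcases hu with hu | hu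
    · have := (h u hu v hv).2
      omega
    · exact hu
  · rintro ⟨hu, h1, h2⟩
    exact ⟨Or.inr hu, h1, h2⟩

theorem disj (m : ℕ → ℕ) (A B : Finset ℕ) (h : ∀ u ∈ A, ∀ v ∈ B, u < v ∧ m u < v) :
    Disjoint A B := by
  rw [Finset.disjoint_left]
  intro u hu hu'
  have := (h u hu u hu').1
  omega

theorem cn_union (m : ℕ → ℕ) (A B : Finset ℕ)
    (h : ∀ u ∈ A, ∀ v ∈ B, u < v ∧ m u < v) : cn m (A ∪ B) = cn m A + cn m B := by
  unfold cn
  rw [Finset.filter_union, Finset.card_union_of_disjoint]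
  · congr 1
    · apply congrArg
      apply Finset.filter_congr
      intro v hv
      rw [aL_left m A B h v hv]
    · apply congrArg
      apply Finset.filter_congr
      intro v hv
      rw [aL_right m A B h v hv]
  · exact Finset.disjoint_filter_filter (disj m A B h)

theorem len_add {N : ℕ} (f g : Fin N →₀ ℕ) : len (f + g) = len f + len g := by
  unfold len
  rw [← Finset.sum_add_distrib]
  rfl

theorem cf_union (hP : S_PHI) (m : ℕ → ℕ) (hm : Monotone m) (N : ℕ) (A B : Finset ℕ)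
    (h : ∀ u ∈ A, ∀ v ∈ B, u < v ∧ m u < v) (f : Fin N →₀ ℕ) :
    cf m N (A ∪ B) f = ∑ x ∈ Finset.HasAntidiagonal.antidiagonal f, cf m N A x.1 * cf m N B x.2 := by
  unfold cf
  rw [hP.2.2.2.1 m hm N A B h, MvPolynomial.coeff_mul]

/-- products of chains -/
theorem chain (a b : Polynomial ℤ) (L M s : ℕ) (hs : 1 ≤ s)
    (a0 : ∀ i, i < L → a.coeff i = 0) (a1 : ∀ i, i + 1 ≤ L + s → 0 ≤ a.coeff i)
    (a2 : ∀ i, i + 2 ≤ L + s → a.coeff i ≤ a.coeff (i + 1))
    (b0 : ∀ i, i < M → b.coeff i = 0) (b1 : ∀ i, i + 1 ≤ M + s → 0 ≤ b.coeff i) :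
    (∀ j, j + 1 ≤ L + M + s → 0 ≤ (a * b).coeff j) ∧
    ∀ j, j + 2 ≤ L + M + s → (a * b).coeff j ≤ (a * b).coeff (j + 1) := by
  refine ⟨?_, ?_⟩
  · intro j hj
    rw [Polynomial.coeff_mul]
    refine Finset.sum_nonneg fun x hx => ?_
    have hx' := Finset.HasAntidiagonal.mem_antidiagonal.1 hx
    by_cases c1 : x.1 < L
    · rw [a0 _ c1, zero_mul]
    by_cases c2 : x.2 < M
    · rw [b0 _ c2, mul_zero]
    exact mul_nonneg (a1 _ (by omega)) (b1 _ (by omega))
  · intro j hj
    rw [Polynomial.coeff_mul, Polynomial.coeff_mul, Finset.Nat.sum_antidiagonal_succ]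
    have h1 : 0 ≤ a.coeff 0 * b.coeff (j + 1) := by
      by_cases c1 : 0 < L
      · rw [a0 _ c1, zero_mul]
      · exact mul_nonneg (a1 _ (by omega)) (b1 _ (by omega))
    have h2 : ∑ x ∈ Finset.HasAntidiagonal.antidiagonal j, a.coeff x.1 * b.coeff x.2 ≤
        ∑ x ∈ Finset.HasAntidiagonal.antidiagonal j, a.coeff (x.1 + 1) * b.coeff x.2 := by
      refine Finset.sum_le_sum fun x hx => ?_
      have hx' := Finset.HasAntidiagonal.mem_antidiagonal.1 hx
      by_cases c2 : x.2 < M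
      · rw [b0 _ c2, mul_zero, mul_zero]
      by_cases c1 : x.1 + 1 < L
      · rw [a0 _ c1, a0 x.1 (by omega)]
      exact mul_le_mul_of_nonneg_right (a2 _ (by omega)) (b1 _ (by omega))
    linarith

end YUaux

open YUaux in
theorem tYU : S_YU := by
  intro hYZ m hm N s A B hA hB h hN hs hPA hPB f hf
  have hAN : A.card ≤ N := le_trans (Finset.card_le_card Finset.subset_union_left) hN
  have hBN : B.card ≤ N := le_trans (Finset.card_le_card Finset.subset_union_right) hN
  have key : ∀ x ∈ Finset.HasAntidiagonal.antidiagonal f,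
      (∀ j, j + cn m (A ∪ B) + 1 ≤ len f + s → 0 ≤ (cf m N A x.1 * cf m N B x.2).coeff j) ∧
      ∀ j, j + cn m (A ∪ B) + 2 ≤ len f + s →
        (cf m N A x.1 * cf m N B x.2).coeff j ≤ (cf m N A x.1 * cf m N B x.2).coeff (j + 1) := by
    intro x hx
    have hx' : x.1 + x.2 = f := Finset.HasAntidiagonal.mem_antidiagonal.mp hx
    have hl : len f = len x.1 + len x.2 := by rw [← hx', len_add]
    have e1 : ∀ i, f i = x.1 i + x.2 i := by
      intro i
      rw [← hx']
      rfl
    have b1 : big s x.1 := fun i hi => hf i (by have := e1 i; omega)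
    have b2 : big s x.2 := fun i hi => hf i (by have := e1 i; omega)
    rw [cn_union m A B h]
    by_cases c1 : len x.1 < cn m A
    · rw [hYZ m hm N A hAN x.1 c1, zero_mul]
      simp
    by_cases c2 : len x.2 < cn m B
    · rw [hYZ m hm N B hBN x.2 c2, mul_zero]
      simp
    obtain ⟨L, hL⟩ : ∃ L, len x.1 = L + cn m A := ⟨len x.1 - cn m A, by omega⟩
    obtain ⟨M, hM⟩ : ∃ M, len x.2 = M + cn m B := ⟨len x.2 - cn m B, by omega⟩
    obtain ⟨p1, p2⟩ := chain (cf m N A x.1) (cf m N B x.2) L M s hs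
      (fun i hi => All.ord m hm N A hAN x.1 i (by omega))
      (fun i hi => (hPA x.1 b1).1 i (by omega))
      (fun i hi => (hPA x.1 b1).2 hA i (by omega))
      (fun i hi => All.ord m hm N B hBN x.2 i (by omega))
      (fun i hi => (hPB x.2 b2).1 i (by omega))
    exact ⟨fun j hj => p1 j (by omega), fun j hj => p2 j (by omega)⟩
  refine ⟨?_, ?_⟩
  · intro j hj
    rw [cf_union All.phi m hm N A B h f, Polynomial.finsetSum_coeff]
    exact Finset.sum_nonneg fun x hx => (key x hx).1 j hj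
  · intro _ j hj
    rw [cf_union All.phi m hm N A B h f, Polynomial.finsetSum_coeff, Polynomial.finsetSum_coeff]
    exact Finset.sum_le_sum fun x hx => (key x hx).2 j hj

end Pool.Agent.LOW
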