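import Pool.Agent.Lib.MP_263316_co.EX.Spec

/-!
MP_263316_co, project EX, task YZ: fewer parts than components.
-/

set_option autoImplicit false

namespace Pool.Agent.LOW

open Finset Pool.Agent.SWC

namespace YZaux

theorem aL_mono (m : ℕ → ℕ) {A B : Finset ℕ} (h : A ⊆ B) (v : ℕ) : aL m A v ≤ aL m B v :=
  Finset.card_le_card (Finset.filter_subset_filter _ h)

/-- the number of components drops by at most one if a connected cluster is removed -/
theorem cn_le (m : ℕ → ℕ) {U C : Finset ℕ} {r : ℕ} (hCU : C ⊆ U)
    (hC : ∀ v ∈ C.erase r, 0 < aL m C v) : cn m U ≤ cn m (U \ C) + 1 := by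
  unfold cn
  have hsub : U.filter (fun v => aL m U v = 0) ⊆
      insert r ((U \ C).filter (fun v => aL m (U \ C) v = 0)) := by
    intro v hv
    rw [Finset.mem_filter] at hv
    rw [Finset.mem_insert, Finset.mem_filter, Finset.mem_sdiff]
    by_cases hvC : v ∈ C
    · left
      by_contra hne
      have h1 := hC v (Finset.mem_erase.2 ⟨hne, hvC⟩)
      have h2 := aL_mono m hCU v
      omega
    · right
      refine ⟨⟨hv.1, hvC⟩, ?_⟩
      have h2 := aL_mono m (Finset.sdiff_subset : U \ C ⊆ U) v
      omega
  exact (Finset.card_le_card hsub).trans (Finset.card_insert_le _ _)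

theorem Pi_zero (m : ℕ → ℕ) (r : ℕ) (C : Finset ℕ) (h : ¬ ∀ v ∈ C.erase r, 0 < aL m C v) :
    Pi m (Polynomial.X : Polynomial ℤ) r C = 0 := by
  have h' : ∃ v ∈ C.erase r, aL m C v = 0 := by
    by_contra h2
    apply h
    intro v hv
    by_contra h3
    exact h2 ⟨v, hv, by omega⟩
  obtain ⟨v, hv, h0⟩ := h'
  unfold Pi
  apply Finset.prod_eq_zero hv
  rw [h0]
  unfold qn
  simp

end YZaux

theorem tYZ : S_YZ := by
  intro m hm N
  have key : ∀ n : ℕ, ∀ U : Finset ℕ, U.card = n → U.card ≤ N → ∀ f : Fin N →₀ ℕ,
      len f < cn m U → cf m N U f = 0 := by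
    intro n
    induction n using Nat.strong_induction_on with
    | _ n ih =>
      intro U hU hN f hf
      rcases U.eq_empty_or_nonempty with h0 | hne
      · subst h0
        exfalso
        unfold cn at hf
        simp at hf
      · have hr := U.min'_mem hne
        have hmin : ∀ u ∈ U, U.min' hne ≤ u := fun u hu => U.min'_le u hu
        have hrec := All.rc m hm N U (U.min' hne) hr hmin hN f
        generalize U.min' hne = r at hr hmin hrec
        have hz : ∑ C ∈ U.powerset.filter (fun C => r ∈ C),
            wC m U r C * cfd m N (U \ C) f C.card = 0 := by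
          apply Finset.sum_eq_zero
          intro C hCm
          rw [Finset.mem_filter, Finset.mem_powerset] at hCm
          obtain ⟨hCU, hrC⟩ := hCm
          by_cases hcon : ∀ v ∈ C.erase r, 0 < aL m C v
          · have hcn := YZaux.cn_le m hCU hcon
            have hCpos : 1 ≤ C.card := Finset.card_pos.mpr ⟨_, hrC⟩
            have hcard : (U \ C).card + C.card = U.card :=
              Finset.card_sdiff_add_card_eq_card hCU
            have h1 : cfd m N (U \ C) f C.card = 0 := by
              unfold cfd
              apply Finset.sum_eq_zero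
              intro i _
              split_ifs with hi
              · have hl := ORDaux.len_sub f i hi.2
                exact ih (U \ C).card (by omega) (U \ C) rfl (by omega) _ (by omega)
              · rfl
            rw [h1, mul_zero]
          · unfold wC
            rw [YZaux.Pi_zero m r C hcon, zero_mul, zero_mul]
        rw [hz] at hrec
        rcases mul_eq_zero.1 hrec with h1 | h1
        · exfalso
          have h2 := congrArg (fun p : Polynomial ℤ => p.coeff 0) h1
          simp at h2
        · exact h1
  intro U hN f hf
  exact key _ U rfl hN f hf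

end Pool.Agent.LOW
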