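import Pool.Agent.Lib.MP_263316_co.EX.XG
import Pool.Agent.Lib.MP_263316_co.EX.XD
import Pool.Agent.Lib.MP_263316_co.EX.XA
import Pool.Agent.Lib.MP_263316_co.EX.XB1
import Pool.Agent.Lib.MP_263316_co.EX.XB2
import Pool.Agent.Lib.MP_263316_co.EX.XC1
import Pool.Agent.Lib.MP_263316_co.EX.XC2
import Pool.Agent.Lib.MP_263316_co.EX.XC3
import Pool.Agent.Lib.MP_263316_co.EX.XBL
import Pool.Agent.Lib.MP_263316_co.EX.XLN
import Pool.Agent.Lib.MP_263316_co.EX.XLT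
import Pool.Agent.Lib.MP_263316_co.EX.YZ
import Pool.Agent.Lib.MP_263316_co.EX.YP
import Pool.Agent.Lib.MP_263316_co.EX.YU
import Pool.Agent.Lib.MP_263316_co.EX.YN
import Pool.Agent.Lib.MP_263316_co.EX.YQ
import Pool.Agent.Lib.MP_263316_co.EX.YL
import Pool.Agent.Lib.MP_263316_co.EX.YO
import Pool.Agent.Lib.MP_263316_co.EX.YE
import Pool.Agent.Lib.MP_263316_co.EX.YK
import Pool.Agent.Lib.MP_263316_co.EX.YC
import Pool.Agent.Lib.MP_263316_co.EX.YI
import Pool.Agent.Lib.MP_263316_co.EX.YF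

/-!
MP_263316_co, project EX: assembly.
-/

set_option autoImplicit false

namespace Pool.Agent.LOW.EX

open Pool.Agent.LOW

theorem bl : S_XBL := tXBL tXG tXD (tXA) (tXB1) (tXB2) tXC1 (tXC2) (tXC3)
theorem lt : S_XLT := tXLT tXLN bl
theorem yp : S_YP := tYP
theorem ye : S_YE := tYE
theorem yc : S_YC := tYC
theorem ya : S_YA := tYI yp tYZ (tYC yp tYZ tYN tYQ tYK tYO tYE lt tYL) (tYU tYZ)
theorem final : S_EXT := tYF ya

end Pool.Agent.LOW.EX
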