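import Pool.Agent.Lib.MP_263316_co.LOW.All

/-!
MP_263316_co, project EX (helper30): the chain of the low coefficients is one longer. Paper proof:
notes 5608 and the next one (correction). Everything of project LOW is proved and may be used:
`All.phi : S_PHI`, `All.rc : S_REC`, `tCNT : S_CNT`, `All.ord : S_ORD`, `All.inc : S_INC`,
`tLWR All.rc tCNT All.ord : S_LWR`, `tISO All.phi : S_ISO`, `All.prd : S_PRD`, `tSPLT : S_SPLT`,
`All.nng : S_NNG`, `All.three : S_THREE`, `tPAR All.phi : S_PAR` (see LOW/Spec.lean).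
-/

set_option autoImplicit false

namespace Pool.Agent.LOW

open Finset Pool.Agent.SWC

/-! ## Part 1: the combinatorial lemma -/

/-- connected: every element of `C` which is not the first has a left neighbour in `C` -/
def cnc (m : ℕ → ℕ) (C : Finset ℕ) : Prop := ∀ v ∈ C, (∃ w ∈ C, w < v) → 0 < aL m C v

/-- number of edges from `C` to the right into `T` -/
def eCT (m : ℕ → ℕ) (C T : Finset ℕ) : ℕ := ∑ t ∈ T, aL m C t

/-- block: consecutive vertices of `a..b` are adjacent, and also those at distance 2 -/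
def Blk (m : ℕ → ℕ) (a b : ℕ) : Prop := a < b ∧ (∀ i, a ≤ i → i < b → i + 1 ≤ m i) ∧
  ∀ i, a ≤ i → i + 2 ≤ b → i + 2 ≤ m i

/-- forward path without its last vertex `b` -/
def Fw (m : ℕ → ℕ) (a b : ℕ) (G : Finset ℕ) : Prop :=
  G ⊆ Ico a b ∧ a ∈ G ∧ ∀ v, a < v → v ≤ b → aL m G v = 1

/-- backward path without its last vertex `a` -/
def Bw (m : ℕ → ℕ) (a b : ℕ) (H : Finset ℕ) : Prop :=
  H ⊆ Ioc a b ∧ b ∈ H ∧ ∀ v, a ≤ v → v < b → aR m H v = 1

/-- TASK XG. (1) Induction on `b` (`Nat.le_induction` from `a + 1`): `b = a + 1`: `G = {a}`. From `b`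
to `b + 1`: `p = max G`. If `b + 1 ≤ m p`: the same `G` (another `g ∈ G` adjacent to `b + 1` would,
like `p`, be adjacent to `b`, against `aL m G b = 1`). Otherwise `insert b G` (`b` is adjacent to
`b + 1`, all `g ∈ G` have `m g ≤ m p < b + 1`; for `v ≤ b` nothing changes). (2) mirror image,
induction on `b - a`: `H = {b}` for `a + 1 = b`; from `a + 1` to `a`: `p = min H`; if `p ≤ m a` the same
`H`, otherwise `insert (a + 1) H`. -/
def S_XG : Prop := ∀ (m : ℕ → ℕ), Monotone m → ∀ a b : ℕ, a < b →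
  (∀ i, a ≤ i → i < b → i + 1 ≤ m i) → (∃ G, Fw m a b G) ∧ ∃ H, Bw m a b H

/-- TASK XD. Double counting of the pairs `g ∈ G`, `h ∈ H`, `g < h ≤ m g`: every `h ∈ H` has exactly
one left neighbour in `G` (`a < h ≤ b`), every `g ∈ G` exactly one right neighbour in `H`
(`a ≤ g < b`). Second and third statement (sparse): `v, v + 1 ∈ G` (so `v + 2 ≤ b`) are two left
neighbours of `v + 2` (block); `v, v + 1 ∈ H` are two right neighbours of `v - 1 ≥ a`. -/
def S_XD : Prop := ∀ (m : ℕ → ℕ), Monotone m → ∀ (a b : ℕ) (G H : Finset ℕ), Blk m a b →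
  Fw m a b G → Bw m a b H → G.card = H.card ∧ (∀ v ∈ G, v + 1 ∉ G) ∧ ∀ v ∈ H, v + 1 ∉ H

/-- TASK XA (first kind of splits). `p` such that `T = Ioc a p \ G` has `s` elements (the number grows
by 0 or 1 with `p`; it is `b - a - |G|` for `p = b - 1`; take the least `p`, so `p ∉ G`, `p < b`).
`T` connected: for `t ∈ T` not the first: `t - 1 ∈ T`, or `t - 1 ∈ G`, then `t - 2 ∉ G` (`S_XD`),
`t - 2 ∈ T` and `t - 2`, `t` adjacent (block). `C = Icc a b \ T` connected: `v ∈ G`, or `v = p + 1`: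
left neighbour in `G` (it is `≤ p`, so in `C`); `v ≥ p + 2`: `v - 1 ∈ C`. Edges: for `t ∈ T` the left
neighbours of `t` in `C` are its left neighbours in `G`: exactly one. -/
def S_XA : Prop := S_XD → ∀ (m : ℕ → ℕ), Monotone m → ∀ (a b : ℕ) (G H : Finset ℕ), Blk m a b →
  Fw m a b G → Bw m a b H → ∀ s, 1 ≤ s → s + G.card ≤ b - a →
  ∃ T ⊆ Ioo a b, T.card = s ∧ cnc m T ∧ cnc m (Icc a b \ T) ∧ eCT m (Icc a b \ T) T ≤ s

/-- TASK XB1 (second kind). `C` = the first `w` elements of `G` (e.g. `G ∩ Icc a p`), `T = Icc a b \ C`.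
`C` connected: the left neighbour in `G` of a `v ∈ C` is smaller, so in `C`. `T` connected: for
`t ∈ T` not the first: `t - 1 ∈ T` or `t - 1 ∈ G`, then (`S_XD`) `t - 2 ∉ G`, `t - 2 ∈ T` adjacent
(`t - 1 ≠ a` as `t` is not the first). Edges: `∑_{t ∈ T} aL m C t = ∑_{t ∈ Ioc a b} aL m C t - (w - 1)`
(each `c ∈ C \ {a}` has exactly one left neighbour in `G`, it is in `C`), and
`∑_{t ∈ Ioc a b} aL m C t = (b - a) - ∑_{t ∈ Ioc a b} aL m (G \ C) t ≤ (b - a) - |G \ C|` (every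
`g ∈ G` is adjacent to `g + 1 ≤ b`). Together `≤ b - a - (|G| - w) - (w - 1)`. -/
def S_XB1 : Prop := S_XD → ∀ (m : ℕ → ℕ), Monotone m → ∀ (a b : ℕ) (G H : Finset ℕ), Blk m a b →
  Fw m a b G → Bw m a b H → ∀ w, 1 ≤ w → w ≤ G.card →
  ∃ T ⊆ Ioc a b, b ∈ T ∧ T.card + w = b - a + 1 ∧ cnc m T ∧ cnc m (Icc a b \ T) ∧
    eCT m (Icc a b \ T) T + G.card ≤ b - a + 1

/-- TASK XB2 (third kind, mirror image of XB1). `T` = the last `k` elements of `H`, `C = Icc a b \ T`.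
`T` connected: `t ∈ T` not the first: the largest `h ∈ T` below `t` has exactly one right neighbour in
`H`, which is the next element `t` of `H`. `C` connected: `v ∈ C`, `v ≠ a`: `v - 1 ∈ C`, or `v - 1 ∈ H`,
then `v - 2 ∉ H`, `v - 2 ≥ a`, `v - 2 ∈ C` adjacent. Edges (`eCT = ∑_{c ∈ C} aR m T c`):
`∑_{c ∈ Ico a b} aR m T c - (k - 1)` and
`∑_{c ∈ Ico a b} aR m T c = (b - a) - ∑_{c ∈ Ico a b} aR m (H \ T) c ≤ (b - a) - |H \ T|`. -/
def S_XB2 : Prop := S_XD → ∀ (m : ℕ → ℕ), Monotone m → ∀ (a b : ℕ) (G H : Finset ℕ), Blk m a b →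
  Fw m a b G → Bw m a b H → ∀ k, 1 ≤ k → k ≤ H.card →
  ∃ T ⊆ Ioc a b, b ∈ T ∧ T.card = k ∧ cnc m T ∧ cnc m (Icc a b \ T) ∧
    eCT m (Icc a b \ T) T + H.card ≤ b - a + 1

/-- the split at `p`: forward path up to `p`, after `p` everything outside of the backward path -/
def Cp (a b : ℕ) (G H : Finset ℕ) (p : ℕ) : Finset ℕ := (G ∩ Icc a p) ∪ (Icc (p + 1) b \ H)

/-- TASK XC1 (number of edges of the split). `T = Icc a b \ Cp = (Icc a p \ G) ∪ (H ∩ Icc (p+1) b)`.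
Edges into `t ∈ Icc a p \ G`: only from `G`, exactly one. Edges into `t ∈ H`, `t > p`: from
`G ∩ Icc a p`, or from `c ∈ Icc (p+1) b \ H`; every such `c` has exactly one right neighbour in `H`.
So `eCT = |Icc a p \ G| + |Icc (p+1) b \ H| + x`, `x` = number of pairs `g ∈ G`, `g ≤ p`, `h ∈ H`,
`p < h`, adjacent. The `h ∈ H`, `h > p` have exactly one left neighbour in `G`: `x` of them have it
`≤ p`, the others `> p`, and every `g ∈ G`, `g > p` has exactly one right neighbour in `H`: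
`x + |G ∩ Icc (p+1) b| = |H ∩ Icc (p+1) b|`. Hence
`eCT = (p - a + 1 - |G ∩ Icc a p|) + (b - p - |H ∩ Icc (p+1) b|) + x = b - a + 1 - |G|`. -/
def S_XC1 : Prop := ∀ (m : ℕ → ℕ), Monotone m → ∀ (a b : ℕ) (G H : Finset ℕ), Blk m a b →
  Fw m a b G → Bw m a b H → ∀ p, a ≤ p → p < b →
  eCT m (Cp a b G H p) (Icc a b \ Cp a b G H p) + G.card = b - a + 1

/-- TASK XC2 (connectedness of the split). `p` is good: `p = a` or `p` is not in both paths, and
`p + 1 = b` or `p + 1` is not in both paths. `C = Cp` connected: `v ∈ C`, `v ≠ a`. `v ≤ p`: left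
neighbour in `G`. `v > p`, `v ∉ H`: `v - 1 ∈ C`, or `v - 1 = p ∉ G`, or `v - 1 > p`, `v - 1 ∈ H`. If
`v - 1 > p` and `v - 1 ∈ H`: `v - 2 ∉ H` (`S_XD`), so if `v - 2 > p` it is in `C`, adjacent; otherwise
`v = p + 2`. In the cases `v = p + 1`, `v = p + 2` (`p + 1 ∈ H`): the left neighbour of `v` in `G` is
`≤ p`, because `p + 1 ∈ G ∩ H` is excluded (`p + 1 = v - 1 ≠ b`). `T` connected: `t ∈ T` not the
first of `T`. `t ≤ p`, `t ∉ G`: `t - 1 ∈ T`, or `t - 1 ∈ G`, then `t - 2 ∈ T` adjacent (`t - 1 ≠ a`).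
`t > p`, `t ∈ H`: if there is `h ∈ H`, `p < h < t`, the largest such `h` is adjacent to `t` (its
right neighbour in `H` is the next element of `H`). Otherwise `t` is the least element of `H` above
`p`; there is an element of `T` below `t`, so `Icc a p \ G` is nonempty, `p ≠ a`. If `p ∉ G`: `p ∈ T`,
its only right neighbour in `H` is `t`. If `p ∈ G`: `p ∉ H` (good), the right neighbour in `H` of
`p - 1` is the least element of `H` above `p - 1`, which is `t`; `p - 1 ∉ G` (`S_XD`), `p - 1 ∈ T`. -/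
def S_XC2 : Prop := S_XD → ∀ (m : ℕ → ℕ), Monotone m → ∀ (a b : ℕ) (G H : Finset ℕ), Blk m a b →
  Fw m a b G → Bw m a b H → ∀ p, a ≤ p → p < b → (p = a ∨ ¬ (p ∈ G ∧ p ∈ H)) →
  (p + 1 = b ∨ ¬ (p + 1 ∈ G ∧ p + 1 ∈ H)) →
  cnc m (Cp a b G H p) ∧ cnc m (Icc a b \ Cp a b G H p) ∧ b ∉ Cp a b G H p ∧ a ∈ Cp a b G H p

/-- TASK XC3 (sizes of the split). `φ p = |Cp p|`: `φ a = b - a + 1 - |H|`, `φ (b-1) = |G|`,
`φ (p+1) = φ p - 1 + [p+1 ∈ G] + [p+1 ∈ H]` (for `p + 1 < b`). Common vertices: `v ∈ G ∩ H`,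
`a < v < b`; then `v ≥ a + 2`, `v ≤ b - 2`, `v - 1, v + 1` are in neither path (`S_XD`; `a ∈ G`,
`b ∈ H`), so `φ (v-1) = φ (v-2) - 1`, `φ v = φ (v-2)`, `φ (v+1) = φ (v-2) - 1`. Let `p` be the least
index with `φ p ≤ w`: `φ p = w`, `p > a`, and `p` is not common (`φ (p-2) = φ p`). If `p + 1` is not
common, `p` is good. Otherwise use: (*) `v` common, `φ (v+1) = w` implies that there is a good `p` with
`φ p = w`: if `v + 2` is not common (or `v + 2 = b`), `p = v + 1`; otherwise `φ (v+3) = φ (v+1) = w` and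
(*) for `v + 2`; induction on `b - v`. -/
def S_XC3 : Prop := S_XD → ∀ (m : ℕ → ℕ), Monotone m → ∀ (a b : ℕ) (G H : Finset ℕ), Blk m a b →
  Fw m a b G → Bw m a b H → ∀ w, G.card < w → w + G.card < b - a + 1 →
  ∃ p, a ≤ p ∧ p < b ∧ (p = a ∨ ¬ (p ∈ G ∧ p ∈ H)) ∧ (p + 1 = b ∨ ¬ (p + 1 ∈ G ∧ p + 1 ∈ H)) ∧
    (Cp a b G H p).card = w

/-- TASK XBL (block lemma, from the previous ones; `S_XG` gives `G`, `H`; `M = b - a + 1 - |G|`; for
the second part `w = b - a + 1 - q`: `w ≤ |G|` XB1, `q ≤ |G|` XB2, otherwise XC1, XC2, XC3 with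
`T = Icc a b \ Cp`, `Icc a b \ T = Cp` as `Cp ⊆ Icc a b`). -/
def S_XBL : Prop := ∀ (m : ℕ → ℕ), Monotone m → ∀ a b : ℕ, Blk m a b →
  ∃ M, (∀ s, 1 ≤ s → s < M →
    ∃ T ⊆ Ioo a b, T.card = s ∧ cnc m T ∧ cnc m (Icc a b \ T) ∧ eCT m (Icc a b \ T) T ≤ s) ∧
  ∀ q, 1 ≤ q → q ≤ b - a →
    ∃ T ⊆ Ioc a b, b ∈ T ∧ T.card = q ∧ cnc m T ∧ cnc m (Icc a b \ T) ∧
      eCT m (Icc a b \ T) T ≤ M

/-- TASK XLN (the lemma for `range n`). `start i`: `i = 0` or `m (i-1) ≤ i`. `a` := the largest start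
with `a + s ≤ n - 1`, `b` := the least start `> a` with `b < n - 1`, or `n - 1` if there is none. Then
`Blk m a b` (for `a ≤ i`, `i + 2 ≤ b`: `i + 1` is not a start, `m i > i + 1`) and `n - 1 < b + s`.
`M` from `S_XBL`. If `s < M`: `T` of the first kind, `T ⊆ Ioo a b`; the complement in `range n` is
`range a ∪ (Icc a b \ T) ∪ Ioo b n`, connected; vertices `< a` have no neighbour `> a`, so the edges
are those of `Icc a b \ T` into `T`. If `s ≥ M`: `q = s - (n - 1 - b)`, `T = T0 ∪ Ioo b n`; if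
`b < n - 1` then `b` is a start and vertices `< b` have no neighbour `> b`: the edges from the
complement `range a ∪ (Icc a b \ T0)` into `T` are those into `T0`, at most `M ≤ s`. -/
def S_XLN : Prop := S_XBL → ∀ (m : ℕ → ℕ), Monotone m → ∀ n s : ℕ,
  (∀ i, i + 1 < n → i + 1 ≤ m i) → 1 ≤ s → s < n →
  ∃ T ⊆ range n, 0 ∉ T ∧ T.card = s ∧ cnc m T ∧ cnc m (range n \ T) ∧ eCT m (range n \ T) T ≤ s

/-- TASK XLT (for finite sets). `S = image f (range n)`, `n = |S|`, `f` strictly increasing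
(`Finset.orderEmbOfFin`, extended to `ℕ` by `f (n + i) = f (n-1) + 1 + i`), `m'` with
`j ≤ m' i ↔ f j ≤ m (f i)` for `i, j < n` (`SWK`, statement `S_RELm` in SWK/Spec.lean, theorem in
SWK/RELm.lean; or directly). Transport `T`: `aL m (image f A) (f i) = aL m' A i`. -/
def S_XLT : Prop := ∀ (m : ℕ → ℕ), Monotone m → ∀ (S : Finset ℕ) (r s : ℕ), cnc m S → r ∈ S →
  (∀ u ∈ S, r ≤ u) → 1 ≤ s → s < S.card →
  ∃ T ⊆ S, r ∉ T ∧ T.card = s ∧ cnc m T ∧ cnc m (S \ T) ∧ eCT m (S \ T) T ≤ s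

/-! ## Part 2: the coefficients -/

/-- all parts of `f` are at least `s` -/
def big {N : ℕ} (s : ℕ) (f : Fin N →₀ ℕ) : Prop := ∀ i : Fin N, 0 < f i → s ≤ (i : ℕ) + 1

/-- the chain for `U` -/
def PM (m : ℕ → ℕ) (N s : ℕ) (U : Finset ℕ) : Prop := ∀ f : Fin N →₀ ℕ, big s f →
  (∀ j : ℕ, j + cn m U + 1 ≤ len f + s → 0 ≤ (cf m N U f).coeff j) ∧
  (U.Nonempty → ∀ j : ℕ, j + cn m U + 2 ≤ len f + s →
    (cf m N U f).coeff j ≤ (cf m N U f).coeff (j + 1))

/-- TASK YZ (fewer parts than components). Strong induction on `|U|` by `All.rc`: `(1 - X) * cf = ∑ ..`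
and `1 - X ≠ 0`, so all terms should be zero: `Pi = 0` unless `C` is connected (`cnc`); then
`cn U ≤ cn (U \ C) + 1` (a `v ∈ U` with `aL m U v = 0` is in `U \ C` with `aL m (U \ C) v = 0`, or in
`C`, and then it is the first element `r` of `C`); `cfd` is a sum of `cf (U \ C) f'` with
`len f' + 1 = len f`. -/
def S_YZ : Prop := ∀ (m : ℕ → ℕ), Monotone m → ∀ (N : ℕ) (U : Finset ℕ), U.card ≤ N →
  ∀ f : Fin N →₀ ℕ, len f < cn m U → cf m N U f = 0

/-- TASK YP (from the top index to `PM`). `U = ∅`: `Ph = 1`, coefficients of `1` are `≥ 0`. `U`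
nonempty: `f = 0`: `cf = 0` by `S_YZ` (`cn m U ≥ 1`: the first vertex). `f ≠ 0`: second statement:
`j + cn + 2 < len f + s`: `All.inc`; `=`: hypothesis. First statement: `j + cn + 1 < len f + s`:
`All.inc`; `=` and `j ≥ 1`: `coeff j ≥ coeff (j-1) ≥ 0` (`All.inc` for `j - 1`); `j = 0`: `All.three`. -/
def S_YP : Prop := S_YZ → ∀ (m : ℕ → ℕ), Monotone m → ∀ (N : ℕ) (U : Finset ℕ) (s : ℕ),
  U.card ≤ N → 1 ≤ s → (U.Nonempty → ∀ f : Fin N →₀ ℕ, big s f → f ≠ 0 → ∀ j : ℕ,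
    j + cn m U + 2 = len f + s → (cf m N U f).coeff j ≤ (cf m N U f).coeff (j + 1)) → PM m N s U

/-- TASK YU (disjoint unions). `Ph (A ∪ B) = Ph A * Ph B`, `cn` adds (see LOW/PRD.lean). `coeff f` of the
product: sum over `(g, g') ∈ antidiagonal f` (both `big s`) of `cf A g * cf B g'`. With
`λ = len g - cn A`, `μ = len g' - cn B` (if one of them is negative the product is 0 by `S_YZ`): the
coefficients `α_i` of `cf A g` are 0 for `i < λ` (`All.ord`), `≥ 0` for `i ≤ λ + s - 1`, increasing up to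
`λ + s - 1`, same for `β` with `μ`; then `γ = αβ` satisfies `γ_(j+1) - γ_j = α_0 β_(j+1) +
∑_(i ≤ j) (α_(i+1) - α_i) β_(j-i) ≥ 0` for `j + 1 ≤ λ + μ + s - 1`: nonzero terms have `i + 1 ≥ λ` and
`j - i ≥ μ`, so `i + 1 ≤ λ + s - 1`, `j - i ≤ μ + s - 1`; `α_0 β_(j+1)` is zero if `λ ≥ 1`, and if `λ = 0`,
`j + 1 ≤ μ + s - 1`. Nonnegativity of `γ_j`, `j ≤ λ + μ + s - 1`: `α_i β_(j-i)`, `i ≥ λ`, `j - i ≥ μ`. -/
def S_YU : Prop := S_YZ → ∀ (m : ℕ → ℕ), Monotone m → ∀ (N s : ℕ) (A B : Finset ℕ), A.Nonempty →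
  B.Nonempty → (∀ u ∈ A, ∀ v ∈ B, u < v ∧ m u < v) → (A ∪ B).card ≤ N → 1 ≤ s → PM m N s A →
  PM m N s B → PM m N s (A ∪ B)

/-- TASK YN (the negative terms). `J + 2 = len f + s`. `cfd (U \ C) f |C|` is zero if `|C|` is not a part
(so `|C| ≥ s` otherwise), `Pi = 0` if `C` is not connected. The coefficients of `cf (U \ C) f'`
(`len f' + 1 = len f`) below `len f' - c'`, `c' = cn (U \ C)`, are zero, `c' ≤ 1 + eb` (`tCNT`). So the
coefficient at `J` is zero if `|C| > s`, and for `|C| = s` it is zero unless `c' = eb + 1`, and then it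
is `Pi(0) = 1` times the coefficient of index `len f' - c'` of `cfd`, i.e. `Lwd (U \ C) f s` (zero
if `c' > len f'`). `C = U`: `c' = 0 ≠ eb + 1`, so zero. Let `C ≠ U`. If every `u ∈ U \ C` is larger than
all elements of `C`: `eb = 0`, `c' = 1`: the value is `Lwd`. Otherwise let `x = max C`,
`K = {u ∈ U \ C : u < x}`, nonempty. Every `u ∈ K` has a right neighbour in `C` (the least `c ∈ C` above
`u` has a left neighbour in `C`, which is `< u`, so `c ≤ m u`), hence `eb ≥ |K|`. `cn (U \ C)` is also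
the number of the `u ∈ U \ C` with `aR m (U \ C) u = 0` (see LOW/CNT.lean), and at most one of them
is larger than `x` (the elements of `U` above `x` are consecutive in the connected set `U`). If
`c' = eb + 1`, all `u ∈ K` have `aR m (U \ C) u = 0`; so the least element `v` of `U \ C` is isolated
in `U \ C` and `tISO All.phi` gives `Lw (U \ C) f' = 0`, as `f'` has no part 1 (`s ≥ 2`). -/
def S_YN : Prop := ∀ (m : ℕ → ℕ), Monotone m → ∀ (N : ℕ) (U : Finset ℕ) (r s J : ℕ), r ∈ U →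
  (∀ u ∈ U, r ≤ u) → U.card ≤ N → cn m U = 1 → 2 ≤ s → ∀ f : Fin N →₀ ℕ, big s f →
  J + 2 = len f + s → ∀ C ⊆ U, r ∈ C →
  (Pi m (Polynomial.X : Polynomial ℤ) r C * Polynomial.X ^ (C.card + eb m U C) *
    cfd m N (U \ C) f C.card).coeff J =
  if C.card = s ∧ C ≠ U ∧ ∀ u ∈ U \ C, ∀ v ∈ C, v < u then Lwd m N (U \ C) f s else 0

/-- TASK YQ (the positive terms are nonnegative). `c' = cn (U \ C) ≤ ea` (`tCNT`, `cn U = 1`); in
`Pi * X^ea * cf (U \ C) f'` only coefficients of `cf (U \ C) f'` of index `j' ≤ J - ea` occur,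
`j' + c' + 1 ≤ J + 1 = len f' + s`: nonnegative by `PM`; `Pi` has nonnegative coefficients. `f'` is
`big s`. -/
def S_YQ : Prop := ∀ (m : ℕ → ℕ), Monotone m → ∀ (N : ℕ) (U : Finset ℕ) (r s J : ℕ), r ∈ U →
  (∀ u ∈ U, r ≤ u) → U.card ≤ N → cn m U = 1 → ∀ f : Fin N →₀ ℕ, big s f →
  J + 2 = len f + s → (∀ V ⊆ U, V ≠ U → PM m N s V) → ∀ C ⊆ U, r ∈ C →
  0 ≤ (Pi m (Polynomial.X : Polynomial ℤ) r C * Polynomial.X ^ ea m U C *
    cfd m N (U \ C) f C.card).coeff J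

/-- TASK YL (lower bound by one cluster). `len g < cn V`: then `len g - 1 < cn (V \ T)`, both sides are
zero. Otherwise take the coefficient of index `d = len g - cn V` in `All.rc` for `V`: left
`a_d - a_(d-1) = Lw V g` (`All.ord`). Negative terms: zero, since `|C| ≥ 2` (no part 1) and
`cn (V \ C) ≤ cn V + eb` (`tCNT`). Positive terms: `cn (V \ C) + 1 ≤ cn V + ea`: only the lowest
coefficient of `cf (V \ C) g'` can contribute, with the factor `Pi(0) ∈ {0, 1}`: `≥ 0` by `All.nng`;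
for `C = T` (`Pi(0) = 1` as `cnc m T`) it is `Lwd (V \ T) g |T|`. Compare LOW/LWR.lean. -/
def S_YL : Prop := ∀ (m : ℕ → ℕ), Monotone m → ∀ (N : ℕ) (V T : Finset ℕ) (r : ℕ), r ∈ T → T ⊆ V →
  (∀ u ∈ V, r ≤ u) → V.card ≤ N → cnc m T → ea m V T + cn m V = cn m (V \ T) + 1 →
  ∀ g : Fin N →₀ ℕ, big 2 g → Lwd m N (V \ T) g T.card ≤ Lw m N V g

/-- TASK YO (lowest coefficient without a part 1: initial clusters). `D` with `Ok`, `w1 ∈ D`, and some
`v ∈ W \ D`, `v < max D`. As in (M) of LOW/BIJ.lean (`BIJ` module, `ok_iff`-type lemma): every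
`v ∈ W \ D` has `aL m D v = if aL m (W \ D) v = 0 then 1 else 0`. `v` is adjacent to the largest `d ∈ D`
below and to the least `d' ∈ D` above `v`. So `aL m D v ≥ 1`, `aL m (W \ D) v = 0`. A right neighbour
`v'` of `v` in `W \ D` has `aL m (W \ D) v' > 0`, so `aL m D v' = 0`, but `d` (if `v' < d'`) or `d'`
(if `v' > d'`) is adjacent to `v'`. So `v` is isolated in `W \ D`, `W \ D = A ∪ ({v} ∪ B)`, `Ph` is
divisible by `X 0` (`All.phi` (4), (5)), and the coefficient of every `g'` without part 1 is zero. -/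
def S_YO : Prop := ∀ (m : ℕ → ℕ), Monotone m → ∀ (N : ℕ) (W D : Finset ℕ) (r : ℕ), r ∈ D → D ⊆ W →
  (∀ u ∈ W, r ≤ u) → W.card ≤ N → cn m W = 1 → Ok m W D → ∀ g : Fin N →₀ ℕ, big 2 g →
  Lwd m N (W \ D) g D.card ≠ 0 → ∀ u ∈ W \ D, ∀ v ∈ D, v < u

/-- TASK YE (one cluster, the main step). `U` connected, `R` the first `s` vertices, `R ≠ U`, `D` an
initial segment of `W = U \ R` with `Ok m W D`, `|D| ≥ 2`. `S = R ∪ D` is an initial segment of `U`,
`P = U \ S` is connected (`cn P = 1`) or empty. No vertex of `R` is adjacent to a vertex of `P`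
(otherwise all vertices of `D` are, `≥ 2` edges into one vertex, but
`ea m W D = cn m P ≤ 1`). `S_XLT` for `S` gives `T`, `C = S \ T`, `|C| = |D|`, `r ∈ C`. `V = U \ C = T ∪ P`.
`x = ∑_{v ∈ P} aL m C v`, `y = ∑_{v ∈ P} aL m T v`, `x + y = cn P`; `cn V = 1 + x` (`P` empty: `1`;
`y = 1`: connected; `y = 0`, `P ≠ ∅`: `2`), `ea m U C = eCT m C T + x`, `ea m V T = y`. `1 ≤ eCT ≤ s`
(the first vertex of `T` has a left neighbour in `S`, it is in `C`). `J - ea m U C ≥ len f - 1 - cn V`,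
difference `s - eCT ≤ s - 1`. Coefficient at `J` of `Pi_C * X^ea * cf V f'`, `f' = f - single k 1`
(`k = |D|`): `Pi_C(0) = 1`, all other contributions `≥ 0` (`PM` for `V`), so it is at least the
coefficient of index `J - ea` of `cf V f'`, which by the chain (`PM`, second part, `V` nonempty,
indices up to `len f' - cn V + s - 1`) is at least the one of index `len f' - cn V`, i.e.
`Lw V f'` (if `cn V ≤ len f'`; otherwise `Lw = 0` and the term is `≥ 0` by `S_YQ`), and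
`S_YL`: `Lw V f' ≥ Lwd (V \ T) f' s = Lw P (f' - single s 1)`. (`i, i'` with `i + 1 = s`,
`i' + 1 = |D|`; the hypothesis `0 < g i'` for `g = f - single i 1`.) -/
def S_YE : Prop := S_XLT → S_YQ → S_YL → ∀ (m : ℕ → ℕ), Monotone m →
  ∀ (N : ℕ) (U R D : Finset ℕ) (r s J : ℕ), r ∈ U → (∀ u ∈ U, r ≤ u) → U.card ≤ N → cn m U = 1 →
  2 ≤ s → ∀ f : Fin N →₀ ℕ, big s f → J + 2 = len f + s → (∀ V ⊆ U, V ≠ U → PM m N s V) →
  R ⊆ U → R.card = s → R ≠ U → (∀ u ∈ U \ R, ∀ v ∈ R, v < u) →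
  D ⊆ U \ R → D.Nonempty → (∀ u ∈ (U \ R) \ D, ∀ v ∈ D, v < u) → Ok m (U \ R) D →
  ∀ i : Fin N, (i : ℕ) + 1 = s → 0 < f i →
  Lwd m N ((U \ R) \ D) (f - Finsupp.single i 1) D.card ≠ 0 →
  ∃ C ⊆ U, r ∈ C ∧ C.card = D.card ∧ Lwd m N ((U \ R) \ D) (f - Finsupp.single i 1) D.card ≤
    (Pi m (Polynomial.X : Polynomial ℤ) r C * Polynomial.X ^ ea m U C *
      cfd m N (U \ C) f C.card).coeff J

/-- TASK YK (sum over the clusters). `Lwd W f s = Lw W g`, `g = f - single i 1`, `i + 1 = s`, if `s` is a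
part, else `0` (then use `S_YQ`). `W = U \ R` is connected (final segment). `|W| = 1`: `Lw W g = 0`
(`Ph = X 0`, no part 1). `|W| ≥ 2`: `tLWR All.rc tCNT All.ord` for `W`: the subtracted term is zero (no
part 1), the nonzero terms `D` are initial segments (`S_YO`), so determined by `|D|`; `S_YE` gives for
each a `C` with `|C| = |D|`, so different ones; the other terms of the right side are `≥ 0` by
`S_YQ`. -/
def S_YK : Prop := S_YO → S_YE → S_XLT → S_YQ → S_YL → ∀ (m : ℕ → ℕ), Monotone m →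
  ∀ (N : ℕ) (U R : Finset ℕ) (r s J : ℕ), r ∈ U → (∀ u ∈ U, r ≤ u) → U.card ≤ N → cn m U = 1 →
  2 ≤ s → ∀ f : Fin N →₀ ℕ, big s f → J + 2 = len f + s → (∀ V ⊆ U, V ≠ U → PM m N s V) →
  R ⊆ U → R.card = s → R ≠ U → (∀ u ∈ U \ R, ∀ v ∈ R, v < u) →
  Lwd m N (U \ R) f s ≤ ∑ C ∈ U.powerset.filter (fun C => r ∈ C),
    (Pi m (Polynomial.X : Polynomial ℤ) r C * Polynomial.X ^ ea m U C *
      cfd m N (U \ C) f C.card).coeff J

/-- TASK YC (connected graphs). By `S_YP` only the top index: `j + cn m U + 2 = len f + s`, `cn m U = 1`;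
`J = j + 1`. `coeff (j+1) - coeff j = ((1 - X) * cf).coeff J` = (`All.rc`, `wC` as a difference) sum of
the positive terms minus the sum of the negative terms (`S_YN`): at most one `C` with
`C.card = s ∧ C ≠ U ∧ ..` exists (initial segment); if there is none, `S_YQ`; if there is one, `S_YK`. -/
def S_YC : Prop := S_YP → S_YZ → S_YN → S_YQ → S_YK → S_YO → S_YE → S_XLT → S_YL →
  ∀ (m : ℕ → ℕ), Monotone m → ∀ (N s : ℕ) (U : Finset ℕ), 2 ≤ s → U.card ≤ N → cn m U = 1 →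
  (∀ V ⊆ U, V ≠ U → PM m N s V) → PM m N s U

/-- The chain for all graphs. -/
def S_YA : Prop := ∀ (m : ℕ → ℕ), Monotone m → ∀ (N s : ℕ) (U : Finset ℕ), 2 ≤ s → U.card ≤ N →
  PM m N s U

/-- TASK YI (induction). Strong induction on `|U|`. `U = ∅`: `S_YP`. `tSPLT`: connected: hypothesis;
`U = A ∪ B`: hypothesis. (The hypotheses are the conclusions of `S_YC` and `S_YU`.) -/
def S_YI : Prop := S_YP → S_YZ →
  (∀ (m : ℕ → ℕ), Monotone m → ∀ (N s : ℕ) (U : Finset ℕ), 2 ≤ s → U.card ≤ N → cn m U = 1 →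
    (∀ V ⊆ U, V ≠ U → PM m N s V) → PM m N s U) →
  (∀ (m : ℕ → ℕ), Monotone m → ∀ (N s : ℕ) (A B : Finset ℕ), A.Nonempty →
    B.Nonempty → (∀ u ∈ A, ∀ v ∈ B, u < v ∧ m u < v) → (A ∪ B).card ≤ N → 1 ≤ s → PM m N s A →
    PM m N s B → PM m N s (A ∪ B)) → S_YA

/-- THE THEOREM. -/
def S_EXT : Prop := ∀ (n : ℕ) (h : Fin n → Fin n), Monotone h → (∀ i, i ≤ h i) →
    ∀ E c : ℕ, E = (Finset.univ.filter (fun p : Fin n × Fin n => p.1 < p.2 ∧ p.2 ≤ h p.1)).card →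
    c = (Finset.univ.filter (fun i : Fin n => ∀ j : Fin n, j < i → h j < i)).card →
    ∃ a : Nat.Partition n → Polynomial ℤ,
      ((∑ κ ∈ (Finset.univ.filter
            (fun κ : Fin n → Fin n => ∀ i j : Fin n, i < j → j ≤ h i → κ i ≠ κ j)),
          MvPolynomial.C (Polynomial.X ^ ((Finset.univ.filter
            (fun p : Fin n × Fin n => p.1 < p.2 ∧ p.2 ≤ h p.1 ∧ κ p.1 < κ p.2)).card))
            * ∏ i : Fin n, MvPolynomial.X (κ i) : MvPolynomial (Fin n) (Polynomial ℤ))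
        = ∑ μ : Nat.Partition n, MvPolynomial.C (a μ) *
            (μ.parts.map (fun k => MvPolynomial.esymm (Fin n) (Polynomial ℤ) k)).prod)
      ∧ ∀ μ : Nat.Partition n,
          (∀ j : ℕ, j + c < Multiset.card μ.parts → (a μ).coeff j = 0)
          ∧ (∀ s ∈ μ.parts, (∀ p ∈ μ.parts, s ≤ p) → ∀ i j : ℕ, i ≤ j →
            j + c + 1 ≤ Multiset.card μ.parts + s →
            0 ≤ (a μ).coeff i ∧ (a μ).coeff i ≤ (a μ).coeff j)
          ∧ (∀ j : ℕ, j ≤ 2 → 0 ≤ (a μ).coeff j)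
          ∧ (c = 1 → 4 ≤ E → (a μ).coeff 0 ≤ (a μ).coeff 1 ∧ (a μ).coeff 1 ≤ (a μ).coeff 2)

/-- TASK YF (final form; copy LOW/END.lean). Chain for `s ≥ 2`: `S_YA` (`n ≥ 1`, `range n` nonempty since
`s ∈ μ.parts`), `Nat.le_induction`. `s = 1`: `j + c ≤ card`: coefficients below `card - c` are zero
(`All.ord`), the one of index `card - c` is `Lw ≥ 0` (`All.nng`). -/
def S_YF : Prop := S_YA → S_EXT

end Pool.Agent.LOW
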