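import Pool.Agent.Lib.MP_263316_co.EX.Spec

/-!
MP_263316_co, project EX, task XC1 (version of helper95): the number of edges of the split.
-/

set_option autoImplicit false

namespace Pool.Agent.LOW

open Finset Pool.Agent.SWC

namespace XC1aux

theorem aL_union (m : ℕ → ℕ) {A B : Finset ℕ} (h : Disjoint A B) (v : ℕ) :
    aL m (A ∪ B) v = aL m A v + aL m B v := by
  unfold aL
  rw [filter_union, card_union_of_disjoint (disjoint_filter_filter h)]

theorem dbl (m : ℕ → ℕ) (A B : Finset ℕ) :
    ∑ t ∈ B, aL m A t = ∑ c ∈ A, aR m B c := by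
  unfold aL aR
  simp only [card_filter]
  rw [sum_comm]

theorem aL_congr (m : ℕ → ℕ) {A B : Finset ℕ} (v : ℕ) (h : ∀ u, u < v → (u ∈ A ↔ u ∈ B)) :
    aL m A v = aL m B v := by
  unfold aL
  congr 1
  ext u
  simp only [mem_filter]
  constructor
  · rintro ⟨h1, h2⟩
    exact ⟨(h u h2.1).1 h1, h2⟩
  · rintro ⟨h1, h2⟩
    exact ⟨(h u h2.1).2 h1, h2⟩

theorem aR_congr (m : ℕ → ℕ) {A B : Finset ℕ} (v : ℕ) (h : ∀ u, v < u → (u ∈ A ↔ u ∈ B)) :
    aR m A v = aR m B v := by
  unfold aR
  congr 1
  ext u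
  simp only [mem_filter]
  constructor
  · rintro ⟨h1, h2⟩
    exact ⟨(h u h2.1).1 h1, h2⟩
  · rintro ⟨h1, h2⟩
    exact ⟨(h u h2.1).2 h1, h2⟩

end XC1aux

open XC1aux in
theorem tXC1 : S_XC1 := by
  intro m _ a b G H hB hF hW p hap hpb
  obtain ⟨hGs, haG, hG1⟩ := hF
  obtain ⟨hHs, hbH, hH1⟩ := hW
  set G1 := G ∩ Icc a p with hG1d
  set G2 := G \ Icc a p with hG2d
  set H2 := H ∩ Icc (p + 1) b with hH2d
  set E := Icc (p + 1) b \ H with hEd
  set A := Icc a p \ G with hAd
  have hGm : ∀ u ∈ G, a ≤ u ∧ u < b := fun u hu => by simpa using hGs hu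
  have hHm : ∀ u ∈ H, a < u ∧ u ≤ b := fun u hu => by simpa using hHs hu
  have hT : Icc a b \ Cp a b G H p = A ∪ H2 := by
    ext u
    simp only [Cp, hAd, hH2d, mem_sdiff, mem_union, mem_inter, mem_Icc]
    constructor
    · rintro ⟨h1, h2⟩
      by_cases h : u ≤ p
      · left
        refine ⟨⟨h1.1, h⟩, fun h3 => h2 (Or.inl ⟨h3, h1.1, h⟩)⟩
      · right
        refine ⟨?_, by omega, h1.2⟩
        by_contra h3
        exact h2 (Or.inr ⟨⟨by omega, h1.2⟩, h3⟩)
    · rintro (⟨h1, h2⟩ | ⟨h1, h2⟩)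
      · refine ⟨⟨h1.1, by omega⟩, ?_⟩
        rintro (h3 | h3)
        · exact h2 h3.1
        · omega
      · refine ⟨⟨by omega, h2.2⟩, ?_⟩
        rintro (h3 | h3)
        · omega
        · exact h3.2 h1
  have hAH : Disjoint A H2 := by
    rw [disjoint_left]
    intro u h1 h2
    simp only [hAd, hH2d, mem_sdiff, mem_inter, mem_Icc] at h1 h2
    omega
  have hGE : Disjoint G1 E := by
    rw [disjoint_left]
    intro u h1 h2
    simp only [hG1d, hEd, mem_sdiff, mem_inter, mem_Icc] at h1 h2
    omega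
  have s1 : ∑ t ∈ A, aL m (Cp a b G H p) t = A.card := by
    rw [card_eq_sum_ones]
    refine sum_congr rfl fun t ht => ?_
    simp only [hAd, mem_sdiff, mem_Icc] at ht
    have hta : a < t := by
      rcases Nat.lt_or_ge a t with h | h
      · exact h
      · exact absurd ((show a = t by omega) ▸ haG) ht.2
    rw [← hG1 t hta (by omega)]
    refine aL_congr m t fun u hu => ?_
    simp only [Cp, mem_union, mem_inter, mem_sdiff, mem_Icc]
    constructor
    · rintro (h | h)
      · exact h.1
      · omega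
    · intro h
      exact Or.inl ⟨h, (hGm u h).1, by omega⟩
  have s2 : ∑ t ∈ H2, aL m E t = E.card := by
    rw [dbl, card_eq_sum_ones]
    refine sum_congr rfl fun c hc => ?_
    simp only [hEd, mem_sdiff, mem_Icc] at hc
    have hcb : c < b := by
      rcases Nat.lt_or_ge c b with h | h
      · exact h
      · exact absurd ((show b = c by omega) ▸ hbH) hc.2
    rw [← hH1 c (by omega) hcb]
    refine aR_congr m c fun u hu => ?_
    simp only [hH2d, mem_inter, mem_Icc]
    constructor
    · exact fun h => h.1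
    · exact fun h => ⟨h, by omega, (hHm u h).2⟩
  have s3 : ∑ t ∈ H2, aL m G1 t + G2.card = H2.card := by
    have e1 : G2.card = ∑ t ∈ H2, aL m G2 t := by
      rw [dbl, card_eq_sum_ones]
      refine sum_congr rfl fun g hg => ?_
      simp only [hG2d, mem_sdiff, mem_Icc] at hg
      have := hGm g hg.1
      rw [← hH1 g this.1 this.2]
      refine aR_congr m g fun u hu => ?_
      simp only [hH2d, mem_inter, mem_Icc]
      constructor
      · exact fun h => ⟨h, by omega, (hHm u h).2⟩
      · exact fun h => h.1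
    rw [e1, ← sum_add_distrib, card_eq_sum_ones]
    refine sum_congr rfl fun t ht => ?_
    have h1 := aL_union m (A := G1) (B := G2) (by
      rw [hG1d, hG2d]
      exact disjoint_left.2 fun u h1 h2 => (mem_sdiff.1 h2).2 (mem_inter.1 h1).2) t
    rw [← h1]
    have h2 : G1 ∪ G2 = G := by
      rw [hG1d, hG2d]
      ext u
      simp only [mem_union, mem_inter, mem_sdiff]
      tauto
    rw [h2]
    simp only [hH2d, mem_inter] at ht
    exact hG1 t (hHm t ht.1).1 (hHm t ht.1).2
  have hsum : eCT m (Cp a b G H p) (Icc a b \ Cp a b G H p) =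
      A.card + (∑ t ∈ H2, aL m G1 t + E.card) := by
    unfold eCT
    rw [hT, sum_union hAH, s1, ← s2, ← sum_add_distrib]
    congr 1
    refine sum_congr rfl fun t _ => ?_
    exact aL_union m hGE t
  have c1 : A.card + G1.card = p + 1 - a := by
    rw [hAd, hG1d, inter_comm, card_sdiff_add_card_inter, Nat.card_Icc]
  have c2 : E.card + H2.card = b - p := by
    rw [hEd, hH2d, inter_comm, card_sdiff_add_card_inter, Nat.card_Icc]
    omega
  have c3 : G2.card + G1.card = G.card := by
    rw [hG1d, hG2d, card_sdiff_add_card_inter]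
  rw [hsum]
  omega

end Pool.Agent.LOW
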