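import Pool.Agent.Lib.MP_263316_co.EX.Spec

/-!
MP_263316_co, project EX, module XG (helper69): forward and backward paths of a connected interval.
-/

set_option autoImplicit false

namespace Pool.Agent.LOW

open Finset Pool.Agent.SWC

namespace XGaux

lemma aL_one {m : ℕ → ℕ} {G : Finset ℕ} {v : ℕ} : aL m G v = 1 ↔
    ∃ g, (g ∈ G ∧ g < v ∧ v ≤ m g) ∧ ∀ u ∈ G, u < v → v ≤ m u → u = g := by
  unfold aL
  rw [Finset.card_eq_one]
  constructor
  · rintro ⟨g, hg⟩
    have h1 : g ∈ G.filter (fun u => u < v ∧ v ≤ m u) := by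
      rw [hg]
      exact Finset.mem_singleton_self g
    refine ⟨g, Finset.mem_filter.1 h1, fun u hu h2 h3 => ?_⟩
    have h4 : u ∈ G.filter (fun u => u < v ∧ v ≤ m u) := Finset.mem_filter.2 ⟨hu, h2, h3⟩
    rw [hg] at h4
    exact Finset.mem_singleton.1 h4
  · rintro ⟨g, hg, hu⟩
    refine ⟨g, ?_⟩
    ext u
    rw [Finset.mem_filter, Finset.mem_singleton]
    constructor
    · rintro ⟨h1, h2, h3⟩
      exact hu u h1 h2 h3
    · rintro rfl
      exact hg

lemma aR_one {m : ℕ → ℕ} {G : Finset ℕ} {v : ℕ} : aR m G v = 1 ↔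
    ∃ g, (g ∈ G ∧ v < g ∧ g ≤ m v) ∧ ∀ u ∈ G, v < u → u ≤ m v → u = g := by
  unfold aR
  rw [Finset.card_eq_one]
  constructor
  · rintro ⟨g, hg⟩
    have h1 : g ∈ G.filter (fun u => v < u ∧ u ≤ m v) := by
      rw [hg]
      exact Finset.mem_singleton_self g
    refine ⟨g, Finset.mem_filter.1 h1, fun u hu h2 h3 => ?_⟩
    have h4 : u ∈ G.filter (fun u => v < u ∧ u ≤ m v) := Finset.mem_filter.2 ⟨hu, h2, h3⟩
    rw [hg] at h4
    exact Finset.mem_singleton.1 h4
  · rintro ⟨g, hg, hu⟩
    refine ⟨g, ?_⟩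
    ext u
    rw [Finset.mem_filter, Finset.mem_singleton]
    constructor
    · rintro ⟨h1, h2, h3⟩
      exact hu u h1 h2 h3
    · rintro rfl
      exact hg

lemma fwd (m : ℕ → ℕ) (hm : Monotone m) (a k : ℕ)
    (h : ∀ i, a ≤ i → i < a + 1 + k → i + 1 ≤ m i) : ∃ G, Fw m a (a + 1 + k) G := by
  induction k with
  | zero =>
    refine ⟨{a}, ?_, Finset.mem_singleton_self a, fun v h1 h2 => ?_⟩
    · intro x hx
      rw [Finset.mem_singleton] at hx
      rw [Finset.mem_Ico]
      omega
    · have hv : v = a + 1 := by omega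
      subst hv
      refine aL_one.2 ⟨a, ⟨Finset.mem_singleton_self a, by omega, h a le_rfl (by omega)⟩, ?_⟩
      intro u hu _ _
      exact Finset.mem_singleton.1 hu
  | succ k ih =>
    obtain ⟨G, hG, haG, hG1⟩ := ih (fun i h1 h2 => h i h1 (by omega))
    obtain ⟨b, hb⟩ : ∃ b, b = a + 1 + k := ⟨_, rfl⟩
    rw [← hb] at hG hG1
    have hb' : a + 1 + (k + 1) = b + 1 := by omega
    rw [hb']
    obtain ⟨p, ⟨hpG, hpb, hbp⟩, hpu⟩ := aL_one.1 (hG1 b (by omega) le_rfl)
    have hmax : ∀ u ∈ G, u ≤ p := by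
      intro u hu
      by_contra hc
      have h1 : u < b := (Finset.mem_Ico.1 (hG hu)).2
      have h2 : b ≤ m u := le_trans hbp (hm (by omega))
      have := hpu u hu h1 h2
      omega
    by_cases hc : b + 1 ≤ m p
    · refine ⟨G, fun x hx => ?_, haG, fun v h1 h2 => ?_⟩
      · have := Finset.mem_Ico.1 (hG hx)
        rw [Finset.mem_Ico]
        omega
      · by_cases hv : v ≤ b
        · exact hG1 v h1 hv
        · have hv' : v = b + 1 := by omega
          subst hv'
          refine aL_one.2 ⟨p, ⟨hpG, by omega, hc⟩, fun u hu _ h3 => ?_⟩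
          exact hpu u hu (Finset.mem_Ico.1 (hG hu)).2 (by omega)
    · refine ⟨insert b G, fun x hx => ?_, Finset.mem_insert_of_mem haG, fun v h1 h2 => ?_⟩
      · rw [Finset.mem_Ico]
        rcases Finset.mem_insert.1 hx with hx | hx
        · omega
        · have := Finset.mem_Ico.1 (hG hx)
          omega
      · by_cases hv : v ≤ b
        · obtain ⟨g, ⟨hg1, hg2, hg3⟩, hgu⟩ := aL_one.1 (hG1 v h1 hv)
          refine aL_one.2 ⟨g, ⟨Finset.mem_insert_of_mem hg1, hg2, hg3⟩, fun u hu h3 h4 => ?_⟩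
          rcases Finset.mem_insert.1 hu with hu | hu
          · omega
          · exact hgu u hu h3 h4
        · have hv' : v = b + 1 := by omega
          subst hv'
          refine aL_one.2 ⟨b, ⟨Finset.mem_insert_self b G, by omega,
            h b (by omega) (by omega)⟩, fun u hu _ h4 => ?_⟩
          rcases Finset.mem_insert.1 hu with hu | hu
          · exact hu
          · have h5 : m u ≤ m p := hm (hmax u hu)
            omega

lemma bwd (m : ℕ → ℕ) (hm : Monotone m) (k : ℕ) : ∀ a : ℕ,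
    (∀ i, a ≤ i → i < a + 1 + k → i + 1 ≤ m i) → ∃ H, Bw m a (a + 1 + k) H := by
  induction k with
  | zero =>
    intro a h
    refine ⟨{a + 1}, ?_, Finset.mem_singleton_self _, fun v h1 h2 => ?_⟩
    · intro x hx
      rw [Finset.mem_singleton] at hx
      rw [Finset.mem_Ioc]
      omega
    · have hv : v = a := by omega
      subst hv
      refine aR_one.2 ⟨v + 1, ⟨Finset.mem_singleton_self _, by omega, h v le_rfl (by omega)⟩, ?_⟩
      intro u hu _ _
      exact Finset.mem_singleton.1 hu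
  | succ k ih =>
    intro a h
    obtain ⟨H, hH, hbH, hH1⟩ := ih (a + 1) (fun i h1 h2 => h i (by omega) (by omega))
    obtain ⟨b, hb⟩ : ∃ b, b = a + 1 + (k + 1) := ⟨_, rfl⟩
    have hb' : a + 1 + 1 + k = b := by omega
    rw [hb'] at hH hbH hH1
    rw [← hb]
    obtain ⟨p, ⟨hpH, hpa, hap⟩, hpu⟩ := aR_one.1 (hH1 (a + 1) le_rfl (by omega))
    have hmin : ∀ u ∈ H, p ≤ u := by
      intro u hu
      by_contra hc
      have h1 : a + 1 < u := (Finset.mem_Ioc.1 (hH hu)).1
      have := hpu u hu h1 (by omega)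
      omega
    have hmon : m a ≤ m (a + 1) := hm (by omega)
    by_cases hc : p ≤ m a
    · refine ⟨H, fun x hx => ?_, hbH, fun v h1 h2 => ?_⟩
      · have := Finset.mem_Ioc.1 (hH hx)
        rw [Finset.mem_Ioc]
        omega
      · by_cases hv : a + 1 ≤ v
        · exact hH1 v hv h2
        · have hv' : v = a := by omega
          subst hv'
          refine aR_one.2 ⟨p, ⟨hpH, by omega, hc⟩, fun u hu _ h3 => ?_⟩
          exact hpu u hu (Finset.mem_Ioc.1 (hH hu)).1 (by omega)
    · refine ⟨insert (a + 1) H, fun x hx => ?_, Finset.mem_insert_of_mem hbH, fun v h1 h2 => ?_⟩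
      · rw [Finset.mem_Ioc]
        rcases Finset.mem_insert.1 hx with hx | hx
        · omega
        · have := Finset.mem_Ioc.1 (hH hx)
          omega
      · by_cases hv : a + 1 ≤ v
        · obtain ⟨g, ⟨hg1, hg2, hg3⟩, hgu⟩ := aR_one.1 (hH1 v hv h2)
          refine aR_one.2 ⟨g, ⟨Finset.mem_insert_of_mem hg1, hg2, hg3⟩, fun u hu h3 h4 => ?_⟩
          rcases Finset.mem_insert.1 hu with hu | hu
          · omega
          · exact hgu u hu h3 h4
        · have hv' : v = a := by omega
          subst hv'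
          refine aR_one.2 ⟨v + 1, ⟨Finset.mem_insert_self _ H, by omega,
            h v le_rfl (by omega)⟩, fun u hu _ h4 => ?_⟩
          rcases Finset.mem_insert.1 hu with hu | hu
          · exact hu
          · have h5 : p ≤ u := hmin u hu
            omega

end XGaux

theorem tXG : S_XG := by
  intro m hm a b hab h
  obtain ⟨k, rfl⟩ : ∃ k, b = a + 1 + k := ⟨b - (a + 1), by omega⟩
  exact ⟨XGaux.fwd m hm a k h, XGaux.bwd m hm k a h⟩

end Pool.Agent.LOW
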