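import Pool.Agent.Lib.MP_263316_co.EX.Spec

/-!
Project EX, module XLT: the lemma for arbitrary connected finite sets (helper6).
-/

set_option autoImplicit false

namespace Pool.Agent.LOW

open Finset Pool.Agent.SWC

namespace XLTaux

/-- the relabelled function -/
def mm (m f : ℕ → ℕ) (n i : ℕ) : ℕ := ((range n).filter (fun j => f j ≤ m (f i))).card - 1

theorem mm_mono {m f : ℕ → ℕ} (hm : Monotone m) (hf : Monotone f) (n : ℕ) : Monotone (mm m f n) := by
  intro i i' h
  unfold mm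
  refine Nat.sub_le_sub_right (card_le_card ?_) 1
  intro j hj
  rw [mem_filter] at hj ⊢
  exact ⟨hj.1, hj.2.trans (hm (hf h))⟩

theorem mm_iff {m f : ℕ → ℕ} {n : ℕ} (hf : Monotone f) {i j : ℕ} (h0 : 0 < j) (hj : j < n) :
    j ≤ mm m f n i ↔ f j ≤ m (f i) := by
  unfold mm
  constructor
  · intro h
    by_contra hcon
    have h1 : (range n).filter (fun j => f j ≤ m (f i)) ⊆ range j := by
      intro k hk
      rw [mem_filter] at hk
      rw [mem_range]
      by_contra h2
      exact hcon ((hf (not_lt.1 h2)).trans hk.2)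
    have h2 := card_le_card h1
    rw [card_range] at h2
    omega
  · intro h
    have h1 : range (j + 1) ⊆ (range n).filter (fun j => f j ≤ m (f i)) := by
      intro k hk
      rw [mem_range] at hk
      rw [mem_filter, mem_range]
      exact ⟨by omega, (hf (by omega)).trans h⟩
    have h2 := card_le_card h1
    rw [card_range] at h2
    omega

theorem aL_im {m f : ℕ → ℕ} {n : ℕ} (hf : Monotone f)
    (hs : ∀ i j, i < n → j < n → (f i < f j ↔ i < j)) {A : Finset ℕ} (hA : A ⊆ range n) {i : ℕ}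
    (hi : i < n) : aL m (A.image f) (f i) = aL (mm m f n) A i := by
  unfold aL
  have hinj : ∀ x ∈ A, ∀ y ∈ A, f x = f y → x = y := by
    intro x hx y hy h
    have hx' := mem_range.1 (hA hx)
    have hy' := mem_range.1 (hA hy)
    have h1 := hs x y hx' hy'
    have h2 := hs y x hy' hx'
    omega
  have h1 : (A.image f).filter (fun u => u < f i ∧ f i ≤ m u) =
      (A.filter (fun u => u < i ∧ i ≤ mm m f n u)).image f := by
    ext x
    simp only [mem_filter, mem_image]
    constructor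
    · rintro ⟨⟨u, hu, rfl⟩, h2, h3⟩
      have hu' := mem_range.1 (hA hu)
      have h4 := (hs u i hu' hi).1 h2
      exact ⟨u, ⟨hu, h4, (mm_iff hf (by omega) hi).2 h3⟩, rfl⟩
    · rintro ⟨u, ⟨hu, h2, h3⟩, rfl⟩
      have hu' := mem_range.1 (hA hu)
      exact ⟨⟨u, hu, rfl⟩, (hs u i hu' hi).2 h2, (mm_iff hf (by omega) hi).1 h3⟩
  rw [h1, card_image_of_injOn]
  intro x hx y hy h
  exact hinj x (mem_filter.1 hx).1 y (mem_filter.1 hy).1 h

theorem cnc_im {m f : ℕ → ℕ} {n : ℕ} (hf : Monotone f)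
    (hs : ∀ i j, i < n → j < n → (f i < f j ↔ i < j)) {A : Finset ℕ} (hA : A ⊆ range n)
    (h : cnc (mm m f n) A) : cnc m (A.image f) := by
  intro v hv hw
  obtain ⟨i, hi, rfl⟩ := mem_image.1 hv
  obtain ⟨w, hw1, hw2⟩ := hw
  obtain ⟨j, hj, rfl⟩ := mem_image.1 hw1
  rw [aL_im hf hs hA (mem_range.1 (hA hi))]
  exact h i hi ⟨j, hj, (hs j i (mem_range.1 (hA hj)) (mem_range.1 (hA hi))).1 hw2⟩

end XLTaux

open XLTaux in
theorem tXLT : S_XLN → S_XBL → S_XLT := by
  intro hXLN hXBL m hm S r s hS hr hmin hs1 hs2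
  obtain ⟨n, hn⟩ : ∃ n, n = S.card := ⟨_, rfl⟩
  have hn0 : 0 < n := by omega
  let f : ℕ → ℕ := fun i => S.orderEmbOfFin hn.symm ⟨min i (n - 1), by omega⟩
  have hfm : Monotone f := by
    intro i j hij
    refine (S.orderEmbOfFin hn.symm).monotone ?_
    rw [Fin.mk_le_mk]
    exact min_le_min_right _ hij
  have hfe : ∀ i, ∀ hi : i < n, f i = S.orderEmbOfFin hn.symm ⟨i, hi⟩ := by
    intro i hi
    have h1 : min i (n - 1) = i := min_eq_left (by omega)
    simp only [f, h1]
  have hfs : ∀ i j, i < n → j < n → (f i < f j ↔ i < j) := by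
    intro i j hi hj
    rw [hfe i hi, hfe j hj, (S.orderEmbOfFin hn.symm).lt_iff_lt, Fin.mk_lt_mk]
  have hinj : ∀ i j, i < n → j < n → f i = f j → i = j := by
    intro i j hi hj h
    have h1 := hfs i j hi hj
    have h2 := hfs j i hj hi
    omega
  have him : (range n).image f = S := by
    ext x
    rw [mem_image]
    constructor
    · rintro ⟨i, hi, rfl⟩
      rw [hfe i (mem_range.1 hi)]
      exact S.orderEmbOfFin_mem hn.symm _
    · intro hx
      have h1 : x ∈ Set.range (S.orderEmbOfFin hn.symm) := by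
        rw [Finset.range_orderEmbOfFin]
        exact hx
      obtain ⟨⟨i, hi⟩, rfl⟩ := h1
      exact ⟨i, mem_range.2 hi, hfe i hi⟩
  have hr0 : r = f 0 := by
    have h1 : f 0 ∈ S := by
      rw [← him]
      exact mem_image_of_mem f (mem_range.2 hn0)
    rw [← him] at hr
    obtain ⟨i, hi, h2⟩ := mem_image.1 hr
    have h3 : f 0 ≤ f i := hfm (Nat.zero_le _)
    have h4 := hmin (f 0) h1
    omega
  have hcon : ∀ i, i + 1 < n → i + 1 ≤ mm m f n i := by
    intro i hi
    rw [mm_iff hfm (Nat.succ_pos i) hi]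
    have h1 : f (i + 1) ∈ S := by
      rw [← him]
      exact mem_image_of_mem f (mem_range.2 hi)
    have h2 : f i ∈ S := by
      rw [← him]
      exact mem_image_of_mem f (mem_range.2 (by omega))
    have h3 := hS (f (i + 1)) h1 ⟨f i, h2, (hfs i (i + 1) (by omega) hi).2 (by omega)⟩
    unfold aL at h3
    obtain ⟨u, hu⟩ := card_pos.1 h3
    rw [mem_filter] at hu
    obtain ⟨hu1, hu2, hu3⟩ := hu
    rw [← him] at hu1
    obtain ⟨k, hk, rfl⟩ := mem_image.1 hu1
    have h4 := (hfs k (i + 1) (mem_range.1 hk) hi).1 hu2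
    exact hu3.trans (hm (hfm (by omega)))
  obtain ⟨T, hT, hT0, hTc, hT1, hT2, hT3⟩ := hXLN hXBL (mm m f n) (mm_mono hm hfm n) n s hcon hs1
    (by omega)
  have hsd : S \ T.image f = (range n \ T).image f := by
    rw [← him]
    ext x
    simp only [mem_sdiff, mem_image]
    constructor
    · rintro ⟨⟨i, hi, rfl⟩, h2⟩
      exact ⟨i, ⟨hi, fun h => h2 ⟨i, h, rfl⟩⟩, rfl⟩
    · rintro ⟨i, ⟨hi, h2⟩, rfl⟩
      refine ⟨⟨i, hi, rfl⟩, ?_⟩
      rintro ⟨j, hj, h3⟩
      have h4 := hinj j i (mem_range.1 (hT hj)) (mem_range.1 hi) h3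
      exact h2 (h4 ▸ hj)
  have hTinj : Set.InjOn f (T : Set ℕ) := fun x hx y hy h =>
    hinj x y (mem_range.1 (hT hx)) (mem_range.1 (hT hy)) h
  refine ⟨T.image f, ?_, ?_, ?_, cnc_im hfm hfs hT hT1, ?_, ?_⟩
  · rw [← him]
    exact image_subset_image hT
  · rw [hr0]
    intro h
    obtain ⟨i, hi, h2⟩ := mem_image.1 h
    have h3 := hinj i 0 (mem_range.1 (hT hi)) hn0 h2
    exact hT0 (h3 ▸ hi)
  · rw [card_image_of_injOn hTinj, hTc]
  · rw [hsd]
    exact cnc_im hfm hfs sdiff_subset hT2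
  · rw [hsd]
    unfold eCT at hT3 ⊢
    rw [sum_image hTinj]
    refine (sum_le_sum fun t ht => ?_).trans hT3
    rw [aL_im hfm hfs sdiff_subset (mem_range.1 (hT ht))]

end Pool.Agent.LOW
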