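import Pool.Agent.Lib.MP_263316_co.EX.Spec
import Pool.Agent.Lib.MP_263316_co.LOW.LEMT

/-!
MP_263316_co, project EX: the combinatorial lemma `S_XLT` directly (helper19, LOW/LEMT.lean).
-/

set_option autoImplicit false

namespace Pool.Agent.LOW

open Finset Pool.Agent.SWC

/-- `S_XLT` without hypotheses -/
theorem xltD : S_XLT := by
  intro m hm S r s hcon hr hmin h1 h2
  obtain ⟨T, hTS, hTc, hrT, hT, hCT, hsum⟩ := LEMT.lemT m hm S r s hr hmin hcon h1 h2
  exact ⟨T, hTS, hrT, hTc, hT, hCT, hsum⟩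

end Pool.Agent.LOW
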