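import Pool.Agent.Lib.MP_263316_co.EX.Spec

/-!
MP_263316_co, project EX, task YE, polynomial half: the term of one cluster is at least the lowest
coefficient after two clusters.
-/

set_option autoImplicit false

namespace Pool.Agent.LOW

open Finset Pool.Agent.SWC

namespace YEBaux

private theorem yebLwd (m : ℕ → ℕ) (N : ℕ) (W : Finset ℕ) (g : Fin N →₀ ℕ) (k : ℕ) (i : Fin N)
    (hi : (i : ℕ) + 1 = k) (h0 : 0 < g i) :
    Lwd m N W g k = Lw m N W (g - Finsupp.single i 1) := by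
  unfold Lwd
  rw [Finset.sum_eq_single i]
  · rw [if_pos ⟨hi, h0⟩]
  · intro j _ hj
    rw [if_neg]
    rintro ⟨h1, -⟩
    exact hj (Fin.ext (by omega))
  · intro h
    exact absurd (Finset.mem_univ i) h

private theorem yebCfd (m : ℕ → ℕ) (N : ℕ) (W : Finset ℕ) (g : Fin N →₀ ℕ) (k : ℕ) (i : Fin N)
    (hi : (i : ℕ) + 1 = k) (h0 : 0 < g i) :
    cfd m N W g k = cf m N W (g - Finsupp.single i 1) := by
  unfold cfd
  rw [Finset.sum_eq_single i]
  · rw [if_pos ⟨hi, h0⟩]
  · intro j _ hj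
    rw [if_neg]
    rintro ⟨h1, -⟩
    exact hj (Fin.ext (by omega))
  · intro h
    exact absurd (Finset.mem_univ i) h

private theorem yebEx (m : ℕ → ℕ) (N : ℕ) (W : Finset ℕ) (g : Fin N →₀ ℕ) (k : ℕ)
    (h : Lwd m N W g k ≠ 0) : ∃ i : Fin N, (i : ℕ) + 1 = k ∧ 0 < g i := by
  by_contra hcon
  apply h
  unfold Lwd
  apply Finset.sum_eq_zero
  intro i _
  rw [if_neg]
  intro h1
  exact hcon ⟨i, h1⟩

/-- a chain of coefficients -/
private theorem yebChain (A : Polynomial ℤ) (d0 : ℕ) (n : ℕ)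
    (h : ∀ j, d0 ≤ j → j < d0 + n → A.coeff j ≤ A.coeff (j + 1)) :
    A.coeff d0 ≤ A.coeff (d0 + n) := by
  induction n with
  | zero => exact le_refl _
  | succ n ih =>
    have h1 := ih (fun j h1 h2 => h j h1 (by omega))
    have h2 := h (d0 + n) (by omega) (by omega)
    exact h1.trans h2

/-- the product has a coefficient at least as large -/
private theorem yebMul (P A : Polynomial ℤ) (e D J : ℕ) (hJ : D + e = J)
    (hP : ∀ j, 0 ≤ P.coeff j) (hP0 : P.coeff 0 = 1) (hA : ∀ b, b ≤ D → 0 ≤ A.coeff b) :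
    A.coeff D ≤ (P * Polynomial.X ^ e * A).coeff J := by
  have h1 : P * Polynomial.X ^ e * A = (P * A) * Polynomial.X ^ e := by ring
  rw [h1, ← hJ, Polynomial.coeff_mul_X_pow, Polynomial.coeff_mul]
  have h2 : A.coeff D = P.coeff ((0, D) : ℕ × ℕ).1 * A.coeff ((0, D) : ℕ × ℕ).2 := by
    simp only
    rw [hP0, one_mul]
  rw [h2]
  apply Finset.single_le_sum (f := fun x : ℕ × ℕ => P.coeff x.1 * A.coeff x.2)
  · intro x hx
    have h3 : x.1 + x.2 = D := by simpa using hx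
    exact mul_nonneg (hP _) (hA _ (by omega))
  · simp

theorem yeB (hYQ : S_YQ) (hYL : S_YL) (m : ℕ → ℕ) (hm : Monotone m) (N : ℕ) (U C T : Finset ℕ)
    (r s J : ℕ) (hr : r ∈ U) (hrU : ∀ u ∈ U, r ≤ u) (hN : U.card ≤ N) (hcn : cn m U = 1)
    (hs : 2 ≤ s) (f : Fin N →₀ ℕ) (hf : big s f) (hJ : J + 2 = len f + s)
    (hPM : ∀ V ⊆ U, V ≠ U → PM m N s V) (hC : C ⊆ U) (hrC : r ∈ C) (hcC : cnc m C) (t : ℕ)
    (ht : t ∈ T) (htV : ∀ u ∈ U \ C, t ≤ u) (hT : T ⊆ U \ C) (hcT : cnc m T) (hTc : T.card = s)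
    (hea : ea m (U \ C) T + cn m (U \ C) = cn m ((U \ C) \ T) + 1)
    (h1 : cn m (U \ C) ≤ ea m U C) (h2 : ea m U C + 1 ≤ cn m (U \ C) + s) (i : Fin N)
    (hi : (i : ℕ) + 1 = s) (hfi : 0 < f i)
    (hne : Lwd m N ((U \ C) \ T) (f - Finsupp.single i 1) C.card ≠ 0) :
    Lwd m N ((U \ C) \ T) (f - Finsupp.single i 1) C.card ≤
      (Pi m (Polynomial.X : Polynomial ℤ) r C * Polynomial.X ^ ea m U C *
        cfd m N (U \ C) f C.card).coeff J := by
  obtain ⟨k, hk, hgk⟩ := yebEx m N _ _ _ hne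
  have hgk' : (f - Finsupp.single i 1 : Fin N →₀ ℕ) k = f k - (Finsupp.single i 1 : Fin N →₀ ℕ) k := rfl
  have hfk : 0 < f k := by
    rw [hgk'] at hgk
    omega
  set f' : Fin N →₀ ℕ := f - Finsupp.single k 1 with hf'
  have hf'i : f' i = f i - (Finsupp.single k 1 : Fin N →₀ ℕ) i := rfl
  have hf'i0 : 0 < f' i := by
    rw [hf'i]
    by_cases hik : k = i
    · rw [← hik]
      rw [hgk', ← hik] at hgk
      exact hgk
    · rw [Finsupp.single_apply, if_neg hik]
      omega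
  have hcomm : f' - Finsupp.single i 1 = f - Finsupp.single i 1 - Finsupp.single k 1 := by
    rw [hf', tsub_right_comm]
  have hf'le : ∀ j, f' j ≤ f j := by
    intro j
    have : f' j = f j - (Finsupp.single k 1 : Fin N →₀ ℕ) j := rfl
    rw [this]
    omega
  have hbig' : big s f' := fun j hj => hf j (lt_of_lt_of_le hj (hf'le j))
  have hbig2 : big 2 f' := fun j hj => hs.trans (hbig' j hj)
  have hlen : len f = len f' + 1 := (INCaux.inc_len_sub f k hfk).symm
  set V : Finset ℕ := U \ C with hV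
  have hVU : V ⊆ U := Finset.sdiff_subset
  have hVne : V ≠ U := by
    intro h
    have : r ∈ V := h ▸ hr
    exact (Finset.mem_sdiff.mp this).2 hrC
  have hVN : V.card ≤ N := (Finset.card_le_card hVU).trans hN
  have hVn : V.Nonempty := ⟨t, hT ht⟩
  have hL := hYL m hm N V T t ht hT htV hVN hcT hea f' hbig2
  rw [hTc, yebLwd m N _ f' s i hi hf'i0, hcomm] at hL
  have hLW : Lwd m N (V \ T) (f - Finsupp.single i 1) C.card =
      Lw m N (V \ T) (f - Finsupp.single i 1 - Finsupp.single k 1) :=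
    yebLwd m N _ _ _ k hk hgk
  rw [hLW]
  refine hL.trans ?_
  by_cases hc : cn m V ≤ len f'
  · unfold Lw
    rw [if_pos hc, yebCfd m N V f C.card k hk hfk]
    obtain ⟨p1, p2⟩ := hPM V hVU hVne f' hbig'
    have hPi0 : (Pi m (Polynomial.X : Polynomial ℤ) r C).coeff 0 = 1 := by
      rw [LWRaux.Pi_coeff, if_pos]
      intro v hv
      obtain ⟨hv1, hv2⟩ := Finset.mem_erase.mp hv
      refine hcC v hv2 ⟨r, hrC, ?_⟩
      exact lt_of_le_of_ne (hrU v (hC hv2)) (Ne.symm hv1)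
    have hD : (J - ea m U C) + ea m U C = J := by omega
    have hm1 := yebMul (Pi m (Polynomial.X : Polynomial ℤ) r C) (cf m N V f') (ea m U C)
      (J - ea m U C) J hD (INCaux.inc_nn_Pi m r C) hPi0 (fun b hb => p1 b (by omega))
    refine le_trans ?_ hm1
    have hch := yebChain (cf m N V f') (len f' - cn m V)
      ((J - ea m U C) - (len f' - cn m V)) (fun j hj1 hj2 => p2 hVn j (by omega))
    have he : (len f' - cn m V) + ((J - ea m U C) - (len f' - cn m V)) = J - ea m U C := by omega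
    rw [he] at hch
    exact hch
  · unfold Lw
    rw [if_neg hc]
    exact hYQ m hm N U r s J hr hrU hN hcn f hf hJ hPM C hC hrC

end YEBaux

end Pool.Agent.LOW
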