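import Pool.Agent.Lib.MP_263316_co.EX.Spec
import Pool.Agent.Lib.MP_263316_co.LOW.CNT

/-!
MP_263316_co, project EX: the combinatorial half of task YE (the cluster `C` which goes with an
initial segment `D` of `U \ R`).
-/

set_option autoImplicit false

namespace Pool.Agent.LOW

open Finset Pool.Agent.SWC

namespace YEaux

open CNTaux

theorem aL_pos {m : ℕ → ℕ} {U : Finset ℕ} {v : ℕ} :
    0 < aL m U v ↔ ∃ u ∈ U, u < v ∧ v ≤ m u := by
  unfold aL
  rw [card_pos]
  constructor
  · rintro ⟨u, hu⟩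
    rw [mem_filter] at hu
    exact ⟨u, hu.1, hu.2⟩
  · rintro ⟨u, hu, h⟩
    exact ⟨u, mem_filter.mpr ⟨hu, h⟩⟩

theorem aL_min {m : ℕ → ℕ} {U : Finset ℕ} {r : ℕ} (hmin : ∀ u ∈ U, r ≤ u) : aL m U r = 0 := by
  rw [aL_zero]
  intro u hu
  have := hmin u hu
  rintro ⟨h1, _⟩
  omega

theorem cn_one {m : ℕ → ℕ} {U : Finset ℕ} {r : ℕ} (hr : r ∈ U) (hmin : ∀ u ∈ U, r ≤ u)
    (hcn : cn m U = 1) : ∀ v ∈ U, v ≠ r → 0 < aL m U v := by
  intro v hv hvr
  by_contra h
  have h0 : aL m U v = 0 := by omega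
  have hr0 : aL m U r = 0 := aL_min hmin
  unfold cn at hcn
  rw [card_eq_one] at hcn
  obtain ⟨a, ha⟩ := hcn
  have h1 : v ∈ U.filter (fun v => aL m U v = 0) := mem_filter.mpr ⟨hv, h0⟩
  have h2 : r ∈ U.filter (fun v => aL m U v = 0) := mem_filter.mpr ⟨hr, hr0⟩
  rw [ha, mem_singleton] at h1 h2
  exact hvr (h1.trans h2.symm)

end YEaux

open YEaux CNTaux in
theorem YEa (hX : S_XLT) (m : ℕ → ℕ) (hm : Monotone m) (U R D : Finset ℕ) (r s : ℕ) (hr : r ∈ U)
    (hmin : ∀ u ∈ U, r ≤ u) (hcn : cn m U = 1) (hs : 2 ≤ s) (hR : R ⊆ U) (hRs : R.card = s)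
    (hRi : ∀ u ∈ U \ R, ∀ v ∈ R, v < u) (hD : D ⊆ U \ R) (hD2 : 2 ≤ D.card)
    (hDi : ∀ u ∈ (U \ R) \ D, ∀ v ∈ D, v < u) (hOk : Ok m (U \ R) D) :
    ∃ (C T : Finset ℕ) (t : ℕ), C ⊆ U ∧ r ∈ C ∧ C.card = D.card ∧ cnc m C ∧ T ⊆ U \ C ∧
      T.card = s ∧ cnc m T ∧ t ∈ T ∧ (∀ u ∈ U \ C, t ≤ u) ∧ (U \ C) \ T = (U \ R) \ D ∧
      ea m U C + 1 ≤ cn m (U \ C) + s ∧
      ea m (U \ C) T + cn m (U \ C) = cn m ((U \ R) \ D) + 1 := by
  have hcon := cn_one hr hmin hcn
  have hE : ∑ v ∈ (U \ R) \ D, aL m D v = cn m ((U \ R) \ D) := hOk.2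
  clear hOk
  set P := (U \ R) \ D with hPdef
  set S := R ∪ D with hSdef
  have hDU : D ⊆ U := hD.trans sdiff_subset
  have hSU : S ⊆ U := union_subset hR hDU
  have hdis : Disjoint R D := by
    rw [disjoint_left]
    intro a ha hb
    exact (mem_sdiff.mp (hD hb)).2 ha
  have hScard : S.card = s + D.card := by
    rw [hSdef, card_union_of_disjoint hdis, hRs]
  have hPS : P = U \ S := by
    rw [hPdef, hSdef]
    ext a
    simp only [mem_sdiff, mem_union]
    tauto
  have hSP : ∀ u ∈ P, ∀ v ∈ S, v < u := by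
    intro u hu v hv
    rcases mem_union.mp hv with hv | hv
    · exact hRi u (mem_sdiff.mp hu).1 v hv
    · exact hDi u hu v hv
  have hne : R.Nonempty := card_pos.mp (by omega)
  have hrR : r ∈ R := by
    by_contra h
    obtain ⟨a, ha⟩ := hne
    have h1 := hRi r (mem_sdiff.mpr ⟨hr, h⟩) a ha
    have h2 := hmin a (hR ha)
    omega
  have hrS : r ∈ S := mem_union_left _ hrR
  have hScn : cnc m S := by
    intro v hv hw
    obtain ⟨w, hw, hwv⟩ := hw
    have h1 : v ≠ r := by
      have := hmin w (hSU hw)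
      omega
    obtain ⟨u, hu, h2, h3⟩ := aL_pos.mp (hcon v (hSU hv) h1)
    refine aL_pos.mpr ⟨u, ?_, h2, h3⟩
    by_contra h4
    have h5 : u ∈ P := by
      rw [hPS]
      exact mem_sdiff.mpr ⟨hu, h4⟩
    have h6 := hSP u h5 v hv
    omega
  have hPU : P ⊆ U := by
    rw [hPS]
    exact sdiff_subset
  have hPcn : ∀ p ∈ P, (∀ u ∈ P, p ≤ u) → ∀ v ∈ P, v ≠ p → 0 < aL m P v := by
    intro p hp hpm v hv hvp
    have hvr : v ≠ r := by
      have := hSP v hv r hrS
      omega
    obtain ⟨u, hu, h2, h3⟩ := aL_pos.mp (hcon v (hPU hv) hvr)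
    have hpv : p < v := lt_of_le_of_ne (hpm v hv) (Ne.symm hvp)
    by_cases huP : u ∈ P
    · exact aL_pos.mpr ⟨u, huP, h2, h3⟩
    · refine aL_pos.mpr ⟨p, hp, hpv, h3.trans (hm ?_)⟩
      have h7 : u ∈ S := by
        by_contra h4
        apply huP
        rw [hPS]
        exact mem_sdiff.mpr ⟨hu, h4⟩
      exact (hSP p hp u h7).le
  have hPle : cn m P ≤ 1 := by
    unfold cn
    rw [card_le_one]
    intro a ha b hb
    rw [mem_filter] at ha hb
    by_contra hab
    have hPne : P.Nonempty := ⟨a, ha.1⟩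
    have key : ∀ c ∈ P, aL m P c = 0 → c = P.min' hPne := by
      intro c hc h0
      by_contra h
      have := hPcn _ (P.min'_mem hPne) (fun u hu => P.min'_le u hu) c hc h
      omega
    exact hab ((key a ha.1 ha.2).trans (key b hb.1 hb.2).symm)
  have hRP : ∀ v ∈ P, aL m R v = 0 := by
    intro v hv
    by_contra h
    obtain ⟨u, hu, h2, h3⟩ := aL_pos.mp (Nat.pos_of_ne_zero h)
    have h4 : aL m D v = D.card := by
      unfold aL
      rw [filter_true_of_mem]
      intro d hd
      exact ⟨hDi v hv d hd, h3.trans (hm (hRi d (hD hd) u hu).le)⟩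
    have h5 : aL m D v ≤ ∑ v ∈ P, aL m D v :=
      single_le_sum (f := fun v => aL m D v) (fun _ _ => Nat.zero_le _) hv
    omega
  have hSsum : ∑ v ∈ P, aL m S v = cn m P := by
    rw [← hE]
    refine sum_congr rfl fun v hv => ?_
    have h1 := aL_split m (subset_union_left : R ⊆ R ∪ D) v
    rw [union_sdiff_cancel_left hdis, hRP v hv, zero_add] at h1
    exact h1
  obtain ⟨T, hTS, hrT, hTs, hTc, hCc, hTe⟩ := hX m hm S r s hScn hrS
    (fun u hu => hmin u (hSU hu)) (by omega) (by omega)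
  have hTne : T.Nonempty := card_pos.mp (by omega)
  have hCU : S \ T ⊆ U := sdiff_subset.trans hSU
  have hUC : U \ (S \ T) = T ∪ P := by
    rw [hPS]
    ext a
    simp only [mem_sdiff, mem_union]
    constructor
    · rintro ⟨h1, h2⟩
      by_cases haS : a ∈ S
      · left
        by_contra h
        exact h2 ⟨haS, h⟩
      · right
        exact ⟨h1, haS⟩
    · rintro (h | ⟨h1, h2⟩)
      · exact ⟨hSU (hTS h), fun h3 => h3.2 h⟩
      · exact ⟨h1, fun h3 => h2 h3.1⟩
  have hTPd : Disjoint T P := by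
    rw [disjoint_left]
    intro a ha hb
    have := hSP a hb a (hTS ha)
    omega
  have hUCT : (U \ (S \ T)) \ T = P := by
    rw [hUC, union_sdiff_cancel_left hTPd]
  have hea : ea m U (S \ T) = eCT m (S \ T) T + ∑ v ∈ P, aL m (S \ T) v := by
    show ∑ v ∈ U \ (S \ T), aL m (S \ T) v = _
    rw [hUC, sum_union hTPd]
    rfl
  have hxy : ∑ v ∈ P, aL m T v + ∑ v ∈ P, aL m (S \ T) v = cn m P := by
    rw [← sum_add_distrib, ← hSsum]
    exact sum_congr rfl fun v _ => (aL_split m hTS v).symm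
  have hy : ea m (U \ (S \ T)) T = ∑ v ∈ P, aL m T v := by
    show ∑ v ∈ (U \ (S \ T)) \ T, aL m T v = _
    rw [hUCT]
  obtain ⟨t, htT, htm⟩ : ∃ t ∈ T, ∀ u ∈ T, t ≤ u :=
    ⟨T.min' hTne, min'_mem _ _, fun u hu => min'_le _ _ hu⟩
  have htU : ∀ u ∈ U \ (S \ T), t ≤ u := by
    intro u hu
    rw [hUC] at hu
    rcases mem_union.mp hu with h | h
    · exact htm u h
    · exact (hSP u h t (hTS htT)).le
  have hPu : ∀ v, aL m (T ∪ P) v = aL m T v + aL m P v := by
    intro v
    have h1 := aL_split m (subset_union_left : T ⊆ T ∪ P) v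
    rw [union_sdiff_cancel_left hTPd] at h1
    exact h1
  have hTu : ∀ v ∈ T, aL m (T ∪ P) v = aL m T v := by
    intro v hv
    have h1 := hPu v
    have h2 : aL m P v = 0 := by
      rw [aL_zero]
      intro u hu
      have := hSP u hu v (hTS hv)
      rintro ⟨h3, _⟩
      omega
    omega
  have hcnV : cn m (T ∪ P) = (T.filter (fun v => aL m (T ∪ P) v = 0)).card +
      (P.filter (fun v => aL m (T ∪ P) v = 0)).card := by
    unfold cn
    rw [filter_union, card_union_of_disjoint (disjoint_filter_filter hTPd)]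
  have hcT : (T.filter (fun v => aL m (T ∪ P) v = 0)).card = 1 := by
    rw [card_eq_one]
    refine ⟨t, ?_⟩
    ext v
    rw [mem_filter, mem_singleton]
    constructor
    · rintro ⟨h1, h2⟩
      rw [hTu v h1] at h2
      by_contra h
      have := hTc v h1 ⟨t, htT, lt_of_le_of_ne (htm v h1) (Ne.symm h)⟩
      omega
    · intro h
      rw [h]
      exact ⟨htT, by rw [hTu _ htT]; exact aL_min htm⟩
  have hfin : ∑ v ∈ P, aL m T v + cn m (T ∪ P) = cn m P + 1 := by
    rcases P.eq_empty_or_nonempty with hP | hP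
    · rw [hcnV, hcT, hP]
      simp [cn]
    · obtain ⟨p, hpP, hpm⟩ : ∃ p ∈ P, ∀ u ∈ P, p ≤ u :=
        ⟨P.min' hP, min'_mem _ _, fun u hu => min'_le _ _ hu⟩
      have hp0 : aL m P p = 0 := aL_min hpm
      have hcP : cn m P = 1 := by
        unfold cn
        rw [card_eq_one]
        refine ⟨p, ?_⟩
        ext v
        rw [mem_filter, mem_singleton]
        constructor
        · rintro ⟨h1, h2⟩
          by_contra h
          have := hPcn p hpP hpm v h1 h
          omega
        · intro h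
          rw [h]
          exact ⟨hpP, hp0⟩
      have hSp : 1 ≤ aL m S p := by
        have hpr : p ≠ r := by
          have := hSP p hpP r hrS
          omega
        have h1 := hcon p (hPU hpP) hpr
        have h2 := aL_split m hSU p
        rw [← hPS] at h2
        omega
      have hsplit : ∑ v ∈ P, aL m S v = aL m S p + ∑ v ∈ P.erase p, aL m S v :=
        (add_sum_erase P (fun v => aL m S v) hpP).symm
      have hz : ∀ v ∈ P.erase p, aL m T v = 0 := by
        intro v hv
        have h1 : aL m S v ≤ ∑ v ∈ P.erase p, aL m S v :=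
          single_le_sum (f := fun v => aL m S v) (fun _ _ => Nat.zero_le _) hv
        have h2 := aL_split m hTS v
        omega
      have hy1 : ∑ v ∈ P, aL m T v = aL m T p := by
        rw [← add_sum_erase P (fun v => aL m T v) hpP, sum_eq_zero hz, add_zero]
      have hTp : aL m T p ≤ 1 := by
        have h2 := aL_split m hTS p
        omega
      have hcP2 : (P.filter (fun v => aL m (T ∪ P) v = 0)).card = 1 - aL m T p := by
        by_cases h0 : aL m T p = 0
        · rw [h0, Nat.sub_zero, card_eq_one]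
          refine ⟨p, ?_⟩
          ext v
          rw [mem_filter, mem_singleton, hPu]
          constructor
          · rintro ⟨h1, h2⟩
            by_contra h
            have := hPcn p hpP hpm v h1 h
            omega
          · intro h
            rw [h]
            exact ⟨hpP, by omega⟩
        · have h1 : aL m T p = 1 := by omega
          rw [h1, Nat.sub_self, card_eq_zero, filter_eq_empty_iff]
          intro v hv
          rw [hPu]
          by_cases hvp : v = p
          · rw [hvp]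
            omega
          · have := hPcn p hpP hpm v hv hvp
            omega
      rw [hcnV, hcT, hcP2, hy1, hcP]
      omega
  refine ⟨S \ T, T, t, hCU, mem_sdiff.mpr ⟨hrS, hrT⟩, ?_, hCc, ?_, hTs, hTc, htT, htU, hUCT,
    ?_, ?_⟩
  · rw [card_sdiff_of_subset hTS]
    omega
  · rw [hUC]
    exact subset_union_left
  · rw [hea, hUC]
    omega
  · rw [hy, hUC]
    exact hfin

end Pool.Agent.LOW
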