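import Pool.Agent.Lib.MP_263316_co.EX.Spec

/-!
MP_263316_co, project EX, task YE, coefficient half: the positive term of one cluster `C` is at least
the lowest coefficient of the rest.
-/

set_option autoImplicit false

namespace Pool.Agent.LOW

open Finset Pool.Agent.SWC

namespace YEbaux

theorem Lwd_eq (m : ℕ → ℕ) (N : ℕ) (V : Finset ℕ) (g : Fin N →₀ ℕ) (k : ℕ) (i : Fin N)
    (hi : (i : ℕ) + 1 = k) (hg : 0 < g i) :
    Lwd m N V g k = Lw m N V (g - Finsupp.single i 1) := by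
  unfold Lwd
  rw [Finset.sum_eq_single i]
  · rw [if_pos ⟨hi, hg⟩]
  · intro b _ hb
    rw [if_neg]
    rintro ⟨h1, _⟩
    apply hb
    apply Fin.ext
    omega
  · intro h
    exact absurd (Finset.mem_univ i) h

theorem cfd_eq (m : ℕ → ℕ) (N : ℕ) (V : Finset ℕ) (g : Fin N →₀ ℕ) (k : ℕ) (i : Fin N)
    (hi : (i : ℕ) + 1 = k) (hg : 0 < g i) :
    cfd m N V g k = cf m N V (g - Finsupp.single i 1) := by
  unfold cfd
  rw [Finset.sum_eq_single i]
  · rw [if_pos ⟨hi, hg⟩]
  · intro b _ hb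
    rw [if_neg]
    rintro ⟨h1, _⟩
    apply hb
    apply Fin.ext
    omega
  · intro h
    exact absurd (Finset.mem_univ i) h

/-- the product is at least the coefficient with the constant term -/
theorem ge_coeff (P A : Polynomial ℤ) (e j d : ℕ) (hP : ∀ a, 0 ≤ P.coeff a) (hP0 : P.coeff 0 = 1)
    (hj : j = d + e) (hA : ∀ b, b ≤ d → 0 ≤ A.coeff b) :
    A.coeff d ≤ (P * Polynomial.X ^ e * A).coeff j := by
  have h1 : P * Polynomial.X ^ e * A = (P * A) * Polynomial.X ^ e := by ring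
  rw [h1, hj, Polynomial.coeff_mul_X_pow, Polynomial.coeff_mul]
  have h2 : P.coeff (0, d).1 * A.coeff (0, d).2 ≤
      ∑ x ∈ Finset.HasAntidiagonal.antidiagonal d, P.coeff x.1 * A.coeff x.2 := by
    refine Finset.single_le_sum (f := fun x : ℕ × ℕ => P.coeff x.1 * A.coeff x.2) ?_ ?_
    · intro x hx
      have h3 := Finset.HasAntidiagonal.mem_antidiagonal.1 hx
      exact mul_nonneg (hP _) (hA _ (by omega))
    · rw [Finset.HasAntidiagonal.mem_antidiagonal]
      exact Nat.zero_add d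
  simp only at h2
  rw [hP0, one_mul] at h2
  exact h2

end YEbaux

open YEbaux in
theorem YEb (hQ : S_YQ) (hL : S_YL) (m : ℕ → ℕ) (hm : Monotone m) (N : ℕ) (U C T : Finset ℕ)
    (r rt s J : ℕ) (hrU : r ∈ U) (hr : ∀ u ∈ U, r ≤ u) (hUN : U.card ≤ N) (hcU : cn m U = 1)
    (hs : 2 ≤ s) (f : Fin N →₀ ℕ) (hf : big s f) (hJ : J + 2 = len f + s)
    (hPM : ∀ V ⊆ U, V ≠ U → PM m N s V) (hCU : C ⊆ U) (hrC : r ∈ C) (hcC : cnc m C)
    (hTV : T ⊆ U \ C) (hrt : rt ∈ T) (hrtm : ∀ u ∈ U \ C, rt ≤ u) (hcT : cnc m T)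
    (hTs : T.card = s) (e : ℕ) (he1 : 1 ≤ e) (hes : e ≤ s)
    (hea : ea m U C + 1 = e + cn m (U \ C))
    (heV : ea m (U \ C) T + cn m (U \ C) = cn m ((U \ C) \ T) + 1)
    (i : Fin N) (hi : (i : ℕ) + 1 = s) (hfi : 0 < f i)
    (hne : Lwd m N ((U \ C) \ T) (f - Finsupp.single i 1) C.card ≠ 0) :
    Lwd m N ((U \ C) \ T) (f - Finsupp.single i 1) C.card ≤
      (Pi m (Polynomial.X : Polynomial ℤ) r C * Polynomial.X ^ ea m U C *
        cfd m N (U \ C) f C.card).coeff J := by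
  obtain ⟨i', hi', hgi'⟩ : ∃ i' : Fin N, (i' : ℕ) + 1 = C.card ∧
      0 < (f - Finsupp.single i 1 : Fin N →₀ ℕ) i' := by
    by_contra h
    apply hne
    unfold Lwd
    apply Finset.sum_eq_zero
    intro i'' _
    rw [if_neg]
    intro h2
    exact h ⟨i'', h2.1, h2.2⟩
  have hfi' : 0 < f i' := by
    have h1 : (f - Finsupp.single i 1 : Fin N →₀ ℕ) i' ≤ f i' := by
      rw [Finsupp.tsub_apply]
      exact Nat.sub_le _ _
    omega
  have hcomm : f - Finsupp.single i 1 - Finsupp.single i' 1 =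
      f - Finsupp.single i' 1 - Finsupp.single i 1 := tsub_right_comm
  have hf'i : 0 < (f - Finsupp.single i' 1 : Fin N →₀ ℕ) i := by
    rw [Finsupp.tsub_apply] at hgi' ⊢
    by_cases h : i' = i
    · subst h
      exact hgi'
    · rw [Finsupp.single_eq_of_ne (Ne.symm h)]
      omega
  have hlen := LWRaux.len_sub f i' hfi'
  have hbig : big s (f - Finsupp.single i' 1) := by
    intro a ha
    apply hf a
    have h1 : (f - Finsupp.single i' 1 : Fin N →₀ ℕ) a ≤ f a := by
      rw [Finsupp.tsub_apply]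
      exact Nat.sub_le _ _
    omega
  have hVN : (U \ C).card ≤ N := le_trans (Finset.card_le_card Finset.sdiff_subset) hUN
  have hVU : U \ C ≠ U := by
    intro h
    have h1 : r ∈ U \ C := by
      rw [h]
      exact hrU
    exact (Finset.mem_sdiff.mp h1).2 hrC
  have hVne : (U \ C).Nonempty := ⟨rt, hTV hrt⟩
  have h1 : Lwd m N ((U \ C) \ T) (f - Finsupp.single i 1) C.card ≤
      Lw m N (U \ C) (f - Finsupp.single i' 1) := by
    rw [Lwd_eq m N _ _ _ i' hi' hgi', hcomm, ← Lwd_eq m N _ _ s i hi hf'i, ← hTs]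
    refine hL m hm N (U \ C) T rt hrt hTV hrtm hVN hcT heV _ ?_
    intro a ha
    have := hbig a ha
    omega
  refine le_trans h1 ?_
  by_cases hc : cn m (U \ C) ≤ len (f - Finsupp.single i' 1)
  · rw [cfd_eq m N _ _ _ i' hi' hfi']
    obtain ⟨d, hd⟩ : ∃ d, len (f - Finsupp.single i' 1) = d + cn m (U \ C) :=
      ⟨len (f - Finsupp.single i' 1) - cn m (U \ C), by omega⟩
    have hLw : Lw m N (U \ C) (f - Finsupp.single i' 1) =
        (cf m N (U \ C) (f - Finsupp.single i' 1)).coeff d := by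
      unfold Lw
      rw [if_pos hc, hd, Nat.add_sub_cancel]
    obtain ⟨hp1, hp2⟩ := hPM (U \ C) Finset.sdiff_subset hVU _ hbig
    have hstep : ∀ t : ℕ, t + e ≤ s → (cf m N (U \ C) (f - Finsupp.single i' 1)).coeff d ≤
        (cf m N (U \ C) (f - Finsupp.single i' 1)).coeff (d + t) := by
      intro t
      induction t with
      | zero => intro _; exact le_refl _
      | succ t ih =>
        intro ht
        exact le_trans (ih (by omega)) (hp2 hVne (d + t) (by omega))
    rw [hLw]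
    refine le_trans (hstep (s - e) (by omega)) ?_
    refine ge_coeff _ _ _ _ _ (INCaux.inc_nn_Pi m r C) ?_ (by omega) ?_
    · rw [LWRaux.Pi_coeff, if_pos]
      intro v hv
      rw [Finset.mem_erase] at hv
      exact hcC v hv.2 ⟨r, hrC, lt_of_le_of_ne (hr v (hCU hv.2)) (Ne.symm hv.1)⟩
    · intro b hb
      exact hp1 b (by omega)
  · have hLw : Lw m N (U \ C) (f - Finsupp.single i' 1) = 0 := by
      unfold Lw
      rw [if_neg hc]
    rw [hLw]
    exact hQ m hm N U r s J hrU hr hUN hcU f hf hJ hPM C hCU hrC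

end Pool.Agent.LOW
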