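import Pool.Agent.Lib.MP_263316_co.EX.Spec

/-!
MP_263316_co, project EX, combinatorial half of the module YE (helper20): the cluster `C` of size `|D|` with the
complementary part `T` of size `s` of the initial segment `R ∪ D`.
-/

set_option autoImplicit false

namespace Pool.Agent.LOW

open Finset Pool.Agent.SWC

namespace YEc

lemma pos_iff {m : ℕ → ℕ} {S : Finset ℕ} {v : ℕ} :
    0 < aL m S v ↔ ∃ u ∈ S, u < v ∧ v ≤ m u := by
  unfold aL
  rw [Finset.card_pos]
  constructor
  · rintro ⟨u, hu⟩
    rw [Finset.mem_filter] at hu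
    exact ⟨u, hu.1, hu.2⟩
  · rintro ⟨u, h1, h2⟩
    exact ⟨u, Finset.mem_filter.2 ⟨h1, h2⟩⟩

lemma zero_of {m : ℕ → ℕ} {S : Finset ℕ} {v : ℕ} (h : ∀ u ∈ S, u < v → ¬ v ≤ m u) :
    aL m S v = 0 := by
  by_contra h0
  obtain ⟨u, h1, h2, h3⟩ := pos_iff.1 (Nat.pos_of_ne_zero h0)
  exact h u h1 h2 h3

lemma un {m : ℕ → ℕ} {A B : Finset ℕ} (h : Disjoint A B) (v : ℕ) :
    aL m (A ∪ B) v = aL m A v + aL m B v := by
  unfold aL
  rw [Finset.filter_union]
  exact Finset.card_union_of_disjoint (Finset.disjoint_filter_filter h)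

/-- in a set with one component every vertex but the first has a left neighbour -/
lemma conn {m : ℕ → ℕ} {U : Finset ℕ} {r : ℕ} (hr : r ∈ U) (hmin : ∀ u ∈ U, r ≤ u)
    (hcn : cn m U = 1) (v : ℕ) (hv : v ∈ U) (hvr : r < v) : ∃ u ∈ U, u < v ∧ v ≤ m u := by
  rw [← pos_iff]
  by_contra h0
  have h1 : aL m U v = 0 := by omega
  have h2 : aL m U r = 0 := zero_of (fun u hu h => by
    have := hmin u hu
    omega)
  unfold cn at hcn
  obtain ⟨w, hw⟩ := Finset.card_eq_one.1 hcn
  have h3 : v ∈ U.filter (fun v => aL m U v = 0) := Finset.mem_filter.2 ⟨hv, h1⟩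
  have h4 : r ∈ U.filter (fun v => aL m U v = 0) := Finset.mem_filter.2 ⟨hr, h2⟩
  rw [hw, Finset.mem_singleton] at h3 h4
  omega

/-- the number of components of a set all of whose elements but the first have a left neighbour -/
lemma cn_one {m : ℕ → ℕ} {P : Finset ℕ} {p : ℕ} (hp : p ∈ P) (hmin : ∀ u ∈ P, p ≤ u)
    (h : ∀ v ∈ P, p < v → ∃ u ∈ P, u < v ∧ v ≤ m u) : cn m P = 1 := by
  unfold cn
  rw [Finset.card_eq_one]
  refine ⟨p, ?_⟩
  ext v
  rw [Finset.mem_filter, Finset.mem_singleton]
  constructor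
  · rintro ⟨h1, h2⟩
    by_contra h3
    have h4 := hmin v h1
    have h5 := pos_iff.2 (h v h1 (by omega))
    omega
  · rintro rfl
    exact ⟨hp, zero_of (fun u hu h => by
      have := hmin u hu
      omega)⟩

/-- the combinatorial half of YE -/
theorem main (hX : S_XLT) (m : ℕ → ℕ) (hm : Monotone m) (U R D : Finset ℕ) (r s : ℕ)
    (hr : r ∈ U) (hmin : ∀ u ∈ U, r ≤ u) (hcn : cn m U = 1) (hs : 2 ≤ s) (hRU : R ⊆ U)
    (hRc : R.card = s) (hRlt : ∀ u ∈ U \ R, ∀ v ∈ R, v < u) (hD : D ⊆ U \ R)
    (hD2 : 2 ≤ D.card) (hDlt : ∀ u ∈ (U \ R) \ D, ∀ v ∈ D, v < u) (hOk : Ok m (U \ R) D) :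
    ∃ C T : Finset ℕ, C ⊆ U ∧ r ∈ C ∧ C.card = D.card ∧ T ⊆ U \ C ∧ T.card = s ∧
      (U \ C) \ T = (U \ R) \ D ∧ cnc m C ∧ cnc m T ∧ U \ C ≠ U ∧
      (∃ t ∈ T, ∀ u ∈ U \ C, t ≤ u) ∧
      ea m (U \ C) T + cn m (U \ C) = cn m ((U \ C) \ T) + 1 ∧
      ∃ e, 1 ≤ e ∧ e ≤ s ∧ ea m U C + 1 = e + cn m (U \ C) := by
  classical
  set P := (U \ R) \ D with hP
  have hDU : D ⊆ U := fun x hx => (Finset.mem_sdiff.1 (hD hx)).1
  have hDR : ∀ x ∈ D, x ∉ R := fun x hx => (Finset.mem_sdiff.1 (hD hx)).2
  have hPm : ∀ x, x ∈ P ↔ x ∈ U ∧ x ∉ R ∧ x ∉ D := by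
    intro x
    rw [hP, Finset.mem_sdiff, Finset.mem_sdiff]
    tauto
  have hRD : Disjoint R D := by
    rw [Finset.disjoint_left]
    intro x h1 h2
    exact hDR x h2 h1
  have hRP : ∀ x ∈ R, ∀ v ∈ P, x < v := fun x hx v hv =>
    hRlt v (Finset.mem_sdiff.2 ⟨((hPm v).1 hv).1, ((hPm v).1 hv).2.1⟩) x hx
  have hDP : ∀ x ∈ D, ∀ v ∈ P, x < v := fun x hx v hv => hDlt v hv x hx
  have hRDlt : ∀ x ∈ R, ∀ v ∈ D, x < v := fun x hx v hv => hRlt v (hD hv) x hx
  have hRne : R.Nonempty := by
    rw [← Finset.card_pos]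
    omega
  have hrR : r ∈ R := by
    by_contra h
    obtain ⟨x, hx⟩ := hRne
    have h1 := hRlt r (Finset.mem_sdiff.2 ⟨hr, h⟩) x hx
    have h2 := hmin x (hRU hx)
    omega
  have hRPD : R ∪ D ⊆ U := Finset.union_subset hRU hDU
  have hSP : ∀ x ∈ R ∪ D, ∀ v ∈ P, x < v := by
    intro x hx v hv
    rcases Finset.mem_union.1 hx with h | h
    · exact hRP x h v hv
    · exact hDP x h v hv
  have hUdec : ∀ x ∈ U, x ∈ R ∪ D ∨ x ∈ P := by
    intro x hx
    by_cases h1 : x ∈ R ∪ D
    · exact Or.inl h1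
    · rw [Finset.mem_union, not_or] at h1
      exact Or.inr ((hPm x).2 ⟨hx, h1.1, h1.2⟩)
  -- P connected
  have hPc : ∀ p ∈ P, (∀ u ∈ P, p ≤ u) → ∀ v ∈ P, p < v → ∃ u ∈ P, u < v ∧ v ≤ m u := by
    intro p hp hpm v hv hpv
    have hrv : r < v := hRP r hrR v hv
    obtain ⟨u, h1, h2, h3⟩ := conn hr hmin hcn v ((hPm v).1 hv).1 hrv
    rcases hUdec u h1 with h4 | h4
    · have h5 := hSP u h4 p hp
      exact ⟨p, hp, hpv, h3.trans (hm h5.le)⟩
    · exact ⟨u, h4, h2, h3⟩
  have hcnP : cn m P ≤ 1 := by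
    rcases P.eq_empty_or_nonempty with h | h
    · rw [h]
      unfold cn
      simp
    · have h1 := cn_one (m := m) (P.min'_mem h) (fun u hu => P.min'_le u hu)
        (hPc _ (P.min'_mem h) (fun u hu => P.min'_le u hu))
      omega
  -- the edges from D into P
  have hDe : ∑ v ∈ P, aL m D v = cn m P := hOk.2
  -- no edges from R into P
  have hRe : ∀ v ∈ P, aL m R v = 0 := by
    intro v hv
    apply zero_of
    intro u hu h1 h2
    have h3 : aL m D v = D.card := by
      unfold aL
      rw [Finset.filter_true_of_mem]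
      intro d hd
      exact ⟨hDP d hd v hv, h2.trans (hm (hRDlt u hu d hd).le)⟩
    have h4 : aL m D v ≤ ∑ v ∈ P, aL m D v :=
      Finset.single_le_sum (f := fun v => aL m D v) (fun i _ => Nat.zero_le _) hv
    omega
  -- S connected
  have hSc : cnc m (R ∪ D) := by
    rintro v hv ⟨w, hw, hwv⟩
    have h0 := hmin w (hRPD hw)
    obtain ⟨u, h1, h2, h3⟩ := conn hr hmin hcn v (hRPD hv) (by omega)
    rw [pos_iff]
    rcases hUdec u h1 with h4 | h4
    · exact ⟨u, h4, h2, h3⟩
    · have := hSP v hv u h4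
      omega
  have hScard : (R ∪ D).card = s + D.card := by
    rw [Finset.card_union_of_disjoint hRD, hRc]
  obtain ⟨T, hTS, hrT, hTc, hTcn, hCcn, hee⟩ := hX m hm (R ∪ D) r s hSc
    (Finset.mem_union_left _ hrR) (fun u hu => hmin u (hRPD hu)) (by omega) (by omega)
  set C := (R ∪ D) \ T with hC
  have hCS : C ⊆ R ∪ D := Finset.sdiff_subset
  have hCU : C ⊆ U := hCS.trans hRPD
  have hTU : T ⊆ U := hTS.trans hRPD
  have hTC : Disjoint T C := Finset.disjoint_sdiff
  have hTCu : T ∪ C = R ∪ D := Finset.union_sdiff_of_subset hTS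
  have hTP : Disjoint T P := by
    rw [Finset.disjoint_left]
    intro x h1 h2
    exact lt_irrefl _ (hSP x (hTS h1) x h2)
  have hCP : ∀ x ∈ C, x ∉ P := fun x h1 h2 => lt_irrefl _ (hSP x (hCS h1) x h2)
  have hV : U \ C = T ∪ P := by
    ext x
    rw [Finset.mem_sdiff, Finset.mem_union]
    constructor
    · rintro ⟨h1, h2⟩
      rcases hUdec x h1 with h3 | h3
      · left
        by_contra h4
        exact h2 (Finset.mem_sdiff.2 ⟨h3, h4⟩)
      · exact Or.inr h3
    · rintro (h1 | h1)
      · exact ⟨hTU h1, fun h2 => (Finset.mem_sdiff.1 h2).2 h1⟩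
      · exact ⟨((hPm x).1 h1).1, fun h2 => hCP x h2 h1⟩
  have hVT : (U \ C) \ T = P := by
    rw [hV]
    ext x
    rw [Finset.mem_sdiff, Finset.mem_union]
    constructor
    · rintro ⟨h1 | h1, h2⟩
      · exact absurd h1 h2
      · exact h1
    · intro h1
      exact ⟨Or.inr h1, fun h2 => (Finset.disjoint_left.1 hTP) h2 h1⟩
  have hTne : T.Nonempty := by
    rw [← Finset.card_pos]
    omega
  have hrC : r ∈ C := Finset.mem_sdiff.2 ⟨Finset.mem_union_left _ hrR, hrT⟩
  have hCcard : C.card = D.card := by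
    have h1 : T.card + C.card = (R ∪ D).card := by
      rw [← Finset.card_union_of_disjoint hTC, hTCu]
    omega
  -- edges
  have hxy : ∀ v ∈ P, aL m T v + aL m C v = aL m D v := by
    intro v hv
    rw [← un hTC, hTCu, un hRD, hRe v hv, zero_add]
  have hsum : (∑ v ∈ P, aL m T v) + ∑ v ∈ P, aL m C v = cn m P := by
    rw [← Finset.sum_add_distrib, ← hDe]
    exact Finset.sum_congr rfl hxy
  have heaC : ea m U C = eCT m C T + ∑ v ∈ P, aL m C v := by
    unfold ea eCT
    rw [hV, Finset.sum_union hTP]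
  have heaT : ea m (U \ C) T = ∑ v ∈ P, aL m T v := by
    unfold ea
    rw [hVT]
  -- the number of components of V
  have hTf : ∀ v ∈ T, aL m (T ∪ P) v = aL m T v := by
    intro v hv
    rw [un hTP, zero_of (S := P) (fun u hu h => by
      have := hSP v (hTS hv) u hu
      omega), add_zero]
  set t := T.min' hTne with ht
  have htT : t ∈ T := T.min'_mem hTne
  have htm : ∀ u ∈ T, t ≤ u := fun u hu => T.min'_le u hu
  have htV : ∀ u ∈ U \ C, t ≤ u := by
    rw [hV]
    intro u hu
    rcases Finset.mem_union.1 hu with h | h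
    · exact htm u h
    · exact (hSP t (hTS htT) u h).le
  have hcnV : cn m (U \ C) = 1 + ∑ v ∈ P, aL m C v := by
    rcases P.eq_empty_or_nonempty with h | h
    · have h1 : U \ C = T := by rw [hV, h, Finset.union_empty]
      rw [h1, h, Finset.sum_empty]
      refine (cn_one htT htm (fun v hv hv2 => ?_))
      exact pos_iff.1 (hTcn v hv ⟨t, htT, hv2⟩)
    · set p := P.min' h with hp
      have hpP : p ∈ P := P.min'_mem h
      have hpm : ∀ u ∈ P, p ≤ u := fun u hu => P.min'_le u hu
      have hcP : cn m P = 1 := cn_one hpP hpm (hPc p hpP hpm)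
      have hTp : ∑ v ∈ P, aL m T v = aL m T p := by
        apply Finset.sum_eq_single_of_mem p hpP
        intro v hv hvp
        by_contra h0
        obtain ⟨u, h1, h2, h3⟩ := pos_iff.1 (Nat.pos_of_ne_zero h0)
        have h4 := hpm v hv
        have h5 : 0 < aL m T p :=
          pos_iff.2 ⟨u, h1, hSP u (hTS h1) p hpP, h4.trans h3⟩
        have h6 : aL m T p + aL m T v ≤ ∑ v ∈ P, aL m T v := by
          rw [← Finset.sum_pair (f := fun v => aL m T v) (Ne.symm hvp)]
          apply Finset.sum_le_sum_of_subset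
          intro x hx
          rw [Finset.mem_insert, Finset.mem_singleton] at hx
          rcases hx with rfl | rfl
          · exact hpP
          · exact hv
        omega
      have hTp1 : aL m T p ≤ 1 := by omega
      have hfil : (U \ C).filter (fun v => aL m (U \ C) v = 0) =
          insert t (if aL m T p = 0 then {p} else ∅) := by
        rw [hV]
        ext v
        rw [Finset.mem_filter, Finset.mem_insert, Finset.mem_union]
        constructor
        · rintro ⟨h1 | h1, h2⟩
          · left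
            rw [hTf v h1] at h2
            by_contra h3
            have h4 := htm v h1
            have h5 := hTcn v h1 ⟨t, htT, by omega⟩
            omega
          · right
            rw [un hTP] at h2
            have h3 : v = p := by
              by_contra h3
              have h4 := hpm v h1
              have h5 := pos_iff.2 (hPc p hpP hpm v h1 (by omega))
              omega
            subst h3
            rw [if_pos (by omega)]
            exact Finset.mem_singleton_self _
        · rintro (h1 | h1)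
          · subst h1
            refine ⟨Or.inl htT, ?_⟩
            rw [hTf _ htT]
            exact zero_of (fun u hu h => by
              have := htm u hu
              omega)
          · by_cases h2 : aL m T p = 0
            · rw [if_pos h2, Finset.mem_singleton] at h1
              subst h1
              refine ⟨Or.inr hpP, ?_⟩
              rw [un hTP, h2, zero_add]
              exact zero_of (fun u hu h => by
                have := hpm u hu
                omega)
            · rw [if_neg h2] at h1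
              exact absurd h1 (Finset.notMem_empty _)
      have htp : t < p := hSP t (hTS htT) p hpP
      unfold cn
      rw [hfil]
      by_cases h2 : aL m T p = 0
      · rw [if_pos h2, Finset.card_pair (by omega)]
        omega
      · rw [if_neg h2, Finset.card_insert_of_notMem (Finset.notMem_empty _), Finset.card_empty]
        omega
  -- the first vertex of T has a left neighbour in C
  have he1 : 1 ≤ eCT m C T := by
    have h1 : 0 < aL m (R ∪ D) t := hSc t (hTS htT) ⟨r, Finset.mem_union_left _ hrR, by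
      have h2 := hmin t (hTU htT)
      have h3 : r ≠ t := fun h => hrT (h ▸ htT)
      omega⟩
    rw [← hTCu, un hTC] at h1
    have h2 : aL m T t = 0 := zero_of (fun u hu h => by
      have := htm u hu
      omega)
    have h3 : aL m C t ≤ eCT m C T :=
      Finset.single_le_sum (f := fun v => aL m C v) (fun i _ => Nat.zero_le _) htT
    omega
  refine ⟨C, T, hCU, hrC, hCcard, ?_, hTc, hVT, hCcn, hTcn, ?_, ⟨t, htT, htV⟩, ?_, eCT m C T, he1, hee, ?_⟩
  · rw [hV]
    exact Finset.subset_union_left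
  · intro h
    have : r ∈ U \ C := by rw [h]; exact hr
    exact (Finset.mem_sdiff.1 this).2 hrC
  · rw [hVT, heaT, hcnV]
    omega
  · rw [heaC, hcnV]
    omega

end YEc

end Pool.Agent.LOW
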