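import Pool.Agent.Lib.MP_263316_co.EX.Spec

/-!
MP_263316_co, project EX, the coefficient half of YE.
-/

set_option autoImplicit false

namespace Pool.Agent.LOW

open Finset Pool.Agent.SWC

namespace YEc

private theorem coef_ge (P A : Polynomial ℤ) (e J d : ℕ) (hP : INCaux.NN P) (hP0 : P.coeff 0 = 1)
    (hA : ∀ b, b + e ≤ J → 0 ≤ A.coeff b) (hd : d + e ≤ J)
    (hch : ∀ j, d ≤ j → j + 1 + e ≤ J → A.coeff j ≤ A.coeff (j + 1)) :
    A.coeff d ≤ (P * Polynomial.X ^ e * A).coeff J := by
  have h1 : P * Polynomial.X ^ e * A = (P * A) * Polynomial.X ^ e := by ring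
  rw [h1, Polynomial.coeff_mul_X_pow', if_pos (by omega), Polynomial.coeff_mul]
  have h2 : A.coeff d ≤ A.coeff (J - e) := by
    have h3 : ∀ n, d + n + e ≤ J → A.coeff d ≤ A.coeff (d + n) := by
      intro n
      induction n with
      | zero => intro _; exact le_rfl
      | succ n ih =>
        intro hn
        exact (ih (by omega)).trans (hch (d + n) (by omega) (by omega))
    have h4 := h3 (J - e - d) (by omega)
    have h5 : d + (J - e - d) = J - e := by omega
    rwa [h5] at h4
  have h6 : ∀ x ∈ antidiagonal (J - e), 0 ≤ P.coeff x.1 * A.coeff x.2 := by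
    intro x hx
    rw [Finset.HasAntidiagonal.mem_antidiagonal] at hx
    exact mul_nonneg (hP _) (hA _ (by omega))
  have h7 : (0, J - e) ∈ antidiagonal (J - e) := by
    rw [Finset.HasAntidiagonal.mem_antidiagonal]
    simp
  have h8 := Finset.single_le_sum h6 h7
  simp only [hP0, one_mul] at h8
  exact h2.trans h8

private theorem single_sum {N : ℕ} (k : ℕ) (i : Fin N) (hi : (i : ℕ) + 1 = k) {M : Type}
    [AddCommMonoid M] (p : Fin N → Prop) [DecidablePred p] (hp : p i) (F : Fin N → M) :
    ∑ i' : Fin N, (if (i' : ℕ) + 1 = k ∧ p i' then F i' else 0) = F i := by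
  rw [Finset.sum_eq_single i]
  · rw [if_pos ⟨hi, hp⟩]
  · intro b _ hb
    rw [if_neg]
    rintro ⟨h1, _⟩
    apply hb
    apply Fin.ext
    omega
  · intro h
    exact absurd (Finset.mem_univ i) h

theorem yeCoef (hQ : S_YQ) (hL : S_YL) (m : ℕ → ℕ) (hm : Monotone m) (N : ℕ) (U : Finset ℕ)
    (r s J : ℕ) (hr : r ∈ U) (hmin : ∀ u ∈ U, r ≤ u) (hcard : U.card ≤ N) (hcn : cn m U = 1)
    (hs : 2 ≤ s) (f : Fin N →₀ ℕ) (hf : big s f) (hJ : J + 2 = len f + s)
    (hPM : ∀ V ⊆ U, V ≠ U → PM m N s V) (C T : Finset ℕ) (hC : C ⊆ U) (hrC : r ∈ C)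
    (hcC : cnc m C) (t : ℕ) (ht : t ∈ T) (hT : T ⊆ U \ C) (htmin : ∀ u ∈ U \ C, t ≤ u)
    (hTc : cnc m T) (hTs : T.card = s)
    (e1 : ea m (U \ C) T + cn m (U \ C) = cn m ((U \ C) \ T) + 1)
    (e2 : ea m U C + 1 ≤ cn m (U \ C) + s) (i : Fin N) (hi : (i : ℕ) + 1 = s) (hfi : 0 < f i) :
    Lwd m N ((U \ C) \ T) (f - Finsupp.single i 1) C.card ≤
      (Pi m (Polynomial.X : Polynomial ℤ) r C * Polynomial.X ^ ea m U C *
        cfd m N (U \ C) f C.card).coeff J := by
  have hnn : 0 ≤ (Pi m (Polynomial.X : Polynomial ℤ) r C * Polynomial.X ^ ea m U C *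
        cfd m N (U \ C) f C.card).coeff J :=
    hQ m hm N U r s J hr hmin hcard hcn f hf hJ hPM C hC hrC
  by_cases hex : ∃ i' : Fin N, (i' : ℕ) + 1 = C.card ∧ 0 < (f - Finsupp.single i 1 : Fin N →₀ ℕ) i'
  · obtain ⟨i', hi', hfi'⟩ := hex
    have hfi'0 : 0 < f i' := by
      refine lt_of_lt_of_le hfi' ?_
      rw [Finsupp.tsub_apply]
      exact Nat.sub_le _ _
    set f' := f - Finsupp.single i' 1 with hf'
    have hcomm : f - Finsupp.single i 1 - Finsupp.single i' 1 = f' - Finsupp.single i 1 := by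
      rw [hf', tsub_tsub, tsub_tsub, add_comm]
    have hf'i : 0 < f' i := by
      rw [hf', Finsupp.tsub_apply]
      rcases eq_or_ne i' i with h | h
      · subst h
        rw [Finsupp.tsub_apply, Finsupp.single_eq_same] at hfi'
        rw [Finsupp.single_eq_same]
        exact hfi'
      · rw [Finsupp.single_apply, if_neg h]
        simpa using hfi
    have hlen : len f = len f' + 1 := LWRaux.len_sub f i' hfi'0
    have hbig' : big s f' := by
      intro j hj
      refine hf j (lt_of_lt_of_le hj ?_)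
      rw [hf', Finsupp.tsub_apply]
      exact Nat.sub_le _ _
    have hbig2 : big 2 f' := fun j hj => hs.trans (hbig' j hj)
    -- left side
    have hl : Lwd m N ((U \ C) \ T) (f - Finsupp.single i 1) C.card =
        Lwd m N ((U \ C) \ T) f' T.card := by
      unfold Lwd
      rw [single_sum C.card i' hi' (fun j => 0 < (f - Finsupp.single i 1 : Fin N →₀ ℕ) j) hfi'
        (fun j => Lw m N ((U \ C) \ T) (f - Finsupp.single i 1 - Finsupp.single j 1)),
        single_sum T.card i (by rw [hTs]; exact hi) (fun j => 0 < f' j) hf'i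
        (fun j => Lw m N ((U \ C) \ T) (f' - Finsupp.single j 1)), hcomm]
    -- right side
    have hrr : cfd m N (U \ C) f C.card = cf m N (U \ C) f' := by
      unfold cfd
      rw [single_sum C.card i' hi' (fun j => 0 < f j) hfi'0
        (fun j => cf m N (U \ C) (f - Finsupp.single j 1))]
    have hVN : (U \ C).card ≤ N := (Finset.card_le_card Finset.sdiff_subset).trans hcard
    have hLw := hL m hm N (U \ C) T t ht hT htmin hVN hTc e1 f' hbig2
    rw [hl]
    refine hLw.trans ?_
    by_cases hle : cn m (U \ C) ≤ len f'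
    · have e3 : Lw m N (U \ C) f' = (cf m N (U \ C) f').coeff (len f' - cn m (U \ C)) := by
        unfold Lw
        rw [if_pos hle]
      have hcnt := (tCNT m hm U C r hr hmin hC hrC).1
      rw [hcn] at hcnt
      have hVne : (U \ C).Nonempty := ⟨t, hT ht⟩
      have hVU : U \ C ≠ U := by
        intro h
        have h1 : r ∈ U \ C := by rw [h]; exact hr
        exact (Finset.mem_sdiff.mp h1).2 hrC
      have hP := hPM (U \ C) Finset.sdiff_subset hVU f' hbig'
      rw [e3, hrr]
      refine coef_ge _ _ _ _ _ (INCaux.inc_nn_Pi m r C) ?_ ?_ ?_ ?_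
      · rw [LWRaux.Pi_coeff, if_pos]
        intro v hv
        rw [Finset.mem_erase] at hv
        exact hcC v hv.2 ⟨r, hrC, lt_of_le_of_ne (hmin v (hC hv.2)) (Ne.symm hv.1)⟩
      · intro b hb
        exact hP.1 b (by omega)
      · omega
      · intro j hj1 hj2
        exact hP.2 hVne j (by omega)
    · have e3 : Lw m N (U \ C) f' = 0 := by
        unfold Lw
        rw [if_neg hle]
      rw [e3]
      exact hnn
  · have hz : Lwd m N ((U \ C) \ T) (f - Finsupp.single i 1) C.card = 0 := by
      unfold Lwd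
      apply Finset.sum_eq_zero
      intro j _
      rw [if_neg]
      intro h
      exact hex ⟨j, h⟩
    rw [hz]
    exact hnn

end YEc

end Pool.Agent.LOW
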