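import Pool.Agent.Lib.MP_263316_co.EX.Spec

set_option autoImplicit false

namespace Pool.Agent.LOW

open Finset Pool.Agent.SWC

namespace YEkaux

theorem pos_iff (m : ℕ → ℕ) (S : Finset ℕ) (v : ℕ) :
    0 < aL m S v ↔ ∃ u ∈ S, u < v ∧ v ≤ m u := by
  unfold aL
  rw [Finset.card_pos]
  constructor
  · rintro ⟨u, hu⟩
    rw [Finset.mem_filter] at hu
    exact ⟨u, hu.1, hu.2⟩
  · rintro ⟨u, hu, h⟩
    exact ⟨u, Finset.mem_filter.mpr ⟨hu, h⟩⟩

theorem aL_union (m : ℕ → ℕ) (A B : Finset ℕ) (h : Disjoint A B) (v : ℕ) :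
    aL m (A ∪ B) v = aL m A v + aL m B v := by
  unfold aL
  rw [Finset.filter_union, Finset.card_union_of_disjoint]
  exact Finset.disjoint_filter_filter h

theorem conn (m : ℕ → ℕ) (U : Finset ℕ) (r : ℕ) (hr : r ∈ U) (hmin : ∀ u ∈ U, r ≤ u)
    (hc : cn m U = 1) : ∀ v ∈ U, v ≠ r → 0 < aL m U v := by
  intro v hv hne
  by_contra h0
  have h0' : aL m U v = 0 := by omega
  have hr0 : aL m U r = 0 := by
    by_contra h
    obtain ⟨u, hu, h1, _⟩ := (pos_iff m U r).mp (Nat.pos_of_ne_zero h)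
    exact absurd (hmin u hu) (by omega)
  unfold cn at hc
  obtain ⟨a, ha⟩ := Finset.card_eq_one.mp hc
  have h1 : r ∈ U.filter (fun v => aL m U v = 0) := Finset.mem_filter.mpr ⟨hr, hr0⟩
  have h2 : v ∈ U.filter (fun v => aL m U v = 0) := Finset.mem_filter.mpr ⟨hv, h0'⟩
  rw [ha, Finset.mem_singleton] at h1 h2
  exact hne (h2.trans h1.symm)

/-- connected nonempty sets have one component -/
theorem cn_one (m : ℕ → ℕ) (T : Finset ℕ) (t : ℕ) (ht : t ∈ T) (hmin : ∀ u ∈ T, t ≤ u)
    (hc : cnc m T) : T.filter (fun v => aL m T v = 0) = {t} := by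
  ext v
  rw [Finset.mem_filter, Finset.mem_singleton]
  constructor
  · rintro ⟨hv, h0⟩
    by_contra hne
    have := hc v hv ⟨t, ht, lt_of_le_of_ne (hmin v hv) (Ne.symm hne)⟩
    omega
  · rintro rfl
    refine ⟨ht, ?_⟩
    by_contra h
    obtain ⟨u, hu, h1, _⟩ := (pos_iff m T v).mp (Nat.pos_of_ne_zero h)
    exact absurd (hmin u hu) (by omega)

end YEkaux

open YEkaux in
theorem YEcomb (hX : S_XLT) (m : ℕ → ℕ) (hm : Monotone m) (U R D : Finset ℕ) (r s : ℕ)
    (hr : r ∈ U) (hmin : ∀ u ∈ U, r ≤ u) (hcn : cn m U = 1) (hs : 2 ≤ s) (hRU : R ⊆ U)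
    (hRs : R.card = s) (hRi : ∀ u ∈ U \ R, ∀ v ∈ R, v < u) (hD : D ⊆ U \ R)
    (hDi : ∀ u ∈ (U \ R) \ D, ∀ v ∈ D, v < u) (hOk : Ok m (U \ R) D) (hD2 : 2 ≤ D.card) :
    ∃ C T : Finset ℕ, ∃ t : ℕ, C ⊆ U ∧ r ∈ C ∧ cnc m C ∧ T ⊆ U \ C ∧ cnc m T ∧ T.card = s ∧
      t ∈ T ∧ (∀ u ∈ U \ C, t ≤ u) ∧ (U \ C) \ T = (U \ R) \ D ∧ C.card = D.card ∧
      ea m (U \ C) T + cn m (U \ C) = cn m ((U \ C) \ T) + 1 ∧
      ea m U C + 1 ≤ cn m (U \ C) + s ∧ cn m (U \ C) ≤ ea m U C := by
  classical
  have hDU : ∀ u ∈ D, u ∈ U ∧ u ∉ R := fun u hu => Finset.mem_sdiff.mp (hD hu)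
  have hdRD : Disjoint R D := by
    rw [Finset.disjoint_left]
    intro u h1 h2
    exact (hDU u h2).2 h1
  obtain ⟨S, hS⟩ : ∃ S, S = R ∪ D := ⟨_, rfl⟩
  have hSU : S ⊆ U := by
    rw [hS]
    exact Finset.union_subset hRU (fun u hu => (hDU u hu).1)
  have hSi : ∀ u ∈ U, u ∉ S → ∀ v ∈ S, v < u := by
    intro u hu huS v hv
    rw [hS, Finset.mem_union, not_or] at huS
    rw [hS, Finset.mem_union] at hv
    rcases hv with hv | hv
    · exact hRi u (Finset.mem_sdiff.mpr ⟨hu, huS.1⟩) v hv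
    · exact hDi u (Finset.mem_sdiff.mpr ⟨Finset.mem_sdiff.mpr ⟨hu, huS.1⟩, huS.2⟩) v hv
  have hRne : R.Nonempty := Finset.card_pos.mp (by omega)
  have hrR : r ∈ R := by
    by_contra h
    obtain ⟨v, hv⟩ := hRne
    have h1 := hRi r (Finset.mem_sdiff.mpr ⟨hr, h⟩) v hv
    have h2 := hmin v (hRU hv)
    omega
  have hrS : r ∈ S := by
    rw [hS]
    exact Finset.mem_union_left _ hrR
  have hconn := conn m U r hr hmin hcn
  have hcS : cnc m S := by
    rintro v hv ⟨w, hw, hwv⟩
    have hvr : v ≠ r := by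
      have := hmin w (hSU hw)
      omega
    obtain ⟨u, hu, h1, h2⟩ := (pos_iff m U v).mp (hconn v (hSU hv) hvr)
    refine (pos_iff m S v).mpr ⟨u, ?_, h1, h2⟩
    by_contra h
    have := hSi u hu h v hv
    omega
  have hScard : S.card = s + D.card := by
    rw [hS, Finset.card_union_of_disjoint hdRD, hRs]
  obtain ⟨T, hTS, hrT, hTc, hTn, hCn, hE⟩ := hX m hm S r s hcS hrS (fun u hu => hmin u (hSU hu))
    (by omega) (by omega)
  have hTne : T.Nonempty := Finset.card_pos.mp (by omega)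
  obtain ⟨t, ht, htm⟩ : ∃ t ∈ T, ∀ u ∈ T, t ≤ u :=
    ⟨T.min' hTne, Finset.min'_mem T hTne, fun u hu => Finset.min'_le T u hu⟩
  obtain ⟨P, hP⟩ : ∃ P, P = U \ S := ⟨_, rfl⟩
  have hPS : (U \ R) \ D = P := by
    rw [hP, hS]
    ext u
    simp only [Finset.mem_sdiff, Finset.mem_union]
    tauto
  have hUC : U \ (S \ T) = T ∪ P := by
    rw [hP]
    ext u
    simp only [Finset.mem_sdiff, Finset.mem_union]
    constructor
    · rintro ⟨h1, h2⟩
      by_cases h3 : u ∈ T
      · exact Or.inl h3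
      · exact Or.inr ⟨h1, fun h4 => h2 ⟨h4, h3⟩⟩
    · rintro (h | ⟨h1, h2⟩)
      · exact ⟨hSU (hTS h), fun h3 => h3.2 h⟩
      · exact ⟨h1, fun h3 => h2 h3.1⟩
  have hPU : ∀ u ∈ P, u ∈ U ∧ u ∉ S := fun u hu => by
    rw [hP] at hu
    exact Finset.mem_sdiff.mp hu
  have hPgt : ∀ u ∈ P, ∀ v ∈ S, v < u := fun u hu v hv => hSi u (hPU u hu).1 (hPU u hu).2 v hv
  have hdTP : Disjoint T P := by
    rw [Finset.disjoint_left]
    intro u h1 h2
    exact (hPU u h2).2 (hTS h1)
  have hUCT : (U \ (S \ T)) \ T = P := by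
    rw [hUC]
    ext u
    simp only [Finset.mem_sdiff, Finset.mem_union]
    constructor
    · rintro ⟨h1 | h1, h2⟩
      · exact absurd h1 h2
      · exact h1
    · intro h
      exact ⟨Or.inr h, fun h2 => Finset.disjoint_left.mp hdTP h2 h⟩
  -- the sums
  have hx : ea m U (S \ T) = eCT m (S \ T) T + ∑ v ∈ P, aL m (S \ T) v := by
    unfold ea eCT
    rw [hUC, Finset.sum_union hdTP]
  have hy : ea m (U \ (S \ T)) T = ∑ v ∈ P, aL m T v := by
    unfold ea
    rw [hUCT]
  have hOk2 : ∑ v ∈ P, aL m D v = cn m P := by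
    have := hOk.2
    unfold ea at this
    rw [hPS] at this
    exact this
  have hPconn : ∀ v ∈ P, (∃ w ∈ P, w < v) → 0 < aL m P v := by
    rintro v hv ⟨w, hw, hwv⟩
    have hvr : v ≠ r := by
      have := hPgt v hv r hrS
      omega
    obtain ⟨u, hu, h1, h2⟩ := (pos_iff m U v).mp (hconn v (hPU v hv).1 hvr)
    by_cases huP : u ∈ P
    · exact (pos_iff m P v).mpr ⟨u, huP, h1, h2⟩
    · have huS : u ∈ S := by
        by_contra h
        exact huP (by rw [hP]; exact Finset.mem_sdiff.mpr ⟨hu, h⟩)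
      have h3 := hPgt w hw u huS
      have h4 := hm h3.le
      exact (pos_iff m P v).mpr ⟨w, hw, hwv, by omega⟩
  have hcnP : cn m P ≤ 1 := by
    rcases Finset.eq_empty_or_nonempty P with h | h
    · rw [h]
      simp [cn]
    · have h1 := cn_one m P (P.min' h) (Finset.min'_mem P h) (fun u hu => Finset.min'_le P u hu)
        hPconn
      unfold cn
      rw [h1, Finset.card_singleton]
  have hR0 : ∀ v ∈ P, aL m R v = 0 := by
    intro v hv
    by_contra h
    obtain ⟨u, hu, h1, h2⟩ := (pos_iff m R v).mp (Nat.pos_of_ne_zero h)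
    have h3 : aL m D v = D.card := by
      unfold aL
      congr 1
      rw [Finset.filter_eq_self]
      intro d hd
      have h4 := hRi d (hD hd) u hu
      have h5 := hm h4.le
      have h6 := hPgt v hv d (by rw [hS]; exact Finset.mem_union_right _ hd)
      exact ⟨h6, by omega⟩
    have h4 : aL m D v ≤ ∑ v ∈ P, aL m D v :=
      Finset.single_le_sum (f := fun v => aL m D v) (fun _ _ => Nat.zero_le _) hv
    omega
  have hxy : ∑ v ∈ P, aL m (S \ T) v + ∑ v ∈ P, aL m T v = cn m P := by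
    rw [← hOk2, ← Finset.sum_add_distrib]
    refine Finset.sum_congr rfl fun v hv => ?_
    have h1 : aL m S v = aL m (S \ T) v + aL m T v := by
      rw [← aL_union m (S \ T) T Finset.sdiff_disjoint v, Finset.sdiff_union_of_subset hTS]
    have h2 : aL m S v = aL m R v + aL m D v := by
      rw [hS, aL_union m R D hdRD v]
    have h3 := hR0 v hv
    omega
  -- the number of components of T ∪ P
  have hTf := cn_one m T t ht htm hTn
  have hVT : ∀ v ∈ T, aL m (T ∪ P) v = aL m T v := by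
    intro v hv
    rw [aL_union m T P hdTP v]
    have : aL m P v = 0 := by
      by_contra h
      obtain ⟨u, hu, h1, _⟩ := (pos_iff m P v).mp (Nat.pos_of_ne_zero h)
      have := hPgt u hu v (hTS hv)
      omega
    omega
  have hfT : T.filter (fun v => aL m (T ∪ P) v = 0) = {t} := by
    rw [← hTf]
    refine Finset.filter_congr fun v hv => ?_
    rw [hVT v hv]
  have hcnV : cn m (T ∪ P) = 1 + ∑ v ∈ P, aL m (S \ T) v := by
    have h1 : cn m (T ∪ P) = 1 + (P.filter (fun v => aL m (T ∪ P) v = 0)).card := by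
      unfold cn
      rw [Finset.filter_union, Finset.card_union_of_disjoint
        (Finset.disjoint_filter_filter hdTP), hfT, Finset.card_singleton]
    rw [h1]
    congr 1
    rcases Finset.eq_empty_or_nonempty P with h | h
    · rw [h]
      simp
    · have hp0 : P.min' h ∈ P := Finset.min'_mem P h
      have hpm : ∀ u ∈ P, P.min' h ≤ u := fun u hu => Finset.min'_le P u hu
      obtain ⟨p, hp⟩ : ∃ p, p = P.min' h := ⟨_, rfl⟩
      rw [← hp] at hp0 hpm
      have hPf := cn_one m P p hp0 hpm hPconn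
      have hcnP1 : cn m P = 1 := by
        unfold cn
        rw [hPf, Finset.card_singleton]
      have haLp : aL m P p = 0 := by
        have : p ∈ P.filter (fun v => aL m P v = 0) := by
          rw [hPf]
          exact Finset.mem_singleton_self p
        exact (Finset.mem_filter.mp this).2
      have hrest : ∀ v ∈ P, v ≠ p → aL m T v = 0 := by
        intro v hv hne
        by_contra h0
        obtain ⟨u, hu, h1, h2⟩ := (pos_iff m T v).mp (Nat.pos_of_ne_zero h0)
        have h3 : p < v := lt_of_le_of_ne (hpm v hv) (Ne.symm hne)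
        have h4 : 0 < aL m T p := (pos_iff m T p).mpr ⟨u, hu, hPgt p hp0 u (hTS hu), by omega⟩
        have h5 : ∑ v ∈ P, aL m T v = aL m T p + ∑ v ∈ P.erase p, aL m T v :=
          (Finset.add_sum_erase P (fun v => aL m T v) hp0).symm
        have h6 : aL m T v ≤ ∑ v ∈ P.erase p, aL m T v :=
          Finset.single_le_sum (f := fun v => aL m T v) (fun _ _ => Nat.zero_le _)
            (Finset.mem_erase.mpr ⟨hne, hv⟩)
        omega
      have hyp : ∑ v ∈ P, aL m T v = aL m T p := by
        rw [← Finset.add_sum_erase P (fun v => aL m T v) hp0]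
        rw [Finset.sum_eq_zero (s := P.erase p) fun v hv => hrest v (Finset.mem_erase.mp hv).2
          (Finset.mem_erase.mp hv).1, add_zero]
      have hset : P.filter (fun v => aL m (T ∪ P) v = 0) =
          if aL m T p = 0 then {p} else ∅ := by
        split_ifs with h0
        · ext v
          rw [Finset.mem_filter, Finset.mem_singleton, aL_union m T P hdTP v]
          constructor
          · rintro ⟨hv, h1⟩
            have : v ∈ P.filter (fun v => aL m P v = 0) :=
              Finset.mem_filter.mpr ⟨hv, by omega⟩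
            rw [hPf, Finset.mem_singleton] at this
            exact this
          · rintro rfl
            exact ⟨hp0, by omega⟩
        · ext v
          rw [Finset.mem_filter, aL_union m T P hdTP v]
          constructor
          · rintro ⟨hv, h1⟩
            have h2 : v ∈ P.filter (fun v => aL m P v = 0) :=
              Finset.mem_filter.mpr ⟨hv, by omega⟩
            rw [hPf, Finset.mem_singleton] at h2
            rw [h2] at h1
            omega
          · intro h1
            exact absurd h1 (Finset.notMem_empty v)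
      rw [hset]
      split_ifs with h0
      · rw [Finset.card_singleton]
        omega
      · rw [Finset.card_empty]
        omega
  refine ⟨S \ T, T, t, Finset.sdiff_subset.trans hSU, Finset.mem_sdiff.mpr ⟨hrS, hrT⟩, hCn, ?_,
    hTn, hTc, ht, ?_, ?_, ?_, ?_, ?_, ?_⟩
  · rw [hUC]
    exact Finset.subset_union_left
  · intro u hu
    rw [hUC, Finset.mem_union] at hu
    rcases hu with hu | hu
    · exact htm u hu
    · exact (hPgt u hu t (hTS ht)).le
  · rw [hUCT, hPS]
  · rw [Finset.card_sdiff_of_subset hTS]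
    omega
  · rw [hy, hUC, hcnV, ← hUC, hUCT]
    omega
  · rw [hx, hUC, hcnV]
    omega
  · have := (tCNT m hm U (S \ T) r hr hmin (Finset.sdiff_subset.trans hSU)
      (Finset.mem_sdiff.mpr ⟨hrS, hrT⟩)).1
    omega

end Pool.Agent.LOW
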