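import Pool.Agent.Lib.MP_263316_co.EX.Spec

/-!
MP_263316_co, project EX (helper30).
-/

set_option autoImplicit false

namespace Pool.Agent.LOW

open Finset Pool.Agent.SWC

open ENDx FinAux in
theorem tYF : S_YF := by
  intro hYA n h hm hle E c hE hc
  have hg : Monotone (mh h) := mh_mono h hm
  have hcard : (range n).card = n := Finset.card_range n
  obtain ⟨a, fv, ha, hfv⟩ := tPAR All.phi (mh h) hg n (range n) hcard
  have hcn : cn (mh h) (range n) = c := (cn_mh h).trans hc.symm
  have hEE : eE (mh h) (range n) = E := (eE_mh h).trans hE.symm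
  refine ⟨a, (sum_eq h Pool.Agent.SWC.t_FUN).trans ha, fun μ => ?_⟩
  obtain ⟨h1, h2, h3⟩ := hfv μ
  have hT := All.three (mh h) hg n (range n) hcard.le (fv μ)
  rw [← h1, hcn, hEE] at hT
  have hzero : ∀ j : ℕ, j + c < Multiset.card μ.parts → (a μ).coeff j = 0 := by
    intro j hj
    rw [h1]
    refine All.ord (mh h) hg n (range n) hcard.le (fv μ) j ?_
    rw [hcn, h2]
    exact hj
  refine ⟨hzero, ?_, hT.1, hT.2⟩
  intro s hs hmin i j hij hj
  have hparts : big s (fv μ) := by
    intro i hi
    rw [h3] at hi
    exact hmin _ (Multiset.count_pos.mp hi)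
  have hn : 0 < n := by
    by_contra h0
    have h4 : μ.parts.sum = n := μ.parts_sum
    have h5 : s ≤ μ.parts.sum := Multiset.le_sum_of_mem hs
    have h6 : 0 < s := μ.parts_pos hs
    omega
  have hne : (range n).Nonempty := ⟨0, Finset.mem_range.mpr hn⟩
  have hspos : 0 < s := μ.parts_pos hs
  by_cases hs2 : 2 ≤ s
  · have hP := hYA (mh h) hg n s (range n) hs2 hcard.le (fv μ) hparts
    rw [← h1, hcn, h2] at hP
    refine ⟨hP.1 i (by omega), ?_⟩
    induction j, hij using Nat.le_induction with
    | base => exact le_refl _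
    | succ j hij ih =>
      exact (ih (by omega)).trans (hP.2 hne j (by omega))
  · have hs1 : s = 1 := by omega
    subst hs1
    have hlow : ∀ j : ℕ, j + c ≤ Multiset.card μ.parts → 0 ≤ (a μ).coeff j := by
      intro j hj
      rcases Nat.lt_or_ge (j + c) (Multiset.card μ.parts) with h4 | h4
      · rw [hzero j h4]
      · have h5 := All.nng (mh h) hg n (range n) hcard.le (fv μ)
        unfold Lw at h5
        rw [hcn, h2, if_pos (by omega), ← h1] at h5
        rwa [show Multiset.card μ.parts - c = j by omega] at h5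
    refine ⟨hlow i (by omega), ?_⟩
    rcases Nat.eq_or_lt_of_le hij with h4 | h4
    · rw [h4]
    · rw [hzero i (by omega)]
      exact hlow j (by omega)

end Pool.Agent.LOW
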